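import Pool.Agent.W661.RC.Stm2

/-!
# Kazhdan groups are finitely generated
-/

set_option autoImplicit false

namespace Pool.Agent.N303.KQ

open Finset Filter
open Pool.Agent.W661.RC (HasT)

noncomputable section

section perm

variable {G X : Type} [Group G] [MulAction G X]

theorem two_pos'' : 0 < (2 : ENNReal).toReal := by norm_num

theorem mem_perm (g : G) (f : lp (fun _ : X => ℂ) 2) :
    Memℓp (fun x => f (g⁻¹ • x)) 2 := by
  refine memℓp_gen ?_
  have h := (lp.memℓp f).summable two_pos''
  exact ((MulAction.toPerm (g⁻¹ : G) : Equiv.Perm X).summable_iff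
    (f := fun x => ‖f x‖ ^ (2 : ENNReal).toReal)).2 h

/-- translation operator -/
def permI (g : G) : lp (fun _ : X => ℂ) 2 →ₗᵢ[ℂ] lp (fun _ : X => ℂ) 2 where
  toFun f := ⟨fun x => f (g⁻¹ • x), mem_perm g f⟩
  map_add' f g := by
    ext i
    rfl
  map_smul' c f := by
    ext i
    rfl
  norm_map' f := by
    rw [lp.norm_eq_tsum_rpow two_pos'', lp.norm_eq_tsum_rpow two_pos'']
    congr 1
    exact (MulAction.toPerm (g⁻¹ : G) : Equiv.Perm X).tsum_eq
      (fun x => ‖f x‖ ^ (2 : ENNReal).toReal)

theorem permI_apply (g : G) (f : lp (fun _ : X => ℂ) 2) (x : X) :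
    (permI g f : lp (fun _ : X => ℂ) 2) x = f (g⁻¹ • x) := rfl

/-- the permutation representation -/
def permRep : G →* (lp (fun _ : X => ℂ) 2 ≃ₗᵢ[ℂ] lp (fun _ : X => ℂ) 2) where
  toFun g :=
    { (permI (X := X) g) with
      invFun := fun f => permI g⁻¹ f
      left_inv := fun f => by
        ext x
        show (permI (X := X) g⁻¹ (permI g f)) x = f x
        rw [permI_apply, permI_apply, inv_inv, inv_smul_smul]
      right_inv := fun f => by
        ext x
        show (permI (X := X) g (permI g⁻¹ f)) x = f x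
        rw [permI_apply, permI_apply, inv_inv, smul_inv_smul] }
  map_one' := by
    ext f x
    show (permI (X := X) (1 : G) f) x = f x
    rw [permI_apply, inv_one, one_smul]
  map_mul' g h := by
    ext f x
    show (permI (X := X) (g * h) f) x = (permI (X := X) g (permI h f)) x
    rw [permI_apply, permI_apply, permI_apply, mul_inv_rev, mul_smul]

theorem permRep_apply (g : G) (f : lp (fun _ : X => ℂ) 2) (x : X) :
    (permRep g f : lp (fun _ : X => ℂ) 2) x = f (g⁻¹ • x) := rfl

theorem permRep_single [DecidableEq X] (g : G) (x0 : X) (h : g • x0 = x0) :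
    permRep g (lp.single 2 x0 (1 : ℂ) : lp (fun _ : X => ℂ) 2) = lp.single 2 x0 (1 : ℂ) := by
  ext x
  rw [permRep_apply]
  by_cases hx : x = x0
  · subst hx
    have h3 : g⁻¹ • x = x := by rw [inv_smul_eq_iff, h]
    rw [h3]
  · have h3 : g⁻¹ • x ≠ x0 := by
      intro h4
      rw [inv_smul_eq_iff, h] at h4
      exact hx h4
    rw [lp.single_apply_ne _ _ _ h3, lp.single_apply_ne _ _ _ hx]

end perm

/-- index set: cosets of all finitely generated subgroups -/
@[ext] structure XC (G : Type) [Group G] where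
  S : Finset G
  q : G ⧸ Subgroup.closure (S : Set G)

instance (G : Type) [Group G] : MulAction G (XC G) where
  smul g x := ⟨x.1, g • x.2⟩
  one_smul x := by
    show (⟨x.1, (1 : G) • x.2⟩ : XC G) = x
    rw [one_smul]
  mul_smul g h x := by
    show (⟨x.1, (g * h) • x.2⟩ : XC G) = ⟨x.1, g • (h • x.2)⟩
    rw [mul_smul]

theorem smul_XC {G : Type} [Group G] (g : G) (S : Finset G)
    (q : G ⧸ Subgroup.closure (S : Set G)) : g • (⟨S, q⟩ : XC G) = ⟨S, g • q⟩ := rfl

/-- a Kazhdan group has a finite set whose closure has finite index -/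
theorem exists_finite_quotient {G : Type} [Group G] (hT : HasT G) :
    ∃ S : Finset G, Finite (G ⧸ Subgroup.closure (S : Set G)) := by
  classical
  obtain ⟨v, hv0, hv⟩ := hT (lp (fun _ : XC G => ℂ) 2)
    ((Unitary.linearIsometryEquiv (𝕜 := ℂ) (H := lp (fun _ : XC G => ℂ) 2)).symm.toMonoidHom.comp
      permRep) (by
    intro K ε hε
    refine ⟨lp.single 2 (⟨K, ((1 : G) : G ⧸ Subgroup.closure (K : Set G))⟩ : XC G) (1 : ℂ), ?_, ?_⟩
    · rw [lp.norm_single (by norm_num)]
      simp
    · intro g hg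
      have h2 : g • (⟨K, ((1 : G) : G ⧸ Subgroup.closure (K : Set G))⟩ : XC G) =
          ⟨K, ((1 : G) : G ⧸ Subgroup.closure (K : Set G))⟩ := by
        rw [smul_XC]
        congr 1
        have h3 : g • ((1 : G) : G ⧸ Subgroup.closure (K : Set G)) = ((g * 1 : G) :
          G ⧸ Subgroup.closure (K : Set G)) := rfl
        rw [h3, mul_one, ← one_mul g, QuotientGroup.mk_mul_of_mem (1 : G)
          (Subgroup.subset_closure hg)]
      have h1 := permRep_single g _ h2
      show ‖permRep g _ - _‖ < ε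
      rw [h1, sub_self, norm_zero]
      exact hε)
  have hinv : ∀ (g : G) (x : XC G), v (g⁻¹ • x) = v x := by
    intro g x
    have h1 : permRep g v = v := hv g
    calc v (g⁻¹ • x) = (permRep g v : lp (fun _ : XC G => ℂ) 2) x := (permRep_apply g v x).symm
      _ = v x := by rw [h1]
  obtain ⟨x, hx⟩ : ∃ x, v x ≠ 0 := by
    by_contra h
    push Not at h
    exact hv0 (lp.ext (funext h))
  obtain ⟨S, q⟩ := x
  refine ⟨S, ?_⟩
  by_contra hinf
  rw [not_finite_iff_infinite] at hinf
  have hsum := (lp.memℓp v).summable two_pos''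
  have hc : ∀ q' : G ⧸ Subgroup.closure (S : Set G), v ⟨S, q'⟩ = v ⟨S, q⟩ := by
    intro q'
    obtain ⟨g, hg⟩ := MulAction.exists_smul_eq G q q'
    have h1 := hinv g (⟨S, q'⟩ : XC G)
    rw [← h1, smul_XC]
    congr 2
    rw [← hg, inv_smul_smul]
  have h2 : Summable fun _ : G ⧸ Subgroup.closure (S : Set G) =>
      ‖v ⟨S, q⟩‖ ^ (2 : ENNReal).toReal := by
    have h3 := hsum.comp_injective (i := fun q' : G ⧸ Subgroup.closure (S : Set G) =>
      (⟨S, q'⟩ : XC G)) (fun a b h => by
        have h' : (⟨S, a⟩ : XC G) = ⟨S, b⟩ := h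
        injection h')
    refine h3.congr fun q' => ?_
    show ‖v ⟨S, q'⟩‖ ^ _ = _
    rw [hc q']
  rw [summable_const_iff] at h2
  have h4 : ‖v ⟨S, q⟩‖ ≠ 0 := norm_ne_zero_iff.2 hx
  have h5 : ‖v ⟨S, q⟩‖ ^ (2 : ENNReal).toReal ≠ 0 := by
    simp only [ENNReal.toReal_ofNat, Real.rpow_two, ne_eq, OfNat.ofNat_ne_zero, not_false_eq_true,
      pow_eq_zero_iff]
    exact h4
  exact h5 h2

/-- Kazhdan groups are quotients of finitely generated free groups -/
theorem exists_free {G : Type} [Group G] (hT : HasT G) :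
    ∃ (k : ℕ) (γ : FreeGroup (Fin k) →* G), Function.Surjective γ := by
  classical
  obtain ⟨S, hS⟩ := exists_finite_quotient hT
  have := Fintype.ofFinite (G ⧸ Subgroup.closure (S : Set G))
  set T : Finset G := S ∪ (univ.image fun q : G ⧸ Subgroup.closure (S : Set G) => q.out) with hTd
  have hclos : Subgroup.closure (T : Set G) = ⊤ := by
    rw [eq_top_iff]
    intro g _
    have h1 : ((g : G ⧸ Subgroup.closure (S : Set G)).out)⁻¹ * g ∈ Subgroup.closure (S : Set G) := by
      rw [← QuotientGroup.eq, QuotientGroup.out_eq']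
    have h2 : Subgroup.closure (S : Set G) ≤ Subgroup.closure (T : Set G) :=
      Subgroup.closure_mono (by rw [hTd]; simp)
    have h3 : (g : G ⧸ Subgroup.closure (S : Set G)).out ∈ Subgroup.closure (T : Set G) := by
      apply Subgroup.subset_closure
      rw [hTd]
      simp
    have h4 := mul_mem h3 (h2 h1)
    rwa [mul_inv_cancel_left] at h4
  refine ⟨T.card, FreeGroup.lift fun i => (T.equivFin.symm i).1, ?_⟩
  rw [← MonoidHom.range_eq_top, FreeGroup.range_lift_eq_closure, ← hclos]
  congr 1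
  ext g
  constructor
  · rintro ⟨i, rfl⟩
    exact (T.equivFin.symm i).2
  · intro hg
    exact ⟨T.equivFin ⟨g, hg⟩, by simp⟩

end

end Pool.Agent.N303.KQ
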