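import Pool.Agent.N303.KQ.Blk

/-!
# The block algebra: matrices `Am α`, the orthonormal basis, signed permutations
-/

set_option autoImplicit false

namespace Pool.Agent.N303.KQ

open Matrix Finset
open scoped ComplexOrder
open Pool.Agent.W661.RC Pool.Agent.W683.RC

noncomputable section

variable {d : ℕ} (O : Out d)

/-- the block matrix of `α` -/
def Bm (α : Matrix O.I O.I ℂ) : Matrix (Jx O.c O.l) (Jx O.c O.l) ℂ :=
  fun x y => if (x.2 : ℕ) = (y.2 : ℕ) then α x.1 y.1 else 0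

/-- the element of the block algebra given by `α` -/
def Am (α : Matrix O.I O.I ℂ) : Mt d := O.Θ * Bm O α * O.Θᴴ

/-- `α` is block diagonal -/
def BD (α : Matrix O.I O.I ℂ) : Prop := ∀ i j, O.c i ≠ O.c j → α i j = 0

variable {O}

theorem mem_alg {a : Mt d} : a ∈ O.alg ↔ ∃ α, BD O α ∧ a = Am O α := by
  constructor
  · rintro ⟨X, ⟨α, hα, hX⟩, rfl⟩
    refine ⟨α, hα, ?_⟩
    rw [Am]
    congr 2
    ext x y
    exact hX x y
  · rintro ⟨α, hα, rfl⟩
    exact ⟨Bm O α, ⟨α, hα, fun _ _ => rfl⟩, rfl⟩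

theorem Bm_add (α β : Matrix O.I O.I ℂ) : Bm O (α + β) = Bm O α + Bm O β := by
  ext x y
  simp only [Bm, Matrix.add_apply]
  split_ifs <;> simp

theorem Bm_smul (c : ℂ) (α : Matrix O.I O.I ℂ) : Bm O (c • α) = c • Bm O α := by
  ext x y
  simp only [Bm, Matrix.smul_apply]
  split_ifs <;> simp

theorem Bm_zero : Bm O 0 = 0 := by
  ext x y
  simp [Bm]

theorem Bm_sum {ι : Type} (s : Finset ι) (f : ι → Matrix O.I O.I ℂ) :
    Bm O (∑ i ∈ s, f i) = ∑ i ∈ s, Bm O (f i) := by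
  classical
  induction s using Finset.induction_on with
  | empty => simp [Bm_zero]
  | insert a s ha ih => rw [sum_insert ha, sum_insert ha, Bm_add, ih]

theorem Bm_conjTranspose (α : Matrix O.I O.I ℂ) : (Bm O α)ᴴ = Bm O αᴴ := by
  ext x y
  simp only [Bm, conjTranspose_apply]
  by_cases h : (x.2 : ℕ) = (y.2 : ℕ)
  · rw [if_pos h.symm, if_pos h]
  · rw [if_neg (fun h2 => h h2.symm), if_neg h, star_zero]

theorem BD.conjTranspose {α : Matrix O.I O.I ℂ} (h : BD O α) : BD O αᴴ := fun i j hij => by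
  rw [conjTranspose_apply, h j i (fun h2 => hij h2.symm), star_zero]

theorem BD.mul {α β : Matrix O.I O.I ℂ} (hα : BD O α) (hβ : BD O β) : BD O (α * β) := by
  intro i j hij
  rw [Matrix.mul_apply]
  refine sum_eq_zero fun m _ => ?_
  by_cases h : O.c i = O.c m
  · rw [hβ m j (fun h2 => hij (h.trans h2)), mul_zero]
  · rw [hα i m h, zero_mul]

theorem Bm_mul {α β : Matrix O.I O.I ℂ} (hα : BD O α) : Bm O α * Bm O β = Bm O (α * β) := by
  ext x y
  rw [Matrix.mul_apply, Fintype.sum_sigma]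
  have key : ∀ m : O.I, ∑ q : Fin (O.l (O.c m)), Bm O α x ⟨m, q⟩ * Bm O β ⟨m, q⟩ y =
      α x.1 m * (if (x.2 : ℕ) = (y.2 : ℕ) then β m y.1 else 0) := by
    intro m
    by_cases h : O.c x.1 = O.c m
    · have hlt : (x.2 : ℕ) < O.l (O.c m) := by rw [← h]; exact x.2.2
      rw [Finset.sum_eq_single (⟨(x.2 : ℕ), hlt⟩ : Fin (O.l (O.c m)))]
      · simp [Bm]
      · intro q _ hq
        have hne : (x.2 : ℕ) ≠ (q : ℕ) := fun h2 => hq (Fin.ext h2.symm)
        simp only [Bm]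
        rw [if_neg (by exact hne), zero_mul]
      · intro h2
        exact absurd (Finset.mem_univ _) h2
    · rw [hα x.1 m h, zero_mul]
      refine Finset.sum_eq_zero fun q _ => ?_
      simp only [Bm]
      rw [hα x.1 m h, ite_self, zero_mul]
  rw [Finset.sum_congr rfl (fun m _ => key m)]
  simp only [Bm]
  by_cases h : (x.2 : ℕ) = (y.2 : ℕ)
  · simp only [if_pos h]
    rw [Matrix.mul_apply]
  · simp only [if_neg h, mul_zero, Finset.sum_const_zero]

theorem Am_add (α β : Matrix O.I O.I ℂ) : Am O (α + β) = Am O α + Am O β := by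
  rw [Am, Bm_add, Matrix.mul_add, Matrix.add_mul]; rfl

theorem Am_smul (c : ℂ) (α : Matrix O.I O.I ℂ) : Am O (c • α) = c • Am O α := by
  rw [Am, Bm_smul, Matrix.mul_smul, Matrix.smul_mul]; rfl

theorem Am_sum {ι : Type} (s : Finset ι) (f : ι → Matrix O.I O.I ℂ) :
    Am O (∑ i ∈ s, f i) = ∑ i ∈ s, Am O (f i) := by
  rw [Am, Bm_sum, Matrix.mul_sum, Matrix.sum_mul]; rfl

theorem Am_conjTranspose (α : Matrix O.I O.I ℂ) : (Am O α)ᴴ = Am O αᴴ := by
  rw [Am, Matrix.conjTranspose_mul, Matrix.conjTranspose_mul, Matrix.conjTranspose_conjTranspose,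
    Bm_conjTranspose, Am, Matrix.mul_assoc]

theorem Am_mul {α β : Matrix O.I O.I ℂ} (hα : BD O α) : Am O α * Am O β = Am O (α * β) := by
  rw [Am, Am, Am, ← Bm_mul hα]
  calc O.Θ * Bm O α * O.Θᴴ * (O.Θ * Bm O β * O.Θᴴ)
      = O.Θ * Bm O α * (O.Θᴴ * O.Θ) * Bm O β * O.Θᴴ := by simp only [Matrix.mul_assoc]
    _ = O.Θ * (Bm O α * Bm O β) * O.Θᴴ := by
        rw [O.iso, Matrix.mul_one]
        simp only [Matrix.mul_assoc]

theorem Am_mem {α : Matrix O.I O.I ℂ} (hα : BD O α) : Am O α ∈ O.alg := mem_alg.2 ⟨α, hα, rfl⟩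

theorem alg_mul {a b : Mt d} (ha : a ∈ O.alg) (hb : b ∈ O.alg) : a * b ∈ O.alg := by
  obtain ⟨α, hα, rfl⟩ := mem_alg.1 ha
  obtain ⟨β, hβ, rfl⟩ := mem_alg.1 hb
  rw [Am_mul hα]
  exact Am_mem (hα.mul hβ)

theorem alg_conjTranspose {a : Mt d} (ha : a ∈ O.alg) : aᴴ ∈ O.alg := by
  obtain ⟨α, hα, rfl⟩ := mem_alg.1 ha
  rw [Am_conjTranspose]
  exact Am_mem hα.conjTranspose

/-- the support projection of the block algebra -/
def pO (O : Out d) : Mt d := O.Θ * O.Θᴴ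

theorem pO_pr : IsPr (pO O) := by
  refine ⟨?_, ?_⟩
  · rw [pO, Matrix.conjTranspose_mul, Matrix.conjTranspose_conjTranspose]
  · rw [pO]
    calc O.Θ * O.Θᴴ * (O.Θ * O.Θᴴ) = O.Θ * (O.Θᴴ * O.Θ) * O.Θᴴ := by simp only [Matrix.mul_assoc]
      _ = O.Θ * O.Θᴴ := by rw [O.iso, Matrix.mul_one]

theorem pO_mul_alg {a : Mt d} (ha : a ∈ O.alg) : pO O * a = a := by
  obtain ⟨α, hα, rfl⟩ := mem_alg.1 ha
  rw [pO, Am]
  calc O.Θ * O.Θᴴ * (O.Θ * Bm O α * O.Θᴴ) = O.Θ * (O.Θᴴ * O.Θ) * Bm O α * O.Θᴴ := by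
        simp only [Matrix.mul_assoc]
    _ = O.Θ * Bm O α * O.Θᴴ := by rw [O.iso, Matrix.mul_one]

/-- dimension of the support -/
def D0 (O : Out d) : ℝ := Fintype.card (Jx O.c O.l)

theorem hs_one' {n : Type} [Fintype n] [DecidableEq n] :
    hs (1 : Matrix n n ℂ) = Fintype.card n := by
  rw [hs_eq]
  simp

theorem hs_pO : hs (pO O) = D0 O := by
  rw [pO, hs_isom_mul O.iso, Pool.Agent.W683.RC.hs_conjTranspose]
  have h := hs_isom_mul O.iso (1 : Matrix (Jx O.c O.l) (Jx O.c O.l) ℂ)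
  rw [Matrix.mul_one, hs_one'] at h
  rw [h, D0]

theorem tr_pO : tr (pO O) = D0 O := by
  rw [pr_tr_eq_hs pO_pr, hs_pO]

theorem D0_le : D0 O ≤ d := by
  have h := Le_tr (pr_le_one (pO_pr (O := O)))
  rw [tr_pO, tr_one] at h
  exact h

theorem hs_compl : hs (1 - pO O) = d - D0 O := by
  rw [← pr_tr_eq_hs (pr_compl pO_pr), tr_sub, tr_one, tr_pO]

/-! ### The orthonormal basis -/

/-- index set of the basis of matrix units -/
abbrev Yx (O : Out d) : Type :=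
  {p : O.I × O.I // O.c p.1 = O.c p.2 ∧ 0 < O.l (O.c p.1)}

/-- the matrix unit -/
def eu (O : Out d) (i j : O.I) : Matrix O.I O.I ℂ := fun a b => if a = i ∧ b = j then 1 else 0

/-- normalised matrix units -/
def Jb (O : Out d) (y : Yx O) : Mt d :=
  ((√(O.l (O.c y.1.1) : ℝ) : ℝ) : ℂ)⁻¹ • Am O (eu O y.1.1 y.1.2)

theorem BD_eu {i j : O.I} (h : O.c i = O.c j) : BD O (eu O i j) := by
  intro a b hab
  simp only [eu]
  rw [if_neg]
  rintro ⟨rfl, rfl⟩
  exact hab h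

theorem ip_Am (α β : Matrix O.I O.I ℂ) (hα : BD O α) :
    ip (Am O α) (Am O β) = ∑ i, ∑ j, star (α j i) * β j i * (O.l (O.c i) : ℂ) := by
  rw [ip, Am_conjTranspose, Am_mul hα.conjTranspose, Am, Matrix.trace_mul_comm, ← Matrix.mul_assoc,
    O.iso, Matrix.one_mul, Matrix.trace, Fintype.sum_sigma]
  refine sum_congr rfl fun i _ => ?_
  have h1 : ∀ q : Fin (O.l (O.c i)), (Bm O (αᴴ * β)).diag ⟨i, q⟩ = (αᴴ * β) i i := by
    intro q
    simp [Bm, Matrix.diag]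
  rw [sum_congr rfl fun q _ => h1 q, sum_const, card_univ, Fintype.card_fin, Matrix.mul_apply,
    nsmul_eq_mul, mul_sum]
  refine sum_congr rfl fun j _ => ?_
  rw [conjTranspose_apply]
  ring

theorem sqrt_ne (y : Yx O) : ((√(O.l (O.c y.1.1) : ℝ) : ℝ) : ℂ) ≠ 0 := by
  have h : (0 : ℝ) < (O.l (O.c y.1.1) : ℝ) := by exact_mod_cast y.2.2
  have := (Real.sqrt_pos.2 h).ne'
  exact_mod_cast this

theorem sqrt_sq' (n : ℕ) : ((√(n : ℝ) : ℝ) : ℂ) * ((√(n : ℝ) : ℝ) : ℂ) = (n : ℂ) := by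
  rw [← Complex.ofReal_mul, Real.mul_self_sqrt (Nat.cast_nonneg _)]
  simp

theorem onf_Jb : ONF (Jb O) := by
  intro y y'
  rw [Jb, Jb, ip_smul_left, ip_smul_right, ip_Am _ _ (BD_eu y.2.1)]
  have h1 : ∀ i j, star (eu O y.1.1 y.1.2 j i) * eu O y'.1.1 y'.1.2 j i * (O.l (O.c i) : ℂ) =
      if j = y.1.1 ∧ i = y.1.2 ∧ y = y' then (O.l (O.c y.1.1) : ℂ) else 0 := by
    intro i j
    simp only [eu]
    by_cases h : j = y.1.1 ∧ i = y.1.2
    · rw [if_pos h]
      by_cases h2 : j = y'.1.1 ∧ i = y'.1.2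
      · rw [if_pos h2, if_pos]
        · rw [h.2, ← y.2.1]
          simp
        · refine ⟨h.1, h.2, Subtype.ext (Prod.ext ?_ ?_)⟩
          · rw [← h.1, h2.1]
          · rw [← h.2, h2.2]
      · rw [if_neg h2, if_neg]
        · simp
        · rintro ⟨_, _, rfl⟩
          exact h2 h
    · rw [if_neg h, star_zero, zero_mul, zero_mul, if_neg]
      rintro ⟨h3, h4, _⟩
      exact h ⟨h3, h4⟩
  simp only [h1]
  by_cases h : y = y'
  · subst h
    have h2 : ∑ i, ∑ j, (if j = y.1.1 ∧ i = y.1.2 ∧ y = y then (O.l (O.c y.1.1) : ℂ) else 0) =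
        (O.l (O.c y.1.1) : ℂ) := by
      rw [sum_eq_single y.1.2]
      · rw [sum_eq_single y.1.1]
        · simp
        · intro b _ hb
          rw [if_neg]
          rintro ⟨h3, _⟩
          exact hb h3
        · intro h3; exact absurd (mem_univ _) h3
      · intro b _ hb
        refine sum_eq_zero fun j _ => ?_
        rw [if_neg]
        rintro ⟨_, h3, _⟩
        exact hb h3
      · intro h3; exact absurd (mem_univ _) h3
    rw [h2, if_pos rfl, ← sqrt_sq' (O.l (O.c y.1.1))]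
    have h3 := sqrt_ne y
    have h4 : star (((√(O.l (O.c y.1.1) : ℝ) : ℝ) : ℂ)⁻¹) = ((√(O.l (O.c y.1.1) : ℝ) : ℝ) : ℂ)⁻¹ := by
      rw [star_inv₀]
      congr 1
      exact Complex.conj_ofReal _
    rw [h4]
    field_simp
  · have h2 : ∑ i, ∑ j, (if j = y.1.1 ∧ i = y.1.2 ∧ y = y' then (O.l (O.c y.1.1) : ℂ) else 0) =
        0 := by
      refine sum_eq_zero fun i _ => sum_eq_zero fun j _ => ?_
      rw [if_neg]
      rintro ⟨_, _, h3⟩
      exact h h3
    rw [h2, if_neg h]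
    simp

/-- coefficients of `Am α` -/
def cf (O : Out d) (α : Matrix O.I O.I ℂ) (y : Yx O) : ℂ :=
  ((√(O.l (O.c y.1.1) : ℝ) : ℝ) : ℂ) * α y.1.1 y.1.2

theorem JJ_cf {α : Matrix O.I O.I ℂ} (hα : BD O α) : JJ (Jb O) (cf O α) = Am O α := by
  have h1 : ∀ y : Yx O, cf O α y • Jb O y = Am O (α y.1.1 y.1.2 • eu O y.1.1 y.1.2) := by
    intro y
    rw [cf, Jb, smul_smul, Am_smul]
    congr 1
    have h3 := sqrt_ne y
    field_simp
  rw [JJ, sum_congr rfl fun y _ => h1 y, ← Am_sum]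
  -- compare the block matrices
  rw [Am, Am]
  congr 2
  ext x y
  simp only [Bm]
  by_cases h : (x.2 : ℕ) = (y.2 : ℕ)
  · rw [if_pos h, if_pos h, Matrix.sum_apply]
    by_cases h2 : O.c x.1 = O.c y.1
    · have hl : 0 < O.l (O.c x.1) := Nat.pos_of_ne_zero fun h0 => by
        have := x.2.2
        omega
      rw [sum_eq_single (⟨(x.1, y.1), h2, hl⟩ : Yx O)]
      · simp [eu]
      · intro b _ hb
        simp only [Matrix.smul_apply, eu]
        rw [if_neg, smul_zero]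
        rintro ⟨h3, h4⟩
        exact hb (Subtype.ext (Prod.ext h3.symm h4.symm))
      · intro h3; exact absurd (mem_univ _) h3
    · rw [hα _ _ h2]
      refine sum_eq_zero fun b _ => ?_
      simp only [Matrix.smul_apply, eu]
      rw [if_neg, smul_zero]
      rintro ⟨h3, h4⟩
      exact h2 (by rw [h3, h4]; exact b.2.1)
  · rw [if_neg h, if_neg h]

theorem kp_Am {α : Matrix O.I O.I ℂ} (hα : BD O α) : kp (Jb O) (Am O α) = cf O α := by
  rw [← JJ_cf hα, kp_JJ onf_Jb]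

theorem JJ_kp_alg {a : Mt d} (ha : a ∈ O.alg) : JJ (Jb O) (kp (Jb O) a) = a := by
  obtain ⟨α, hα, rfl⟩ := mem_alg.1 ha
  rw [kp_Am hα, JJ_cf hα]

theorem hs_sub_kp_le {x a : Mt d} (ha : a ∈ O.alg) :
    hs (x - JJ (Jb O) (kp (Jb O) x)) ≤ hs (x - a) := by
  have h := hs_sub_le_best onf_Jb x (kp (Jb O) a)
  rwa [JJ_kp_alg ha] at h

theorem JJ_mem (ξ : Yx O → ℂ) : JJ (Jb O) ξ ∈ O.alg := by
  have h1 : JJ (Jb O) ξ = Am O (∑ y : Yx O,
      (ξ y * ((√(O.l (O.c y.1.1) : ℝ) : ℝ) : ℂ)⁻¹) • eu O y.1.1 y.1.2) := by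
    rw [Am_sum, JJ]
    refine sum_congr rfl fun y _ => ?_
    rw [Am_smul, Jb, smul_smul]
  rw [h1]
  apply Am_mem
  intro i j hij
  rw [Matrix.sum_apply]
  refine sum_eq_zero fun y _ => ?_
  rw [Matrix.smul_apply, BD_eu y.2.1 i j hij, smul_zero]

end

end Pool.Agent.N303.KQ
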