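import Pool.Agent.N303.KQ.Core
import Pool.Agent.W661.RC.All

/-!
# Filters of hyperlinear approximations, and of block algebras for a Kazhdan subgroup
-/

set_option autoImplicit false

namespace Pool.Agent.N303.KQ

open Matrix Finset Filter
open scoped ComplexOrder
open Pool.Agent.W661.RC Pool.Agent.W683.RC
open Pool.Agent.H21R2 (IsHyperlinear hsNorm)

noncomputable section

variable {P : Type} [Group P]

/-- a map to a unitary group -/
structure App (P : Type) where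
  d : ℕ
  pos : 0 < d
  φ : P → unitaryGroup (Fin d) ℂ

/-- quality of an approximation -/
def GoodA (A : Finset P) (ε : ℝ) (x : App P) : Prop :=
  x.φ 1 = 1 ∧
    (∀ a ∈ A, ∀ b ∈ A, a * b ∈ A →
      hs ((x.φ (a * b)).1 - (x.φ a).1 * (x.φ b).1) ≤ ε * x.d) ∧
    ∀ a ∈ A, a ≠ 1 → (x.d : ℝ) ≤ hs ((x.φ a).1 - 1)

theorem GoodA.mono {A B : Finset P} {ε δ : ℝ} {x : App P} (h : GoodA B δ x) (hAB : A ⊆ B)
    (hδ : δ ≤ ε) : GoodA A ε x := by
  refine ⟨h.1, fun a ha b hb hab => ?_, fun a ha => h.2.2 a (hAB ha)⟩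
  exact (h.2.1 a (hAB ha) b (hAB hb) (hAB hab)).trans
    (mul_le_mul_of_nonneg_right hδ (Nat.cast_nonneg _))

/-- the filter of good approximations -/
def appF (P : Type) [Group P] : Filter (App P) where
  sets := {s | ∃ (A : Finset P) (ε : ℝ), 0 < ε ∧ ∀ x, GoodA A ε x → x ∈ s}
  univ_sets := ⟨∅, 1, one_pos, fun _ _ => Set.mem_univ _⟩
  sets_of_superset := by
    rintro s t ⟨A, ε, hε, h⟩ hst
    exact ⟨A, ε, hε, fun x hx => hst (h x hx)⟩
  inter_sets := by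
    classical
    rintro s t ⟨A, ε, hε, h⟩ ⟨B, δ, hδ, h'⟩
    refine ⟨A ∪ B, min ε δ, lt_min hε hδ, fun x hx => ⟨h x ?_, h' x ?_⟩⟩
    · exact hx.mono subset_union_left (min_le_left _ _)
    · exact hx.mono subset_union_right (min_le_right _ _)

theorem eventually_appF {p : App P → Prop} :
    (∀ᶠ x in appF P, p x) ↔ ∃ (A : Finset P) (ε : ℝ), 0 < ε ∧ ∀ x, GoodA A ε x → p x :=
  Iff.rfl

theorem hs_eq_trace' {n : ℕ} (X : Mt n) : (Matrix.trace (Xᴴ * X)).re = hs X := (hs_eq X).symm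

theorem appF_neBot (hP : IsHyperlinear P) : (appF P).NeBot := by
  classical
  rw [neBot_iff]
  intro hbot
  have h : ∀ᶠ x in appF P, False := by rw [hbot]; exact mem_bot
  rw [eventually_appF] at h
  obtain ⟨A, ε, hε, h⟩ := h
  obtain ⟨n, hn, φ, h1, h2, h3⟩ := hP (insert 1 A) (mem_insert_self _ _) (√ε) (Real.sqrt_pos.2 hε)
  have hn0 : (0 : ℝ) < n := by exact_mod_cast hn
  refine h ⟨n, hn, φ⟩ ⟨h1, fun a ha b hb hab => ?_, fun a ha ha1 => ?_⟩
  · have h4 := h2 a (mem_insert_of_mem ha) b (mem_insert_of_mem hb) (mem_insert_of_mem hab)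
    rw [hsNorm, hs_eq_trace'] at h4
    have h5 := (Real.sqrt_lt_sqrt_iff (div_nonneg (Pool.Agent.W683.RC.hs_nonneg _)
      (Nat.cast_nonneg _))).1 h4
    rw [div_lt_iff₀ hn0] at h5
    exact h5.le
  · have h4 := h3 a (mem_insert_of_mem ha) ha1
    rw [hsNorm, hs_eq_trace'] at h4
    have h5 := (Real.one_le_sqrt).1 h4
    rw [le_div_iff₀ hn0, one_mul] at h5
    exact h5

theorem ev_one : ∀ᶠ x in appF P, x.φ 1 = 1 :=
  eventually_appF.2 ⟨∅, 1, one_pos, fun _ hx => hx.1⟩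

theorem ev_mul (a b : P) {η : ℝ} (hη : 0 < η) :
    ∀ᶠ x in appF P, hs ((x.φ (a * b)).1 - (x.φ a).1 * (x.φ b).1) ≤ η * x.d := by
  classical
  refine eventually_appF.2 ⟨{a, b, a * b}, η, hη, fun x hx => ?_⟩
  exact hx.2.1 a (by simp) b (by simp) (by simp)

theorem ev_ne (a : P) (ha : a ≠ 1) : ∀ᶠ x in appF P, (x.d : ℝ) ≤ hs ((x.φ a).1 - 1) := by
  classical
  refine eventually_appF.2 ⟨{a}, 1, one_pos, fun x hx => ?_⟩
  exact hx.2.2 a (by simp) ha

theorem un_conj {n : ℕ} (u : unitaryGroup (Fin n) ℂ) : (u.1)ᴴ * u.1 = 1 :=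
  Pool.Agent.H80R2.HG.PSAux.uh u

/-- the approximation of generators -/
def Ux {k : ℕ} (γ : FreeGroup (Fin k) →* P) (x : App P) (s : Fin k) :
    unitaryGroup (Fin x.d) ℂ := x.φ (γ (FreeGroup.of s))

theorem hs_mul_sub_mul {n : ℕ} (a a' b b' : unitaryGroup (Fin n) ℂ) :
    hs (a.1 * b.1 - a'.1 * b'.1) ≤ 2 * hs (a.1 - a'.1) + 2 * hs (b.1 - b'.1) := by
  have e : a.1 * b.1 - a'.1 * b'.1 = (a.1 - a'.1) * b.1 + a'.1 * (b.1 - b'.1) := by
    rw [Matrix.sub_mul, Matrix.mul_sub]; abel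
  rw [e]
  refine (Pool.Agent.W683.RC.hs_add_le _ _).trans ?_
  rw [hs_mul_unit (un_conj b), hs_unit_mul (un_conj a')]

theorem ev_word {k : ℕ} (γ : FreeGroup (Fin k) →* P) (w : FreeGroup (Fin k)) :
    ∀ η : ℝ, 0 < η →
      ∀ᶠ x in appF P, hs ((FreeGroup.lift (Ux γ x) w).1 - (x.φ (γ w)).1) ≤ η * x.d := by
  induction w using FreeGroup.induction_on with
  | C1 =>
    intro η hη
    filter_upwards [ev_one (P := P)] with x hx
    have h : hs ((FreeGroup.lift (Ux γ x) 1).1 - (x.φ (γ 1)).1) = 0 := by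
      rw [map_one, map_one, hx, sub_self, hs_zero]
    rw [h]
    positivity
  | of s =>
    intro η hη
    refine Eventually.of_forall fun x => ?_
    have h : hs ((FreeGroup.lift (Ux γ x) (FreeGroup.of s)).1 - (x.φ (γ (FreeGroup.of s))).1) = 0 := by
      rw [FreeGroup.lift_apply_of, Ux, sub_self, hs_zero]
    rw [h]
    positivity
  | inv_of s _ =>
    intro η hη
    filter_upwards [ev_one (P := P), ev_mul (γ (FreeGroup.of s)) (γ (FreeGroup.of s))⁻¹ hη]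
      with x hx hx2
    rw [mul_inv_cancel, hx] at hx2
    rw [map_inv, map_inv, FreeGroup.lift_apply_of]
    set u := Ux γ x s with hu
    have hu2 : x.φ (γ (FreeGroup.of s)) = u := rfl
    rw [hu2] at hx2
    have e : (u⁻¹ : unitaryGroup (Fin x.d) ℂ).1 - (x.φ (γ (FreeGroup.of s))⁻¹).1 =
        (u.1)ᴴ * (1 - u.1 * (x.φ (γ (FreeGroup.of s))⁻¹).1) := by
      rw [Matrix.mul_sub, ← Matrix.mul_assoc, un_conj u, Matrix.one_mul, Matrix.mul_one]
      rfl
    rw [e, hs_unit_mul (unit_conj (un_conj u))]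
    exact hx2
  | mul v w hv hw =>
    intro η hη
    filter_upwards [hv (η / 16) (by positivity), hw (η / 16) (by positivity),
      ev_mul (γ v) (γ w) (show 0 < η / 16 by positivity)] with x h1 h2 h3
    rw [map_mul, map_mul]
    have e : ((FreeGroup.lift (Ux γ x) v * FreeGroup.lift (Ux γ x) w :
        unitaryGroup (Fin x.d) ℂ)).1 - (x.φ (γ v * γ w)).1 =
        ((FreeGroup.lift (Ux γ x) v).1 * (FreeGroup.lift (Ux γ x) w).1 -
          (x.φ (γ v)).1 * (x.φ (γ w)).1) -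
        ((x.φ (γ v * γ w)).1 - (x.φ (γ v)).1 * (x.φ (γ w)).1) := by
      rw [UnitaryGroup.mul_val]; abel
    rw [e]
    refine (Pool.Agent.W683.RC.hs_sub_le _ _).trans ?_
    have h4 := hs_mul_sub_mul (FreeGroup.lift (Ux γ x) v) (x.φ (γ v))
      (FreeGroup.lift (Ux γ x) w) (x.φ (γ w))
    have hd : (0 : ℝ) ≤ η * x.d := by positivity
    linarith

/-! ### Block algebras -/

/-- the generators as matrices -/
def Um {k : ℕ} (γ : FreeGroup (Fin k) →* P) (x : App P) (s : Fin k) : Mt x.d := (Ux γ x s).1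

/-- the block algebra `O` is an `ε`-approximation of the relative commutant -/
structure BlkA {k d : ℕ} (u : Fin k → Mt d) (K0 ε : ℝ) (O : Out d) : Prop where
  en : ∀ a ∈ O.alg, Le (aᴴ * a) 1 → en u a ≤ ε * d
  near : ∀ y : Mt d, Le (yᴴ * y) 1 → ∃ a ∈ O.alg, Le (aᴴ * a) 1 ∧
    hs (y - a) ≤ K0 * Pool.Agent.W661.RC.en u y + ε * d
  size : (d : ℝ) - D0 O ≤ ε * d

theorem BlkA.mono {k d : ℕ} {u : Fin k → Mt d} {K0 ε ε' : ℝ} {O : Out d} (h : BlkA u K0 ε O)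
    (hε : ε ≤ ε') : BlkA u K0 ε' O := by
  have h1 : ε * d ≤ ε' * d := mul_le_mul_of_nonneg_right hε (Nat.cast_nonneg _)
  refine ⟨fun a ha ha1 => (h.en a ha ha1).trans h1, fun y hy => ?_, h.size.trans h1⟩
  obtain ⟨a, ha, ha1, ha2⟩ := h.near y hy
  exact ⟨a, ha, ha1, by linarith⟩

/-- an approximation with a block algebra -/
abbrev PO (P : Type) : Type 1 := Σ x : App P, Out x.d

/-- the filter -/
def outF {k : ℕ} (γ : FreeGroup (Fin k) →* P) (K0 : ℝ) : Filter (PO P) where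
  sets := {s | ∃ ε : ℝ, 0 < ε ∧ ∀ᶠ x in appF P, ∀ O : Out x.d, BlkA (Um γ x) K0 ε O →
    (⟨x, O⟩ : PO P) ∈ s}
  univ_sets := ⟨1, one_pos, Eventually.of_forall fun _ _ _ => Set.mem_univ _⟩
  sets_of_superset := by
    rintro s t ⟨ε, hε, h⟩ hst
    exact ⟨ε, hε, h.mono fun x hx O hO => hst (hx O hO)⟩
  inter_sets := by
    rintro s t ⟨ε, hε, h⟩ ⟨δ, hδ, h'⟩
    refine ⟨min ε δ, lt_min hε hδ, ?_⟩
    filter_upwards [h, h'] with x hx hx' O hO
    exact ⟨hx O (hO.mono (min_le_left _ _)), hx' O (hO.mono (min_le_right _ _))⟩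

theorem eventually_outF {k : ℕ} {γ : FreeGroup (Fin k) →* P} {K0 : ℝ} {p : PO P → Prop} :
    (∀ᶠ y in outF γ K0, p y) ↔ ∃ ε : ℝ, 0 < ε ∧ ∀ᶠ x in appF P, ∀ O : Out x.d,
      BlkA (Um γ x) K0 ε O → p ⟨x, O⟩ := Iff.rfl

theorem ev_of_app {k : ℕ} {γ : FreeGroup (Fin k) →* P} {K0 : ℝ} {p : App P → Prop}
    (h : ∀ᶠ x in appF P, p x) : ∀ᶠ y in outF γ K0, p y.1 :=
  eventually_outF.2 ⟨1, one_pos, h.mono fun _ hx _ _ => hx⟩

theorem ev_blk {k : ℕ} {γ : FreeGroup (Fin k) →* P} {K0 ε : ℝ} (hε : 0 < ε) :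
    ∀ᶠ y in outF γ K0, BlkA (Um γ y.1) K0 ε y.2 :=
  eventually_outF.2 ⟨ε, hε, Eventually.of_forall fun _ _ hO => hO⟩

theorem tr_Dfc {k d : ℕ} (U : Fin k → unitaryGroup (Fin d) ℂ) (R : Finset (FreeGroup (Fin k))) :
    tr (Dfc U R) = ∑ w ∈ R, hs ((FreeGroup.lift U w : Mt d) - 1) := by
  rw [Dfc, tr_sum]
  exact sum_congr rfl fun w _ => (hs_eq_tr _).symm

/-- existence of block algebras for a Kazhdan subgroup -/
theorem exists_outF (hP : IsHyperlinear P) {k : ℕ} (N : Subgroup P)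
    (γ : FreeGroup (Fin k) →* N) (hγ : Function.Surjective γ) (hT : HasT N) :
    ∃ K0 : ℝ, 0 < K0 ∧ (outF (N.subtype.comp γ) K0).NeBot := by
  obtain ⟨C, hC, hptd⟩ := All.ptd N k γ hT hγ
  obtain ⟨K0, hK0, hfin⟩ := All.fin2 k C hC
  refine ⟨K0, hK0, ?_⟩
  rw [neBot_iff]
  intro hbot
  have h : ∀ᶠ y in outF (N.subtype.comp γ) K0, False := by rw [hbot]; exact mem_bot
  rw [eventually_outF] at h
  obtain ⟨ε, hε, h⟩ := h
  obtain ⟨η, hη, hfin⟩ := hfin ε hε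
  obtain ⟨δ, hδ, R, hR, hptd⟩ := hptd η hη
  obtain ⟨δ1, hδ1, hfin⟩ := hfin δ hδ
  have hn := appF_neBot hP
  -- the relators are nearly satisfied
  have h1 : ∀ᶠ x in appF P, ∀ w ∈ R,
      hs ((FreeGroup.lift (Ux (N.subtype.comp γ) x) w).1 - (x.φ ((N.subtype.comp γ) w)).1) ≤
        δ1 / (R.card + 1) * x.d := by
    rw [eventually_all_finset]
    intro w _
    exact ev_word (N.subtype.comp γ) w _ (by positivity)
  obtain ⟨x, hx, hx1, hx2⟩ := (h.and (h1.and (ev_one (P := P)))).exists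
  obtain ⟨S, hS1, hS2⟩ := hptd x.d (Ux (N.subtype.comp γ) x)
  have h2 : tr S.D ≤ δ1 * x.d := by
    rw [hS2, tr_Dfc]
    have h3 : ∀ w ∈ R, hs ((FreeGroup.lift (Ux (N.subtype.comp γ) x) w : Mt x.d) - 1) ≤
        δ1 / (R.card + 1) * x.d := by
      intro w hw
      have h4 := hx1 w hw
      have h5 : (N.subtype.comp γ) w = 1 := by
        show ((γ w : N) : P) = 1
        rw [hR w hw]; rfl
      rw [h5, hx2] at h4
      exact h4
    refine (sum_le_sum h3).trans ?_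
    rw [sum_const, nsmul_eq_mul]
    have h6 : (R.card : ℝ) * (δ1 / (R.card + 1) * x.d) = (R.card : ℝ) / (R.card + 1) * (δ1 * x.d) := by
      field_simp
    rw [h6]
    have h7 : (R.card : ℝ) / (R.card + 1) ≤ 1 := by
      rw [div_le_one (by positivity)]; linarith
    calc (R.card : ℝ) / (R.card + 1) * (δ1 * x.d) ≤ 1 * (δ1 * x.d) :=
          mul_le_mul_of_nonneg_right h7 (by positivity)
      _ = _ := one_mul _
  obtain ⟨O, b, hb, _, hO1, hO2, hO3⟩ := hfin x.d S x.pos h2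
  have hu : S.u = Um (N.subtype.comp γ) x := by
    funext s
    exact hS1 s
  rw [hu] at hO1 hO2
  exact hx O ⟨hO1, hO2, hO3⟩

end

end Pool.Agent.N303.KQ
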