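import Pool.Agent.W683.RC.Bas
import Pool.Agent.W661.RC.Stm2
import Pool.Agent.H80R2.HG.PS
import Pool.Agent.H21R2.HCrit

/-!
# The block algebra of an `Out` structure: orthonormal basis and coordinates
-/

set_option autoImplicit false

namespace Pool.Agent.N303.KQ

open Matrix Finset
open scoped ComplexOrder
open Pool.Agent.W661.RC Pool.Agent.W683.RC

noncomputable section

/-- squared Euclidean norm of a vector -/
def nsq {Y : Type} [Fintype Y] (ξ : Y → ℂ) : ℝ := ∑ y, ‖ξ y‖ ^ 2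

theorem nsq_nonneg {Y : Type} [Fintype Y] (ξ : Y → ℂ) : 0 ≤ nsq ξ :=
  sum_nonneg fun _ _ => by positivity

/-- trace inner product -/
def ip {d : ℕ} (x y : Mt d) : ℂ := Matrix.trace (xᴴ * y)

theorem ip_add_right {d : ℕ} (x y z : Mt d) : ip x (y + z) = ip x y + ip x z := by
  simp [ip, Matrix.mul_add]

theorem ip_sub_right {d : ℕ} (x y z : Mt d) : ip x (y - z) = ip x y - ip x z := by
  simp [ip, Matrix.mul_sub]

theorem ip_smul_right {d : ℕ} (c : ℂ) (x y : Mt d) : ip x (c • y) = c * ip x y := by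
  simp [ip]

theorem ip_smul_left {d : ℕ} (c : ℂ) (x y : Mt d) : ip (c • x) y = star c * ip x y := by
  simp [ip]

theorem ip_sum_right {d : ℕ} {ι : Type} (s : Finset ι) (x : Mt d) (f : ι → Mt d) :
    ip x (∑ i ∈ s, f i) = ∑ i ∈ s, ip x (f i) := by
  simp [ip, Matrix.mul_sum, Matrix.trace_sum]

theorem ip_sum_left {d : ℕ} {ι : Type} (s : Finset ι) (x : Mt d) (f : ι → Mt d) :
    ip (∑ i ∈ s, f i) x = ∑ i ∈ s, ip (f i) x := by
  simp [ip, Matrix.conjTranspose_sum, Matrix.sum_mul, Matrix.trace_sum]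

theorem ip_comm {d : ℕ} (x y : Mt d) : ip y x = star (ip x y) := by
  rw [ip, ip, ← Matrix.trace_conjTranspose, Matrix.conjTranspose_mul,
    Matrix.conjTranspose_conjTranspose]

theorem ip_self {d : ℕ} (x : Mt d) : ip x x = (hs x : ℂ) := (trace_conjTranspose_mul_self x)

theorem hs_add_ip {d : ℕ} (x y : Mt d) : hs (x + y) = hs x + hs y + 2 * (ip x y).re := by
  have h : (hs (x + y) : ℂ) = hs x + hs y + (ip x y + star (ip x y)) := by
    rw [← ip_self, ← ip_self, ← ip_self, ← ip_comm]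
    simp only [ip, Matrix.conjTranspose_add, Matrix.mul_add, Matrix.add_mul, Matrix.trace_add]
    ring
  have h2 := congrArg Complex.re h
  simp only [Complex.ofReal_re, Complex.add_re, Complex.star_def, Complex.conj_re] at h2
  linarith

/-! ### Orthonormal families of matrices -/

section ON

variable {d : ℕ} {Y : Type} [Fintype Y] [DecidableEq Y]

/-- an orthonormal family of matrices for the trace inner product -/
def ONF (J : Y → Mt d) : Prop := ∀ y y', ip (J y) (J y') = if y = y' then 1 else 0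

/-- the linear combination with coefficients `ξ` -/
def JJ (J : Y → Mt d) (ξ : Y → ℂ) : Mt d := ∑ y, ξ y • J y

/-- the coordinates -/
def kp (J : Y → Mt d) (x : Mt d) : Y → ℂ := fun y => ip (J y) x

variable {J : Y → Mt d}

omit [DecidableEq Y] in
theorem JJ_add (ξ η : Y → ℂ) : JJ J (ξ + η) = JJ J ξ + JJ J η := by
  simp [JJ, add_smul, sum_add_distrib]

omit [DecidableEq Y] in
theorem JJ_sub (ξ η : Y → ℂ) : JJ J (ξ - η) = JJ J ξ - JJ J η := by
  simp [JJ, sub_smul, sum_sub_distrib]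

omit [Fintype Y] [DecidableEq Y] in
theorem kp_add (x y : Mt d) : kp J (x + y) = kp J x + kp J y := by
  funext z; simp [kp, ip_add_right]

omit [Fintype Y] [DecidableEq Y] in
theorem kp_sub (x y : Mt d) : kp J (x - y) = kp J x - kp J y := by
  funext z; simp [kp, ip_sub_right]

theorem kp_JJ (hJ : ONF J) (ξ : Y → ℂ) : kp J (JJ J ξ) = ξ := by
  funext y
  simp only [kp, JJ, ip_sum_right, ip_smul_right]
  simp [hJ y]

theorem ip_JJ_JJ (hJ : ONF J) (ξ η : Y → ℂ) : ip (JJ J ξ) (JJ J η) = ∑ y, star (ξ y) * η y := by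
  rw [JJ, ip_sum_left]
  refine sum_congr rfl fun y _ => ?_
  rw [ip_smul_left]
  congr 1
  exact congrFun (kp_JJ hJ η) y

theorem hs_JJ (hJ : ONF J) (ξ : Y → ℂ) : hs (JJ J ξ) = nsq ξ := by
  have h : ((hs (JJ J ξ) : ℝ) : ℂ) = ((nsq ξ : ℝ) : ℂ) := by
    rw [← ip_self, ip_JJ_JJ hJ, nsq]
    push_cast
    refine sum_congr rfl fun y _ => ?_
    rw [Complex.star_def, Complex.conj_mul']
  exact_mod_cast h

theorem hs_sub_JJ (hJ : ONF J) (x : Mt d) (η : Y → ℂ) :
    hs (x - JJ J η) = hs (x - JJ J (kp J x)) + nsq (kp J x - η) := by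
  have e : x - JJ J η = (x - JJ J (kp J x)) + JJ J (kp J x - η) := by
    rw [JJ_sub]; abel
  rw [e, hs_add_ip, hs_JJ hJ]
  have h0 : ip (x - JJ J (kp J x)) (JJ J (kp J x - η)) = 0 := by
    rw [ip_comm]
    have : ip (JJ J (kp J x - η)) (x - JJ J (kp J x)) = 0 := by
      rw [JJ, ip_sum_left]
      refine sum_eq_zero fun y _ => ?_
      rw [ip_smul_left, ip_sub_right]
      have h1 : ip (J y) (JJ J (kp J x)) = ip (J y) x := congrFun (kp_JJ hJ (kp J x)) y
      rw [h1, sub_self, mul_zero]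
    rw [this, star_zero]
  rw [h0]
  simp

theorem hs_eq_kp (hJ : ONF J) (x : Mt d) : hs x = hs (x - JJ J (kp J x)) + nsq (kp J x) := by
  have h := hs_sub_JJ hJ x 0
  have h0 : JJ J (0 : Y → ℂ) = 0 := by simp [JJ]
  rw [h0, sub_zero, sub_zero] at h
  exact h

theorem nsq_kp_le (hJ : ONF J) (x : Mt d) : nsq (kp J x) ≤ hs x := by
  rw [hs_eq_kp hJ x]
  linarith [Pool.Agent.W683.RC.hs_nonneg (x - JJ J (kp J x))]

theorem hs_sub_le_best (hJ : ONF J) (x : Mt d) (η : Y → ℂ) :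
    hs (x - JJ J (kp J x)) ≤ hs (x - JJ J η) := by
  rw [hs_sub_JJ hJ x η]
  linarith [nsq_nonneg (kp J x - η)]

theorem JJ_kp_of_eq (hJ : ONF J) (η : Y → ℂ) : JJ J (kp J (JJ J η)) = JJ J η := by
  rw [kp_JJ hJ]

/-- compression of the conjugation by `V` -/
def TV (J : Y → Mt d) (V : Mt d) : Matrix Y Y ℂ := fun y' y => ip (J y') (V * J y * Vᴴ)

omit [DecidableEq Y] in
theorem TV_mulVec (V : Mt d) (ξ : Y → ℂ) : TV J V *ᵥ ξ = kp J (V * JJ J ξ * Vᴴ) := by
  funext y'
  simp only [mulVec, dotProduct, TV, kp, JJ, Matrix.mul_sum, Matrix.sum_mul, ip_sum_right]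
  refine sum_congr rfl fun y _ => ?_
  rw [Matrix.mul_smul, Matrix.smul_mul, ip_smul_right, mul_comm]

omit [Fintype Y] [DecidableEq Y] in
theorem TV_conjTranspose (V : Mt d) : (TV J V)ᴴ = TV J Vᴴ := by
  ext y y'
  rw [conjTranspose_apply, TV, TV, ← ip_comm]
  simp only [ip, Matrix.conjTranspose_mul, Matrix.conjTranspose_conjTranspose]
  rw [Matrix.trace_mul_comm]
  rw [← Matrix.mul_assoc, Matrix.trace_mul_comm]
  congr 1
  simp only [Matrix.mul_assoc]

end ON

end

end Pool.Agent.N303.KQ
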