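import Mathlib

/-!
# Every group is the quotient of a free group by a centraliser in an LEF group
-/

set_option autoImplicit false

namespace Pool.Agent.N303.KQ

open Finset

noncomputable section

/-- A local exactness property: every nontrivial element of a finite set `A` acts non trivially
in a map to a finite symmetric group which is multiplicative on `A`. -/
def LEFs (G : Type*) [Group G] : Prop :=
  ∀ A : Finset G, (1 : G) ∈ A → ∀ g ∈ A, g ≠ 1 →
    ∃ (Y : Type) (_ : Fintype Y) (_ : DecidableEq Y) (φ : G → Equiv.Perm Y), φ 1 = 1 ∧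
      (∀ a ∈ A, ∀ b ∈ A, a * b ∈ A → φ (a * b) = φ a * φ b) ∧ φ g ≠ 1

section free

variable {X : Type}

/-- the suffixes of a word -/
def sufs (L : List (X × Bool)) : Set (List (X × Bool)) := {M | M <:+ L}

variable {Q : Type} [Group Q]

/-- the canonical surjection -/
abbrev can (Q : Type) [Group Q] : FreeGroup Q →* Q := FreeGroup.lift id

open Classical in
/-- the finite set of all points on the paths -/
def pts (T : Finset Q) (W : Finset (FreeGroup Q)) : Finset Q :=
  T ∪ W.biUnion fun w => w.toWord.tails.toFinset.biUnion fun s =>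
    T.image fun x => can Q (FreeGroup.mk s) * x

theorem pts_T {T : Finset Q} {W : Finset (FreeGroup Q)} {x : Q} (hx : x ∈ T) : x ∈ pts T W := by
  classical
  rw [pts, Finset.mem_union]
  exact Or.inl hx

open Classical in
theorem pts_suf {T : Finset Q} {W : Finset (FreeGroup Q)} {x : Q} (hx : x ∈ T)
    {w : FreeGroup Q} (hw : w ∈ W) {s : List (Q × Bool)} (hs : s <:+ w.toWord) :
    can Q (FreeGroup.mk s) * x ∈ pts T W := by
  classical
  rw [pts, Finset.mem_union]
  refine Or.inr (Finset.mem_biUnion.2 ⟨w, hw, Finset.mem_biUnion.2 ⟨s, ?_,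
    Finset.mem_image.2 ⟨x, hx, rfl⟩⟩⟩)
  rw [List.mem_toFinset, List.mem_tails]
  exact hs

/-- the partial bijection given by left multiplication -/
def pb (X0 : Finset Q) (q : Q) : {x : X0 // q * (x : Q) ∈ X0} ≃ {y : X0 // q⁻¹ * (y : Q) ∈ X0} where
  toFun x := ⟨⟨q * (x : X0), x.2⟩, by
    show q⁻¹ * (q * ((x : X0) : Q)) ∈ X0
    rw [inv_mul_cancel_left]; exact x.1.2⟩
  invFun y := ⟨⟨q⁻¹ * (y : X0), y.2⟩, by
    show q * (q⁻¹ * ((y : X0) : Q)) ∈ X0
    rw [mul_inv_cancel_left]; exact y.1.2⟩
  left_inv x := by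
    ext
    simp
  right_inv y := by
    ext
    simp

open Classical in
/-- extension to a permutation -/
def gp (X0 : Finset Q) (q : Q) : Equiv.Perm X0 := (pb X0 q).extendSubtype

theorem gp_apply {X0 : Finset Q} {q x : Q} (hx : x ∈ X0) (hy : q * x ∈ X0) :
    gp X0 q ⟨x, hx⟩ = ⟨q * x, hy⟩ := by
  classical
  rw [gp, Equiv.extendSubtype_apply_of_mem (pb X0 q) ⟨x, hx⟩ hy]
  rfl

theorem gp_inv_apply {X0 : Finset Q} {q x : Q} (hx : x ∈ X0) (hy : q⁻¹ * x ∈ X0) :
    (gp X0 q)⁻¹ ⟨x, hx⟩ = ⟨q⁻¹ * x, hy⟩ := by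
  rw [Equiv.Perm.inv_eq_iff_eq, gp_apply hy (by rw [mul_inv_cancel_left]; exact hx)]
  simp

theorem act_suf {X0 : Finset Q} {x : Q} (L : List (Q × Bool))
    (h : ∀ s, s <:+ L → can Q (FreeGroup.mk s) * x ∈ X0) (hx : x ∈ X0) :
    ((FreeGroup.lift (gp X0) (FreeGroup.mk L) : Equiv.Perm X0) ⟨x, hx⟩ : Q) =
      can Q (FreeGroup.mk L) * x := by
  induction L with
  | nil =>
    show (((1 : Equiv.Perm X0) ⟨x, hx⟩ : X0) : Q) = 1 * x
    rw [one_mul]; rfl
  | cons p L ih =>
    obtain ⟨q, b⟩ := p
    have ih' := ih fun s hs => h s (hs.trans (List.suffix_cons _ _))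
    have h1 := h _ (List.suffix_refl ((q, b) :: L))
    have h2 := h L (List.suffix_cons _ _)
    have h3 : (FreeGroup.lift (gp X0) (FreeGroup.mk L) : Equiv.Perm X0) ⟨x, hx⟩ =
        ⟨can Q (FreeGroup.mk L) * x, h2⟩ := Subtype.ext ih'
    cases b with
    | true =>
      have e1 : (FreeGroup.mk ((q, true) :: L) : FreeGroup Q) = FreeGroup.of q * FreeGroup.mk L := by
        rw [FreeGroup.of, FreeGroup.mul_mk]; rfl
      rw [e1, map_mul, map_mul, FreeGroup.lift_apply_of, Equiv.Perm.mul_apply, h3]
      rw [e1, map_mul, FreeGroup.lift_apply_of, id, mul_assoc] at h1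
      rw [gp_apply h2 h1, FreeGroup.lift_apply_of, id, mul_assoc]
    | false =>
      have e1 : (FreeGroup.mk ((q, false) :: L) : FreeGroup Q) =
          (FreeGroup.of q)⁻¹ * FreeGroup.mk L := by
        rw [FreeGroup.of, FreeGroup.inv_mk, FreeGroup.mul_mk]; rfl
      rw [e1, map_mul, map_mul, map_inv, FreeGroup.lift_apply_of, Equiv.Perm.mul_apply, h3]
      rw [e1, map_mul, map_inv, FreeGroup.lift_apply_of, id, mul_assoc] at h1
      rw [gp_inv_apply h2 h1, map_inv, FreeGroup.lift_apply_of, id, mul_assoc]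

/-- finite partial orbits of a free group action extend to a finite action -/
theorem ext_action (T : Finset Q) (W : Finset (FreeGroup Q)) :
    ∀ x, ∀ hx : x ∈ T, ∀ w ∈ W,
      ((FreeGroup.lift (gp (pts T W)) w : Equiv.Perm (pts T W)) ⟨x, pts_T hx⟩ : Q) =
        can Q w * x := by
  classical
  intro x hx w hw
  have h := act_suf (X0 := pts T W) (x := x) w.toWord (fun s hs => pts_suf hx hw hs) (pts_T hx)
  rw [FreeGroup.mk_toWord] at h
  exact h

end free

section sep

variable {X : Type}

theorem free_sep' (w : FreeGroup X) (hw : w ≠ 1) :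
    ∃ (B : Type) (_ : Fintype B) (_ : DecidableEq B) (φ : FreeGroup X →* Equiv.Perm B), φ w ≠ 1 := by
  classical
  -- use the regular action of the free group on itself, restricted to a finite set
  let γ : FreeGroup (FreeGroup X) →* FreeGroup X := can (FreeGroup X)
  let ι : FreeGroup X →* FreeGroup (FreeGroup X) := FreeGroup.lift fun x => FreeGroup.of (FreeGroup.of x)
  have hγι : ∀ v, γ (ι v) = v := by
    intro v
    have : γ.comp ι = MonoidHom.id _ := by
      ext x
      simp [γ, ι]
    exact DFunLike.congr_fun this v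
  let T : Finset (FreeGroup X) := {1}
  let W : Finset (FreeGroup (FreeGroup X)) := {ι w}
  refine ⟨pts T W, inferInstance, inferInstance, (FreeGroup.lift (gp (pts T W))).comp ι, ?_⟩
  intro h
  have h1 := ext_action T W 1 (Finset.mem_singleton_self _) (ι w) (Finset.mem_singleton_self _)
  have h2 : (FreeGroup.lift (gp (pts T W)) (ι w) : Equiv.Perm (pts T W)) = 1 := h
  rw [h2] at h1
  have h3 : γ (ι w) * 1 = 1 := h1.symm
  rw [hγι, mul_one] at h3
  exact hw h3

end sep

section lamp

variable (Q : Type) [Group Q]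

/-- The group of pairs (an element of the restricted wreath product `ℤ/2 ≀ Q`, an element of the
free group on `Q`) with the same image in `Q`. -/
def LP : Subgroup ((Equiv.Perm Bool ≀ᵣ Q) × FreeGroup Q) where
  carrier := {p | p.1.right = can Q p.2 ∧ {q | p.1.left q ≠ 1}.Finite}
  one_mem' := by
    refine ⟨?_, ?_⟩
    · show (1 : Q) = can Q 1
      rw [map_one]
    · convert Set.finite_empty (α := Q)
      ext q
      simp
  mul_mem' := by
    rintro p p' ⟨h1, h2⟩ ⟨h3, h4⟩
    refine ⟨?_, ?_⟩
    · show p.1.right * p'.1.right = can Q (p.2 * p'.2)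
      rw [h1, h3, map_mul]
    · have h5 : {q | p'.1.left (p.1.right⁻¹ * q) ≠ 1}.Finite := by
        have : {q | p'.1.left (p.1.right⁻¹ * q) ≠ 1} =
            (fun q => p.1.right * q) '' {q | p'.1.left q ≠ 1} := by
          ext q
          constructor
          · intro h
            exact ⟨p.1.right⁻¹ * q, h, by simp⟩
          · rintro ⟨r, hr, rfl⟩
            simpa using hr
        rw [this]
        exact h4.image _
      refine (h2.union h5).subset ?_
      intro q hq
      by_contra hcon
      rw [Set.mem_union, not_or] at hcon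
      apply hq
      have e1 : p.1.left q = 1 := not_not.1 hcon.1
      have e2 : p'.1.left (p.1.right⁻¹ * q) = 1 := not_not.1 hcon.2
      show p.1.left q * p'.1.left (p.1.right⁻¹ * q) = 1
      rw [e1, e2, mul_one]
  inv_mem' := by
    rintro p ⟨h1, h2⟩
    refine ⟨?_, ?_⟩
    · show p.1.right⁻¹ = can Q p.2⁻¹
      rw [h1, map_inv]
    · have : {q | (p.1⁻¹).left q ≠ 1} = (fun q => p.1.right⁻¹ * q) '' {q | p.1.left q ≠ 1} := by
        ext q
        constructor
        · intro h
          refine ⟨p.1.right * q, ?_, by simp⟩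
          intro h'
          apply h
          show (p.1.left (p.1.right * q))⁻¹ = 1
          rw [h', inv_one]
        · rintro ⟨r, hr, rfl⟩
          intro h'
          apply hr
          have h'' : (p.1.left (p.1.right * (p.1.right⁻¹ * r)))⁻¹ = 1 := h'
          rw [mul_inv_cancel_left, inv_eq_one] at h''
          exact h''
      show {q | (p.1⁻¹).left q ≠ 1}.Finite
      rw [this]
      exact h2.image _

variable {Q}

/-- the permutation of `X × Bool` given by lamps and a permutation of `X` -/
def lam {Y : Type} (a : Y → Equiv.Perm Bool) (σ : Equiv.Perm Y) : Equiv.Perm (Y × Bool) where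
  toFun p := (σ p.1, a (σ p.1) p.2)
  invFun p := (σ⁻¹ p.1, (a p.1)⁻¹ p.2)
  left_inv p := by
    ext <;> simp
  right_inv p := by
    ext <;> simp

theorem lam_mul {Y : Type} (a b : Y → Equiv.Perm Bool) (σ τ : Equiv.Perm Y) :
    lam a σ * lam b τ = lam (fun y => a y * b (σ⁻¹ y)) (σ * τ) := by
  ext p : 1
  show (σ (τ p.1), a (σ (τ p.1)) (b (τ p.1) p.2)) =
    (σ (τ p.1), (a (σ (τ p.1)) * b (σ⁻¹ (σ (τ p.1)))) p.2)
  have : σ⁻¹ (σ (τ p.1)) = τ p.1 := σ.symm_apply_apply _
  rw [this]
  rfl

theorem lp_lef : LEFs (LP Q) := by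
  classical
  intro A h1A g hgA hg
  by_cases hw : g.1.2 = 1
  · -- the lamps
    have hr : g.1.1.right = 1 := by
      rw [g.2.1, hw, map_one]
    obtain ⟨q, hq⟩ : ∃ q, g.1.1.left q ≠ 1 := by
      by_contra hcon
      push Not at hcon
      apply hg
      apply Subtype.ext
      refine Prod.ext ?_ hw
      refine RegularWreathProduct.ext ?_ hr
      funext q
      exact hcon q
    set T : Finset Q := A.biUnion fun p => p.2.2.toFinset with hT
    set W : Finset (FreeGroup Q) := A.image fun p => p.1.2 with hW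
    have hTm : ∀ p ∈ A, ∀ y, p.1.1.left y ≠ 1 → y ∈ T := by
      intro p hp y hy
      rw [hT, mem_biUnion]
      exact ⟨p, hp, by rw [Set.Finite.mem_toFinset]; exact hy⟩
    set σ : FreeGroup Q →* Equiv.Perm (pts T W) := FreeGroup.lift (gp (pts T W)) with hσ
    have hact : ∀ p ∈ A, ∀ x, ∀ hx : x ∈ T, ((σ p.1.2) ⟨x, pts_T hx⟩ : Q) = p.1.1.right * x := by
      intro p hp x hx
      rw [p.2.1]
      exact ext_action T W x hx p.1.2 (mem_image_of_mem _ hp)
    refine ⟨pts T W × Bool, inferInstance, inferInstance,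
      fun p => lam (fun y => p.1.1.left (y : Q)) (σ p.1.2), ?_, ?_, ?_⟩
    · show lam (fun y : pts T W => (1 : Equiv.Perm Bool)) (σ 1) = 1
      rw [map_one]
      ext p : 1
      rfl
    · intro a ha b hb _
      show lam (fun y : pts T W => (a.1.1.left (y : Q)) * (b.1.1.left (a.1.1.right⁻¹ * (y : Q))))
        (σ (a.1.2 * b.1.2)) = _
      rw [lam_mul, map_mul]
      congr 1
      funext y
      congr 1
      -- the translated lamps agree
      by_cases hy : b.1.1.left (a.1.1.right⁻¹ * (y : Q)) = 1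
      · rw [hy]
        by_contra hcon
        have hcon' : b.1.1.left ((σ a.1.2)⁻¹ y : pts T W) ≠ 1 := fun h => hcon h.symm
        have hx := hTm b hb _ hcon'
        have h3 := hact a ha _ hx
        have h4 : (⟨((σ a.1.2)⁻¹ y : pts T W), pts_T hx⟩ : pts T W) = (σ a.1.2)⁻¹ y := rfl
        have h5 : σ a.1.2 ((σ a.1.2)⁻¹ y) = y := (σ a.1.2).apply_symm_apply _
        rw [h4, h5] at h3
        rw [h3, inv_mul_cancel_left] at hy
        exact hcon' hy
      · have hx := hTm b hb _ hy
        have h3 := hact a ha _ hx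
        rw [mul_inv_cancel_left] at h3
        have h4 : (σ a.1.2)⁻¹ y = ⟨a.1.1.right⁻¹ * (y : Q), pts_T hx⟩ := by
          rw [Equiv.Perm.inv_eq_iff_eq]
          exact Subtype.ext h3.symm
        rw [h4]
    · intro h
      have hqT := hTm g hgA q hq
      apply hq
      ext i : 1
      have h5 := congrArg (fun e : Equiv.Perm (pts T W × Bool) => e (⟨q, pts_T hqT⟩, i)) h
      have h6 : (σ g.1.2 ⟨q, pts_T hqT⟩, g.1.1.left (σ g.1.2 ⟨q, pts_T hqT⟩ : pts T W) i) =
        ((⟨q, pts_T hqT⟩ : pts T W), i) := h5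
      rw [hw, map_one] at h6
      exact congrArg Prod.snd h6
  · obtain ⟨B, i1, i2, φ, hφ⟩ := free_sep' g.1.2 hw
    refine ⟨B, i1, i2, fun p => φ p.1.2, ?_, ?_, hφ⟩
    · show φ 1 = 1
      rw [map_one]
    · intro a _ b _ _
      show φ (a.1.2 * b.1.2) = _
      rw [map_mul]

/-- the embedding of the free group -/
def jF : FreeGroup Q →* LP Q where
  toFun w := ⟨(⟨1, can Q w⟩, w), rfl, by
    convert Set.finite_empty (α := Q)
    ext q
    simp⟩
  map_one' := by
    apply Subtype.ext
    refine Prod.ext ?_ rfl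
    refine RegularWreathProduct.ext rfl ?_
    show can Q 1 = 1
    rw [map_one]
  map_mul' a b := by
    apply Subtype.ext
    refine Prod.ext ?_ rfl
    refine RegularWreathProduct.ext ?_ ?_
    · funext q
      show (1 : Equiv.Perm Bool) = 1 * 1
      rw [mul_one]
    · show can Q (a * b) = can Q a * can Q b
      rw [map_mul]

theorem jF_inj : Function.Injective (jF (Q := Q)) := by
  intro a b h
  exact congrArg (fun p : LP Q => p.1.2) h

open Classical in
/-- the involution -/
def xF : LP Q := ⟨(⟨Pi.mulSingle 1 (Equiv.swap false true), 1⟩, 1), by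
  show (1 : Q) = can Q 1
  rw [map_one], by
  refine (Set.finite_singleton (1 : Q)).subset ?_
  intro q hq
  by_contra hcon
  apply hq
  exact Pi.mulSingle_eq_of_ne hcon _⟩

theorem xF_sq : xF (Q := Q) * xF = 1 := by
  classical
  apply Subtype.ext
  refine Prod.ext ?_ (mul_one _)
  refine RegularWreathProduct.ext ?_ (mul_one _)
  funext q
  show (Pi.mulSingle 1 (Equiv.swap false true) : Q → Equiv.Perm Bool) q *
    (Pi.mulSingle 1 (Equiv.swap false true) : Q → Equiv.Perm Bool) ((1 : Q)⁻¹ * q) = 1
  rw [inv_one, one_mul]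
  by_cases hq : q = 1
  · subst hq
    rw [Pi.mulSingle_eq_same, Equiv.swap_mul_self]
  · rw [Pi.mulSingle_eq_of_ne hq, mul_one]

theorem xF_comm (w : FreeGroup Q) : can Q w = 1 ↔ jF w * xF = xF * jF w := by
  classical
  have hl : ∀ q, (jF w * xF (Q := Q)).1.1.left q =
      (Pi.mulSingle 1 (Equiv.swap false true) : Q → Equiv.Perm Bool) ((can Q w)⁻¹ * q) := by
    intro q
    show (1 : Equiv.Perm Bool) * _ = _
    rw [one_mul]
    rfl
  have hr : ∀ q, (xF (Q := Q) * jF w).1.1.left q =
      (Pi.mulSingle 1 (Equiv.swap false true) : Q → Equiv.Perm Bool) q := by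
    intro q
    show _ * (1 : Equiv.Perm Bool) = _
    rw [mul_one]
    rfl
  constructor
  · intro h
    apply Subtype.ext
    refine Prod.ext ?_ ?_
    · refine RegularWreathProduct.ext ?_ ?_
      · funext q
        rw [hl, hr, h, inv_one, one_mul]
      · show can Q w * 1 = 1 * can Q w
        rw [mul_one, one_mul]
    · show w * 1 = 1 * w
      rw [mul_one, one_mul]
  · intro h
    by_contra hcon
    have h1 := hl (can Q w)
    rw [h, hr, inv_mul_cancel, Pi.mulSingle_eq_same, Pi.mulSingle_eq_of_ne hcon] at h1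
    have h2 := congrArg (fun e : Equiv.Perm Bool => e false) h1
    simp at h2

end lamp

end

end Pool.Agent.N303.KQ
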