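import Pool.Agent.N303.KQ.Hyp
import Pool.Agent.N303.KQ.Lamp
import Pool.Agent.H21R2.HCrit

/-!
# Corollaries
-/

set_option autoImplicit false

namespace Pool.Agent.N303.KQ

open Matrix Finset
open Pool.Agent.H21R2 (IsHyperlinear hsNorm N2 E2 wN hyperlinear_of_data RelativeHSCriterion
  hyperlinear_of_criterion criterion_of_hyperlinear fro2 N2_eq_fro2)
open Pool.Agent.W661.RC (HasT)

noncomputable section

/-! ### Property (T) -/

theorem HasT.equiv {G G' : Type} [Group G] [Group G'] (e : G ≃* G') (h : HasT G) : HasT G' := by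
  intro H _ _ _ π hπ
  obtain ⟨v, hv, hv'⟩ := h H (π.comp e.toMonoidHom) (by
    intro K ε hε
    classical
    obtain ⟨v, hv, hv'⟩ := hπ (K.image e) ε hε
    exact ⟨v, hv, fun g hg => hv' (e g) (mem_image_of_mem _ hg)⟩)
  refine ⟨v, hv, fun g => ?_⟩
  have := hv' (e.symm g)
  simpa using this

/-! ### Permanence -/

theorem hyp_of_sep {G : Type*} [Group G]
    (h : ∀ g : G, g ≠ 1 → ∃ (K : Type) (_ : Group K) (f : G →* K), IsHyperlinear K ∧ f g ≠ 1) :
    IsHyperlinear G := by
  classical
  apply hyperlinear_of_criterion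
  intro A h1A g hgA hg ε hε
  obtain ⟨K, _, f, hK, hf⟩ := h g hg
  obtain ⟨n, φ, T, hT, p1, p2, p3, p4⟩ := criterion_of_hyperlinear hK (A.image f)
    (mem_image.2 ⟨1, h1A, map_one f⟩) (f g) (mem_image_of_mem _ hgA) hf ε hε
  refine ⟨n, fun a => φ (f a), T, hT, by simp [p1], p2, ?_, ?_⟩
  · intro a ha
    exact p3 (f a) (mem_image_of_mem _ ha)
  · intro a ha b hb hab
    have := p4 (f a) (mem_image_of_mem _ ha) (f b) (mem_image_of_mem _ hb)
      (by rw [← map_mul]; exact mem_image_of_mem _ hab)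
    rw [← map_mul] at this
    exact this

theorem hyp_inj {G : Type*} [Group G] {K : Type} [Group K] (f : G →* K)
    (hf : Function.Injective f) (hK : IsHyperlinear K) : IsHyperlinear G :=
  hyp_of_sep fun g hg => ⟨K, inferInstance, f, hK, fun h => hg (hf (by rw [h, map_one]))⟩

theorem hyp_prod {G Q : Type} [Group G] [Group Q] (hG : IsHyperlinear G) (hQ : IsHyperlinear Q) :
    IsHyperlinear (G × Q) := by
  apply hyp_of_sep
  intro g hg
  by_cases h1 : g.1 = 1
  · refine ⟨Q, inferInstance, MonoidHom.snd G Q, hQ, fun h => hg ?_⟩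
    exact Prod.ext h1 h
  · exact ⟨G, inferInstance, MonoidHom.fst G Q, hG, h1⟩

section perm

variable {Y : Type} [Fintype Y] [DecidableEq Y]

/-- the permutation matrix as a unitary matrix -/
def pU (σ : Equiv.Perm Y) : unitaryGroup Y ℂ :=
  ⟨(σ⁻¹).toPEquiv.toMatrix, by
    rw [mem_unitaryGroup_iff']
    ext i j
    rw [star_eq_conjTranspose, mul_apply]
    simp only [conjTranspose_apply, PEquiv.toMatrix_apply, Equiv.toPEquiv_apply,
      Option.mem_def, Option.some.injEq]
    rw [Finset.sum_eq_single (σ i)]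
    · by_cases hij : i = j
      · subst hij
        simp
      · rw [Matrix.one_apply_ne hij]
        have : ¬ (σ⁻¹ (σ i) = j) := by
          rw [show σ⁻¹ (σ i) = i from σ.symm_apply_apply i]; exact hij
        rw [if_neg this, mul_zero]
    · intro b _ hb
      have : ¬ (σ⁻¹ b = i) := by
        intro h
        apply hb
        rw [← h]; exact (σ.apply_symm_apply b).symm
      rw [if_neg this, star_zero, zero_mul]
    · intro h; exact absurd (mem_univ _) h⟩

theorem pU_apply (σ : Equiv.Perm Y) (x y : Y) : (pU σ).1 x y = if x = σ y then 1 else 0 := by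
  show (σ⁻¹).toPEquiv.toMatrix x y = _
  simp only [PEquiv.toMatrix_apply, Equiv.toPEquiv_apply, Option.mem_def, Option.some.injEq]
  by_cases h : x = σ y
  · rw [if_pos h, if_pos]
    rw [h]; exact σ.symm_apply_apply y
  · rw [if_neg h, if_neg]
    intro h'
    apply h
    rw [← h']; exact (σ.apply_symm_apply x).symm

theorem pU_one : pU (1 : Equiv.Perm Y) = 1 := by
  apply Subtype.ext
  ext x y
  rw [pU_apply]
  show _ = (1 : Matrix Y Y ℂ) x y
  rw [Matrix.one_apply]
  rfl

theorem pU_mul (σ τ : Equiv.Perm Y) : pU (σ * τ) = pU σ * pU τ := by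
  apply Subtype.ext
  ext x y
  rw [pU_apply]
  show _ = ((pU σ).1 * (pU τ).1) x y
  rw [mul_apply, Finset.sum_eq_single (τ y)]
  · rw [pU_apply, pU_apply, if_pos rfl, mul_one]
    rfl
  · intro b _ hb
    rw [pU_apply, pU_apply, if_neg hb, mul_zero]
  · intro h; exact absurd (mem_univ _) h

theorem pU_disp {σ : Equiv.Perm Y} (h : σ ≠ 1) : 0 < N2 ((pU σ).1 - 1) (fun _ => 1) := by
  obtain ⟨y, hy⟩ : ∃ y, σ y ≠ y := by
    by_contra hcon
    push Not at hcon
    exact h (Equiv.ext hcon)
  have h1 : ((pU σ).1 - 1) y y = -1 := by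
    rw [Matrix.sub_apply, pU_apply, if_neg (fun h => hy h.symm), Matrix.one_apply_eq]
    norm_num
  rw [N2, wN]
  have h2 : ∀ x, 0 ≤ ∑ z, ‖((pU σ).1 - 1) x z‖ ^ 2 * (1 : ℝ) ^ 2 := fun x =>
    sum_nonneg fun _ _ => by positivity
  refine lt_of_lt_of_le ?_ (single_le_sum (fun x _ => h2 x) (mem_univ y))
  refine lt_of_lt_of_le ?_ (single_le_sum (f := fun z => ‖((pU σ).1 - 1) y z‖ ^ 2 * (1 : ℝ) ^ 2)
    (fun z _ => by positivity) (mem_univ y))
  rw [h1]
  norm_num

end perm

theorem hyp_of_lef {G : Type*} [Group G] (h : LEFs G) : IsHyperlinear G := by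
  apply hyperlinear_of_data
  intro A h1A g hgA hg ε hε
  obtain ⟨Y, i1, i2, φ, p1, p2, p3⟩ := h A h1A g hgA hg
  refine ⟨Y, i1, i2, fun a => pU (φ a), fun _ => 1, ?_, pU_disp p3, ?_, ?_⟩
  · show pU (φ 1) = 1
    rw [p1, pU_one]
  · intro a _
    rw [E2]
    simp only [sub_self, ne_eq, OfNat.ofNat_ne_zero, not_false_eq_true, zero_pow, mul_zero,
      sum_const_zero]
    exact mul_nonneg hε.le (pU_disp p3).le
  · intro a ha b hb hab
    have : (pU (φ (a * b))).1 - (pU (φ a)).1 * (pU (φ b)).1 = 0 := by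
      rw [p2 a ha b hb hab, pU_mul]
      exact sub_self _
    show N2 ((pU (φ (a * b))).1 - (pU (φ a)).1 * (pU (φ b)).1) _ ≤ _
    rw [this, N2, wN]
    simp only [Matrix.zero_apply, norm_zero, ne_eq, OfNat.ofNat_ne_zero, not_false_eq_true,
      zero_pow, zero_mul, sum_const_zero]
    exact mul_nonneg hε.le (pU_disp p3).le

/-! ### Wreath products with finite groups -/

section wreath

variable {D K : Type} [Group D] [Group K] [Fintype K] [DecidableEq K]

/-- block diagonal unitary -/
def bU {n : ℕ} (U : K → unitaryGroup (Fin n) ℂ) : unitaryGroup (Fin n × K) ℂ :=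
  ⟨blockDiagonal fun k => (U k).1, by
    rw [mem_unitaryGroup_iff', star_eq_conjTranspose, blockDiagonal_conjTranspose,
      ← blockDiagonal_mul]
    rw [show (fun k => ((U k).1)ᴴ * (U k).1) = 1 from funext fun k => by
      have := (mem_unitaryGroup_iff'.1 (U k).2)
      rw [star_eq_conjTranspose] at this
      exact this]
    exact blockDiagonal_one⟩

/-- translation -/
def tK (n : ℕ) (k : K) : Equiv.Perm (Fin n × K) where
  toFun p := (p.1, k * p.2)
  invFun p := (p.1, k⁻¹ * p.2)
  left_inv p := by simp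
  right_inv p := by simp

theorem tK_mul (n : ℕ) (k l : K) : tK n (k * l) = tK n k * tK n l := by
  ext p : 1
  show (p.1, k * l * p.2) = (p.1, k * (l * p.2))
  rw [mul_assoc]

theorem bU_tK {n : ℕ} (U : K → unitaryGroup (Fin n) ℂ) (k : K) :
    (pU (tK n k)).1 * (bU U).1 = (bU fun x => U (k⁻¹ * x)).1 * (pU (tK n k)).1 := by
  ext p q
  rw [mul_apply, mul_apply, Finset.sum_eq_single ((tK n k)⁻¹ p),
    Finset.sum_eq_single (tK n k q)]
  · rw [pU_apply, pU_apply, if_pos rfl, if_pos, one_mul, mul_one]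
    · show blockDiagonal (fun k => (U k).1) (p.1, k⁻¹ * p.2) q =
        blockDiagonal (fun x => (U (k⁻¹ * x)).1) p (q.1, k * q.2)
      rw [blockDiagonal_apply, blockDiagonal_apply]
      show (if k⁻¹ * p.2 = q.2 then (U (k⁻¹ * p.2)).1 p.1 q.1 else 0) =
        if p.2 = k * q.2 then (U (k⁻¹ * p.2)).1 p.1 q.1 else 0
      by_cases h : p.2 = k * q.2
      · rw [if_pos h, if_pos (by rw [h, inv_mul_cancel_left])]
      · rw [if_neg h, if_neg]
        intro h'
        apply h
        rw [← h', mul_inv_cancel_left]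
    · exact ((tK n k).apply_symm_apply p).symm
  · intro b _ hb
    rw [pU_apply, if_neg hb, mul_zero]
  · intro h; exact absurd (mem_univ _) h
  · intro b _ hb
    rw [pU_apply, if_neg, zero_mul]
    intro h
    apply hb
    rw [h]; exact ((tK n k).symm_apply_apply b).symm
  · intro h; exact absurd (mem_univ _) h

theorem N2_one {Y : Type} [Fintype Y] [DecidableEq Y] (M : Matrix Y Y ℂ) :
    N2 M (fun _ => 1) = fro2 M := by
  rw [N2, wN, fro2]
  simp

theorem fro2_bd {n : ℕ} (M : K → Matrix (Fin n) (Fin n) ℂ) :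
    fro2 (blockDiagonal M) = ∑ k, fro2 (M k) := by
  have h1 : ∀ k, fro2 (M k) = ∑ i, ∑ j, ‖M k i j‖ ^ 2 := fun k => rfl
  have h2 : fro2 (blockDiagonal M) =
      ∑ p : Fin n × K, ∑ q : Fin n × K, ‖blockDiagonal M p q‖ ^ 2 := rfl
  rw [h2, Fintype.sum_prod_type, sum_comm]
  refine sum_congr rfl fun k _ => ?_
  rw [h1]
  refine sum_congr rfl fun i _ => ?_
  rw [Fintype.sum_prod_type]
  refine sum_congr rfl fun j _ => ?_
  rw [Finset.sum_eq_single k]
  · rw [blockDiagonal_apply, if_pos rfl]
  · intro b _ hb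
    rw [blockDiagonal_apply, if_neg (fun h => hb h.symm), norm_zero]
    norm_num
  · intro h; exact absurd (mem_univ _) h

theorem fro2_lt {n : ℕ} (hn : 1 ≤ n) {M : Matrix (Fin n) (Fin n) ℂ} {δ : ℝ}
    (h : hsNorm M < δ) : fro2 M ≤ n * δ ^ 2 := by
  have hn0 : (0 : ℝ) < n := by exact_mod_cast hn
  rw [Pool.Agent.H21R2.hsNorm_eq] at h
  have hδ : 0 < δ := lt_of_le_of_lt (Real.sqrt_nonneg _) h
  rw [Real.sqrt_lt' hδ, div_lt_iff₀ hn0] at h
  linarith

theorem le_fro2 {n : ℕ} (hn : 1 ≤ n) {M : Matrix (Fin n) (Fin n) ℂ}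
    (h : 1 ≤ hsNorm M) : n ≤ fro2 M := by
  have hn0 : (0 : ℝ) < n := by exact_mod_cast hn
  rw [Pool.Agent.H21R2.hsNorm_eq, Real.one_le_sqrt, le_div_iff₀ hn0] at h
  linarith

theorem fro2_diag_le {Y : Type} [Fintype Y] [DecidableEq Y] (M : Matrix Y Y ℂ) :
    ∑ y, ‖M y y‖ ^ 2 ≤ fro2 M := by
  rw [fro2]
  exact sum_le_sum fun y _ => single_le_sum (f := fun z => ‖M y z‖ ^ 2)
    (fun z _ => by positivity) (mem_univ y)

/-- wreath products of hyperlinear groups with finite groups are hyperlinear -/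
theorem hyp_wreath (h : IsHyperlinear D) : IsHyperlinear (D ≀ᵣ K) := by
  classical
  apply hyperlinear_of_data
  intro A h1A g hgA hg ε hε
  set k : ℝ := (Fintype.card K : ℝ) with hk
  have hk0 : 0 < k := by
    rw [hk]; exact_mod_cast Fintype.card_pos
  set A' : Finset D := insert 1 (A.biUnion fun w => univ.image w.left) with hA'
  have hmem : ∀ w ∈ A, ∀ x, w.left x ∈ A' := by
    intro w hw x
    rw [hA']
    exact mem_insert_of_mem (mem_biUnion.2 ⟨w, hw, mem_image_of_mem _ (mem_univ x)⟩)
  obtain ⟨n, hn, φ, p1, p2, p3⟩ := h A' (mem_insert_self _ _) (Real.sqrt (ε / k)) (by positivity)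
  have hn0 : (0 : ℝ) < n := by exact_mod_cast hn
  set ψ : D ≀ᵣ K → unitaryGroup (Fin n × K) ℂ :=
    fun w => bU (fun x => φ (w.left x)) * pU (tK n w.right) with hψ
  have hlow : n ≤ N2 ((ψ g).1 - 1) (fun _ => 1) := by
    rw [N2_one]
    by_cases hr : g.right = 1
    · obtain ⟨x, hx⟩ : ∃ x, g.left x ≠ 1 := by
        by_contra hcon
        push Not at hcon
        apply hg
        exact RegularWreathProduct.ext (funext hcon) hr
      have h1 : (ψ g).1 - 1 = blockDiagonal (fun x => (φ (g.left x)).1 - 1) := by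
        have h2 : pU (tK n g.right) = 1 := by
          rw [hr]
          rw [← pU_one]
          congr 1
          ext p : 1
          show (p.1, (1 : K) * p.2) = p
          rw [one_mul]
        have h3 : (ψ g).1 = blockDiagonal (fun x => (φ (g.left x)).1) := by
          rw [hψ]
          simp only
          rw [h2, mul_one]
          rfl
        rw [h3, ← blockDiagonal_one, ← blockDiagonal_sub]
        rfl
      rw [h1, fro2_bd]
      refine le_trans (le_fro2 hn (p3 _ (hmem g hgA x) hx)) ?_
      exact single_le_sum (f := fun x => fro2 ((φ (g.left x)).1 - 1))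
        (fun x _ => Pool.Agent.H21R2.fro2_nonneg _) (mem_univ x)
    · refine le_trans ?_ (fro2_diag_le _)
      have h1 : ∀ p : Fin n × K, ((ψ g).1 - 1) p p = -1 := by
        intro p
        have h2 : (ψ g).1 p p = 0 := by
          show ((bU fun x => φ (g.left x)).1 * (pU (tK n g.right)).1) p p = 0
          rw [mul_apply]
          refine sum_eq_zero fun q _ => ?_
          rw [pU_apply]
          by_cases hq : q = tK n g.right p
          · have h3 : (bU fun x => φ (g.left x)).1 p q = 0 := by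
              show blockDiagonal (fun x => (φ (g.left x)).1) p q = 0
              rw [blockDiagonal_apply, if_neg]
              rw [hq]
              show ¬ (p.2 = g.right * p.2)
              intro h
              exact hr (mul_eq_right.1 h.symm)
            rw [h3, zero_mul]
          · rw [if_neg hq, mul_zero]
        rw [Matrix.sub_apply, h2, Matrix.one_apply_eq, zero_sub]
      simp only [h1, norm_neg, norm_one, one_pow, sum_const, card_univ, nsmul_eq_mul, mul_one,
        Fintype.card_prod, Fintype.card_fin]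
      push_cast
      have hk1 : (1 : ℝ) ≤ (Fintype.card K : ℝ) := by exact_mod_cast Fintype.card_pos
      nlinarith
  have hpos : 0 < N2 ((ψ g).1 - 1) (fun _ => 1) := lt_of_lt_of_le hn0 hlow
  refine ⟨Fin n × K, inferInstance, inferInstance, ψ, fun _ => 1, ?_, hpos, ?_, ?_⟩
  · apply Subtype.ext
    show (bU fun x => φ ((1 : D ≀ᵣ K).left x)).1 * (pU (tK n (1 : K))).1 = 1
    have h1 : (pU (tK n (1 : K))) = 1 := by
      rw [← pU_one]
      congr 1
      ext p : 1
      show (p.1, (1 : K) * p.2) = p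
      rw [one_mul]
    rw [h1]
    show (bU fun x => φ ((1 : D ≀ᵣ K).left x)).1 * 1 = 1
    rw [mul_one]
    show blockDiagonal (fun x : K => (φ 1).1) = 1
    rw [p1]
    exact blockDiagonal_one
  · intro a _
    rw [E2]
    simp only [sub_self, ne_eq, OfNat.ofNat_ne_zero, not_false_eq_true, zero_pow, mul_zero,
      sum_const_zero]
    exact mul_nonneg hε.le hpos.le
  · intro a ha b hb hab
    have h1 : (ψ (a * b)).1 - (ψ a).1 * (ψ b).1 =
        blockDiagonal (fun x => (φ (a.left x * b.left (a.right⁻¹ * x))).1 -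
          (φ (a.left x)).1 * (φ (b.left (a.right⁻¹ * x))).1) *
          (pU (tK n (a.right * b.right))).1 := by
      have h2 : (ψ (a * b)).1 = blockDiagonal (fun x => (φ (a.left x * b.left (a.right⁻¹ * x))).1) *
          (pU (tK n (a.right * b.right))).1 := rfl
      have h3 : (ψ a).1 * (ψ b).1 = (bU fun x => φ (a.left x)).1 *
          ((pU (tK n a.right)).1 * (bU fun x => φ (b.left x)).1) * (pU (tK n b.right)).1 := by
        show (bU fun x => φ (a.left x)).1 * (pU (tK n a.right)).1 *
          ((bU fun x => φ (b.left x)).1 * (pU (tK n b.right)).1) = _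
        noncomm_ring
      have h4 : (pU (tK n (a.right * b.right))).1 =
          (pU (tK n a.right)).1 * (pU (tK n b.right)).1 := by
        rw [tK_mul, pU_mul]; rfl
      rw [h2, h3, bU_tK, h4]
      have h5 : blockDiagonal (fun x => (φ (a.left x * b.left (a.right⁻¹ * x))).1 -
          (φ (a.left x)).1 * (φ (b.left (a.right⁻¹ * x))).1) =
          blockDiagonal (fun x => (φ (a.left x * b.left (a.right⁻¹ * x))).1) -
          (bU fun x => φ (a.left x)).1 * (bU fun x => φ (b.left (a.right⁻¹ * x))).1 := by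
        show _ = _ - blockDiagonal (fun x => (φ (a.left x)).1) *
          blockDiagonal (fun x => (φ (b.left (a.right⁻¹ * x))).1)
        rw [← blockDiagonal_mul, ← blockDiagonal_sub]
        rfl
      rw [h5]
      noncomm_ring
    rw [h1, N2_one, Pool.Agent.H21R2.fro2_mul_unitary, fro2_bd]
    have h6 : ∀ x, fro2 ((φ (a.left x * b.left (a.right⁻¹ * x))).1 -
          (φ (a.left x)).1 * (φ (b.left (a.right⁻¹ * x))).1) ≤ n * (Real.sqrt (ε / k)) ^ 2 := by
      intro x
      exact fro2_lt hn (p2 _ (hmem a ha x) _ (hmem b hb _) (hmem (a * b) hab x))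
    refine le_trans (sum_le_sum fun x _ => h6 x) ?_
    rw [Real.sq_sqrt (by positivity), sum_const, card_univ, nsmul_eq_mul, ← hk]
    have h7 : k * (n * (ε / k)) = ε * n := by field_simp
    rw [h7]
    exact mul_le_mul_of_nonneg_left hlow hε.le

end wreath

end

end Pool.Agent.N303.KQ
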