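import Pool.Agent.N303.KQ.Wt

/-!
# The finite core: from near-automorphisms of a block algebra to unitary matrices
-/

set_option autoImplicit false

namespace Pool.Agent.N303.KQ

open Matrix Finset
open scoped ComplexOrder
open Pool.Agent.W661.RC Pool.Agent.W683.RC

noncomputable section

variable {d : ℕ} {O : Out d}

theorem Fd_conj : (Fd O)ᴴ = Fd O := by
  rw [Fd, diagonal_conjTranspose]
  congr 1
  funext y
  simp

/-- estimates for one unitary matrix -/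
theorem one_unitary {V : Mt d} (hV : Vᴴ * V = 1) {ε : ℝ} (h1 : NearInv O V ε)
    (h2 : NearInv O Vᴴ ε) {u : Matrix (Yx O) (Yx O) ℂ}
    (hu : ∀ X : Matrix (Yx O) (Yx O) ℂ,
      hs ((TT O V - u) * X) ≤ hs X - hs (TT O V * X) ∧
      hs ((TT O V - u)ᴴ * X) ≤ hs X - hs ((TT O V)ᴴ * X)) :
    hs ((TT O V - u) * Fd O) ≤ ε * d ∧ hs ((TT O V - u)ᴴ * Fd O) ≤ ε * d ∧
      hs (TT O V * Fd O - Fd O * TT O V) ≤ 2 * (ε * d) ∧
      hs (u * Fd O - Fd O * u) ≤ 12 * (ε * d) := by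
  have a1 := W2_TT_ge hV h1
  have a2 := W2_TT_ge (unit_conj hV) h2
  rw [W2_eq] at a1 a2
  have e2 : TT O Vᴴ = (TT O V)ᴴ := (TV_conjTranspose V).symm
  rw [e2] at a2
  have b1 := (hu (Fd O)).1
  have b2 := (hu (Fd O)).2
  rw [hs_Fd] at b1 b2
  have b3 := comm_le (O := O) hV
  have c1 : hs ((TT O V - u) * Fd O) ≤ ε * d := by linarith
  have c2 : hs ((TT O V - u)ᴴ * Fd O) ≤ ε * d := by linarith
  have c3 : hs (TT O V * Fd O - Fd O * TT O V) ≤ 2 * (ε * d) := by linarith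
  refine ⟨c1, c2, c3, ?_⟩
  have e3 : u * Fd O - Fd O * u = -((TT O V - u) * Fd O) + (TT O V * Fd O - Fd O * TT O V) +
      Fd O * (TT O V - u) := by
    rw [Matrix.sub_mul, Matrix.mul_sub]; abel
  have e4 : hs (Fd O * (TT O V - u)) = hs ((TT O V - u)ᴴ * Fd O) := by
    rw [← Pool.Agent.W683.RC.hs_conjTranspose, Matrix.conjTranspose_mul, Fd_conj]
  rw [e3]
  refine (hs_add3_le _ _ _).trans ?_
  rw [hs_neg, e4]
  linarith

theorem hs_add4_le {m n : Type} [Fintype m] [Fintype n] (x y z w : Matrix m n ℂ) :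
    hs (x + y + z + w) ≤ 4 * (hs x + hs y + hs z + hs w) := by
  have h1 := Pool.Agent.W683.RC.hs_add_le (x + y) (z + w)
  have h2 := Pool.Agent.W683.RC.hs_add_le x y
  have h3 := Pool.Agent.W683.RC.hs_add_le z w
  rw [← add_assoc] at h1
  linarith

/-- the product of two compressions -/
theorem TT_mul_le {Va Vb Vc : Mt d} (ha : Vaᴴ * Va = 1) {ε : ℝ}
    (h1 : NearInv O Vb ε)
    (h2 : ∀ x ∈ O.alg, Le (xᴴ * x) 1 →
      hs (Vc * x * Vcᴴ - Va * (Vb * x * Vbᴴ) * Vaᴴ) ≤ ε * d) :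
    hs ((TT O Vc - TT O Va * TT O Vb) * Fd O) ≤ 4 * (ε * d) := by
  rw [← W2_eq]
  refine W2_le _ _ fun ω => ?_
  have e1 : (TT O Vc - TT O Va * TT O Vb) *ᵥ xv O ω =
      kp (Jb O) ((Vc * vv O ω * Vcᴴ - Va * (Vb * vv O ω * Vbᴴ) * Vaᴴ) +
        Va * (Vb * vv O ω * Vbᴴ - JJ (Jb O) (kp (Jb O) (Vb * vv O ω * Vbᴴ))) * Vaᴴ) := by
    rw [sub_mulVec, ← mulVec_mulVec, TT_xv, TT_xv, TV_mulVec, ← kp_sub]
    congr 1
    rw [Matrix.mul_sub, Matrix.sub_mul]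
    abel
  rw [e1]
  refine (nsq_kp_le onf_Jb _).trans ((Pool.Agent.W683.RC.hs_add_le _ _).trans ?_)
  rw [hs_mul_unit (unit_conj ha), hs_unit_mul ha]
  obtain ⟨b, hb1, hb2⟩ := h1 (vv O ω) (vv_mem ω) (vv_contr ω)
  have h3 := hs_sub_kp_le (x := Vb * vv O ω * Vbᴴ) hb1
  have h4 := h2 (vv O ω) (vv_mem ω) (vv_contr ω)
  linarith

/-- the matrix of the linear map `x ↦ V x V* - x` on the block algebra -/
def XV (O : Out d) (V : Mt d) : Matrix (Fin d × Fin d) (Yx O) ℂ :=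
  fun p y => (V * Jb O y * Vᴴ - Jb O y) p.1 p.2

/-- right multiplication by `z` -/
def Rz (O : Out d) (z : Mt d) : Matrix (Yx O) (Yx O) ℂ := fun y' y => ip (Jb O y') (Jb O y * z)

theorem XV_mulVec (V : Mt d) (ξ : Yx O → ℂ) :
    nsq (XV O V *ᵥ ξ) = hs (V * JJ (Jb O) ξ * Vᴴ - JJ (Jb O) ξ) := by
  have h1 : ∀ p, (XV O V *ᵥ ξ) p = (V * JJ (Jb O) ξ * Vᴴ - JJ (Jb O) ξ) p.1 p.2 := by
    intro p
    rw [mulVec, dotProduct, JJ, Matrix.mul_sum, Matrix.sum_mul, ← sum_sub_distrib,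
      Matrix.sum_apply]
    refine sum_congr rfl fun y _ => ?_
    rw [XV, Matrix.mul_smul, Matrix.smul_mul, ← smul_sub, Matrix.smul_apply, smul_eq_mul, mul_comm]
  rw [nsq, hs, Fintype.sum_prod_type]
  refine sum_congr rfl fun i _ => sum_congr rfl fun j _ => ?_
  rw [h1]

theorem Rz_mulVec (z : Mt d) (ξ : Yx O → ℂ) : Rz O z *ᵥ ξ = kp (Jb O) (JJ (Jb O) ξ * z) := by
  funext y'
  simp only [mulVec, dotProduct, Rz, kp, JJ, Matrix.sum_mul, ip_sum_right]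
  refine sum_congr rfl fun y _ => ?_
  rw [Matrix.smul_mul, ip_smul_right, mul_comm]

theorem JJ_Rz {z : Mt d} (hz : z ∈ O.alg) (ξ : Yx O → ℂ) :
    JJ (Jb O) (Rz O z *ᵥ ξ) = JJ (Jb O) ξ * z := by
  rw [Rz_mulVec, JJ_kp_alg (alg_mul (JJ_mem ξ) hz)]

theorem Rz_contr {z : Mt d} (hz : Le (zᴴ * z) 1) : Le ((Rz O z)ᴴ * Rz O z) 1 := by
  refine contr_of_nsq _ fun ξ => ?_
  rw [Rz_mulVec]
  refine (nsq_kp_le onf_Jb _).trans ((hs_mul_le_right hz _).trans ?_)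
  rw [hs_JJ onf_Jb]

theorem Rz_comm (z : Mt d) : Rz O z * Fd O = Fd O * Rz O z := by
  ext y' y
  rw [Fd, mul_diagonal, diagonal_mul]
  by_cases h : y.1.1 = y'.1.1
  · have h1 : fw O y = fw O y' := by rw [fw, fw, h]
    rw [h1, mul_comm]
  · have h1 : Rz O z y' y = 0 := by
      rw [Rz, ip]
      have h2 : (Jb O y')ᴴ * (Jb O y * z) = 0 := by
        have h3 := congrArg Matrix.conjTranspose (pr_mul_Jb y')
        rw [Matrix.conjTranspose_mul, (pr_isPr y'.1.1).1] at h3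
        rw [← h3]
        calc (Jb O y')ᴴ * pr O y'.1.1 * (Jb O y * z)
            = (Jb O y')ᴴ * (pr O y'.1.1 * Jb O y) * z := by simp only [Matrix.mul_assoc]
          _ = 0 := by rw [pr_mul_Jb_ne _ _ h]; simp
      rw [h2, Matrix.trace_zero]
    rw [h1]; simp

/-- lower bound for the displacement -/
theorem displ {V : Mt d} (hV : Vᴴ * V = 1) {ε c : ℝ} (h1 : NearInv O V ε) {z : Mt d}
    (hz : z ∈ O.alg) (hz1 : Le (zᴴ * z) 1) (hz2 : c * d ≤ hs (V * z * Vᴴ - z))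
    (h4 : (d : ℝ) - D0 O ≤ ε * d) :
    (c / 4 - 5 / 4 * ε) * d ≤ hs ((TT O V - 1) * Fd O) := by
  have hA : hs (XV O V * Fd O) - ε * d ≤ hs ((TT O V - 1) * Fd O) := by
    rw [← W2_eq, ← W2_eq]
    have h2 := sum_nsq' (O := O) (XV O V)
    have h3 := sum_nsq' (O := O) (TT O V - 1)
    have h5 : ∀ ω : Om O, nsq (XV O V *ᵥ xv O ω) - ε * d ≤ nsq ((TT O V - 1) *ᵥ xv O ω) := by
      intro ω
      rw [XV_mulVec, sub_mulVec, one_mulVec, TT_xv, JJ_xv]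
      have e1 : xv O ω = kp (Jb O) (vv O ω) := by
        rw [← JJ_xv, kp_JJ onf_Jb]
      rw [e1, ← kp_sub]
      have h6 := hs_eq_kp (onf_Jb (O := O)) (V * vv O ω * Vᴴ - vv O ω)
      obtain ⟨b, hb1, hb2⟩ := h1 (vv O ω) (vv_mem ω) (vv_contr ω)
      have h8 := hs_sub_kp_le (x := V * vv O ω * Vᴴ) hb1
      have e2 : V * vv O ω * Vᴴ - vv O ω - JJ (Jb O) (kp (Jb O) (V * vv O ω * Vᴴ - vv O ω)) =
          V * vv O ω * Vᴴ - JJ (Jb O) (kp (Jb O) (V * vv O ω * Vᴴ)) := by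
        rw [kp_sub, JJ_sub, JJ_kp_alg (vv_mem ω)]
        abel
      rw [e2] at h6
      linarith
    have h6 : ∑ ω : Om O, (nsq (XV O V *ᵥ xv O ω) - ε * d) ≤
        ∑ ω : Om O, nsq ((TT O V - 1) *ᵥ xv O ω) := sum_le_sum fun ω _ => h5 ω
    rw [sum_sub_distrib, h2, h3, sum_const, card_univ, nsmul_eq_mul, ← mul_sub] at h6
    exact le_of_mul_le_mul_left h6 card_Om_pos
  have hB : hs (XV O V * Rz O z * Fd O) ≤ hs (XV O V * Fd O) := by
    rw [Matrix.mul_assoc, Rz_comm, ← Matrix.mul_assoc]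
    exact hs_mul_le_right (Rz_contr hz1) _
  have hC : (c - ε) * d ≤ 2 * hs (XV O V * Rz O z * Fd O) + 2 * hs (XV O V * Fd O) := by
    rw [← W2_eq, ← W2_eq]
    have h2 := sum_nsq' (O := O) (XV O V)
    have h3 := sum_nsq' (O := O) (XV O V * Rz O z)
    have h5 : ∀ ω : Om O, (c - ε) * d ≤ 2 * nsq ((XV O V * Rz O z) *ᵥ xv O ω) +
        2 * nsq (XV O V *ᵥ xv O ω) := by
      intro ω
      rw [← mulVec_mulVec, XV_mulVec, XV_mulVec, JJ_Rz hz, JJ_xv]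
      have e1 : vv O ω * (V * z * Vᴴ - z) = (V * (vv O ω * z) * Vᴴ - vv O ω * z) -
          (V * vv O ω * Vᴴ - vv O ω) * (V * z * Vᴴ) := by
        have e2 : V * vv O ω * Vᴴ * (V * z * Vᴴ) = V * (vv O ω * z) * Vᴴ := by
          calc V * vv O ω * Vᴴ * (V * z * Vᴴ) = V * vv O ω * (Vᴴ * V) * z * Vᴴ := by
                simp only [Matrix.mul_assoc]
            _ = _ := by rw [hV, Matrix.mul_one]; simp only [Matrix.mul_assoc]
        rw [Matrix.sub_mul, e2, Matrix.mul_sub]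
        abel
      have hVz : Le ((V * z * Vᴴ)ᴴ * (V * z * Vᴴ)) 1 := by
        have e3 : (V * z * Vᴴ)ᴴ * (V * z * Vᴴ) = V * (zᴴ * z) * Vᴴ := by
          rw [Matrix.conjTranspose_mul, Matrix.conjTranspose_mul, Matrix.conjTranspose_conjTranspose]
          calc V * (zᴴ * Vᴴ) * (V * z * Vᴴ) = V * zᴴ * (Vᴴ * V) * z * Vᴴ := by
                simp only [Matrix.mul_assoc]
            _ = _ := by rw [hV, Matrix.mul_one]; simp only [Matrix.mul_assoc]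
        rw [e3]
        have h6 := Le_conj' hz1 V
        rw [Matrix.mul_one, unit_symm hV] at h6
        exact h6
      have h6 := Pool.Agent.W683.RC.hs_sub_le (V * (vv O ω * z) * Vᴴ - vv O ω * z)
        ((V * vv O ω * Vᴴ - vv O ω) * (V * z * Vᴴ))
      rw [← e1] at h6
      have h7 := hs_mul_le_right hVz (V * vv O ω * Vᴴ - vv O ω)
      have h8 : hs (vv O ω * (V * z * Vᴴ - z)) = hs (pO O * (V * z * Vᴴ - z)) := by
        rw [hs_eq_tr, hs_eq_tr, Matrix.conjTranspose_mul, Matrix.conjTranspose_mul, pO_pr.1]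
        congr 1
        calc (V * z * Vᴴ - z)ᴴ * (vv O ω)ᴴ * (vv O ω * (V * z * Vᴴ - z))
            = (V * z * Vᴴ - z)ᴴ * ((vv O ω)ᴴ * vv O ω) * (V * z * Vᴴ - z) := by
              simp only [Matrix.mul_assoc]
          _ = (V * z * Vᴴ - z)ᴴ * (pO O * pO O) * (V * z * Vᴴ - z) := by
              rw [vv_conj_mul, pO_pr.2]
          _ = _ := by simp only [Matrix.mul_assoc]
      have h9 := hs_pyth_left (pO_pr (O := O)) (V * z * Vᴴ - z)
      have h10 : (1 - pO O) * (V * z * Vᴴ - z) = (1 - pO O) * (V * z * Vᴴ) := by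
        rw [Matrix.mul_sub, Matrix.sub_mul 1 (pO O) z, Matrix.one_mul, pO_mul_alg hz, sub_self,
          sub_zero]
      have h11 := hs_mul_le_right hVz (1 - pO O)
      rw [h10] at h9
      rw [hs_compl] at h11
      linarith
    have h6 : ∑ ω : Om O, (c - ε) * d ≤ ∑ ω : Om O, (2 * nsq ((XV O V * Rz O z) *ᵥ xv O ω) +
        2 * nsq (XV O V *ᵥ xv O ω)) := sum_le_sum fun ω _ => h5 ω
    have e5 : ∑ ω : Om O, (2 * nsq ((XV O V * Rz O z) *ᵥ xv O ω) +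
        2 * nsq (XV O V *ᵥ xv O ω)) = 2 * ∑ ω : Om O, nsq ((XV O V * Rz O z) *ᵥ xv O ω) +
        2 * ∑ ω : Om O, nsq (XV O V *ᵥ xv O ω) := by
      rw [sum_add_distrib, mul_sum, mul_sum]
    rw [e5, h2, h3, sum_const, card_univ, nsmul_eq_mul] at h6
    have h7 : (Fintype.card (Om O) : ℝ) * ((c - ε) * d) ≤ (Fintype.card (Om O) : ℝ) *
        (2 * W2 O (XV O V * Rz O z) + 2 * W2 O (XV O V)) := by linarith
    exact le_of_mul_le_mul_left h7 card_Om_pos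
  linarith

/-- **The finite core.** -/
theorem core {Q : Type*} [Group Q] (A : Finset Q) (V : Q → Mt d) (hV : ∀ q, (V q)ᴴ * V q = 1)
    (hV1 : V 1 = 1) {ε c : ℝ}
    (h1 : ∀ a ∈ A, NearInv O (V a) ε ∧ NearInv O (V a)ᴴ ε)
    (h2 : ∀ a ∈ A, ∀ b ∈ A, a * b ∈ A → ∀ x ∈ O.alg, Le (xᴴ * x) 1 →
      hs (V (a * b) * x * (V (a * b))ᴴ - V a * (V b * x * (V b)ᴴ) * (V a)ᴴ) ≤ ε * d)
    {g : Q} (hg : g ∈ A) {z : Mt d} (hz : z ∈ O.alg) (hz1 : Le (zᴴ * z) 1)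
    (hz2 : c * d ≤ hs (V g * z * (V g)ᴴ - z)) (h4 : (d : ℝ) - D0 O ≤ ε * d) :
    ∃ φ : Q → unitaryGroup (Yx O) ℂ, φ 1 = 1 ∧
      (∀ a ∈ A, hs ((φ a).1 * Fd O - Fd O * (φ a).1) ≤ 12 * (ε * d)) ∧
      (∀ a ∈ A, ∀ b ∈ A, a * b ∈ A →
        hs (((φ (a * b)).1 - (φ a).1 * (φ b).1) * Fd O) ≤ 48 * (ε * d)) ∧
      (c / 8 - 2 * ε) * d ≤ hs (((φ g).1 - 1) * Fd O) := by
  choose φ hφ using fun q : Q => exists_unitary_weights (TT O (V q)) (TT_contr (hV q))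
  refine ⟨φ, ?_, ?_, ?_, ?_⟩
  · have h := (hφ 1 1).1
    have e1 : TT O (V 1) = 1 := by
      ext y' y
      rw [TT, TV, hV1, Matrix.one_mul, Matrix.conjTranspose_one, Matrix.mul_one, onf_Jb,
        Matrix.one_apply]
    rw [e1, Matrix.mul_one, Matrix.one_mul, sub_self] at h
    have h5 : hs (1 - (φ 1).1) = 0 := le_antisymm h (Pool.Agent.W683.RC.hs_nonneg _)
    have h6 := sub_eq_zero.1 (hs_eq_zero_iff.1 h5)
    exact Subtype.ext h6.symm
  · intro a ha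
    exact (one_unitary (hV a) (h1 a ha).1 (h1 a ha).2 (hφ a)).2.2.2
  · intro a ha b hb hab
    have ua : ((φ a).1)ᴴ * (φ a).1 = 1 := Pool.Agent.H80R2.HG.PSAux.uh (φ a)
    obtain ⟨a1, a2, a3, a4⟩ := one_unitary (hV a) (h1 a ha).1 (h1 a ha).2 (hφ a)
    obtain ⟨b1, b2, b3, b4⟩ := one_unitary (hV b) (h1 b hb).1 (h1 b hb).2 (hφ b)
    obtain ⟨c1, c2, c3, c4⟩ := one_unitary (hV _) (h1 _ hab).1 (h1 _ hab).2 (hφ (a * b))
    have m1 := TT_mul_le (hV a) (h1 b hb).1 (h2 a ha b hb hab)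
    have e1 : ((φ (a * b)).1 - (φ a).1 * (φ b).1) * Fd O =
        -((TT O (V (a * b)) - (φ (a * b)).1) * Fd O) +
        (TT O (V (a * b)) - TT O (V a) * TT O (V b)) * Fd O +
        (TT O (V a) - (φ a).1) * (TT O (V b) * Fd O) +
        (φ a).1 * ((TT O (V b) - (φ b).1) * Fd O) := by
      simp only [Matrix.sub_mul, Matrix.mul_sub, Matrix.mul_assoc]
      abel
    have m2 : hs ((TT O (V a) - (φ a).1) * (TT O (V b) * Fd O)) ≤ 6 * (ε * d) := by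
      have e2 : (TT O (V a) - (φ a).1) * (TT O (V b) * Fd O) =
          (TT O (V a) - (φ a).1) * Fd O * TT O (V b) +
          (TT O (V a) - (φ a).1) * (TT O (V b) * Fd O - Fd O * TT O (V b)) := by
        rw [Matrix.mul_sub, Matrix.mul_assoc _ (Fd O)]
        abel
      rw [e2]
      refine (Pool.Agent.W683.RC.hs_add_le _ _).trans ?_
      have f1 := hs_mul_le_right (TT_contr (hV b)) ((TT O (V a) - (φ a).1) * Fd O)
      have f2 := (hφ a (TT O (V b) * Fd O - Fd O * TT O (V b))).1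
      have f3 := Pool.Agent.W683.RC.hs_nonneg
        (TT O (V a) * (TT O (V b) * Fd O - Fd O * TT O (V b)))
      linarith
    rw [e1]
    refine (hs_add4_le _ _ _ _).trans ?_
    rw [hs_neg, hs_unit_mul ua]
    linarith
  · obtain ⟨a1, a2, a3, a4⟩ := one_unitary (hV g) (h1 g hg).1 (h1 g hg).2 (hφ g)
    have m1 := displ (hV g) (h1 g hg).1 hz hz1 hz2 h4
    have e1 : (TT O (V g) - 1) * Fd O = (TT O (V g) - (φ g).1) * Fd O +
        ((φ g).1 - 1) * Fd O := by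
      simp only [Matrix.sub_mul]
      abel
    have m2 := Pool.Agent.W683.RC.hs_add_le ((TT O (V g) - (φ g).1) * Fd O)
      (((φ g).1 - 1) * Fd O)
    rw [← e1] at m2
    have m3 := Pool.Agent.W683.RC.hs_nonneg ((TT O (V g) - (φ g).1) * Fd O)
    linarith

end

end Pool.Agent.N303.KQ
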