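import Pool.Agent.N303.KQ.Alg

/-!
# The design of signed permutations in the block algebra
-/

set_option autoImplicit false

namespace Pool.Agent.N303.KQ

open Matrix Finset
open scoped ComplexOrder
open Pool.Agent.W661.RC Pool.Agent.W683.RC

noncomputable section

variable {d : ℕ} (O : Out d)

/-- permutations of the index set which preserve the classes -/
abbrev Pc : Type := {π : Equiv.Perm O.I // ∀ i, O.c (π i) = O.c i}

/-- signs and permutations -/
abbrev Om : Type := (O.I → Bool) × Pc O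

/-- size of the class of `i` -/
def mc (i : O.I) : ℕ := (univ.filter fun j : O.I => O.c j = O.c i).card

/-- the weight -/
def fw (y : Yx O) : ℝ := √((O.l (O.c y.1.1) : ℝ) / mc O y.1.1)

/-- the sign of a boolean -/
def sg (b : Bool) : ℂ := if b then 1 else -1

/-- signed permutation matrix -/
def av (ω : Om O) : Matrix O.I O.I ℂ := fun i j => if ω.2.1 i = j then sg (ω.1 i) else 0

/-- its coordinates -/
def xv (ω : Om O) : Yx O → ℂ := cf O (av O ω)

/-- the corresponding element of the block algebra -/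
def vv (ω : Om O) : Mt d := Am O (av O ω)

variable {O}

theorem mc_pos (i : O.I) : 0 < mc O i := card_pos.2 ⟨i, mem_filter.2 ⟨mem_univ _, rfl⟩⟩

theorem sg_mul_self (b : Bool) : sg b * sg b = 1 := by
  cases b <;> simp [sg]

theorem star_sg (b : Bool) : star (sg b) = sg b := by
  cases b <;> simp [sg]

theorem sg_not (b : Bool) : sg (!b) = -sg b := by
  cases b <;> simp [sg]

theorem BD_av (ω : Om O) : BD O (av O ω) := by
  intro i j hij
  rw [av, if_neg]
  rintro rfl
  exact hij (ω.2.2 i).symm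

theorem JJ_xv (ω : Om O) : JJ (Jb O) (xv O ω) = vv O ω := JJ_cf (BD_av ω)

theorem vv_mem (ω : Om O) : vv O ω ∈ O.alg := Am_mem (BD_av ω)

theorem av_conj_mul (ω : Om O) : (av O ω)ᴴ * av O ω = 1 := by
  ext i j
  rw [Matrix.mul_apply, Matrix.one_apply]
  simp only [conjTranspose_apply, av]
  rw [sum_eq_single (ω.2.1.symm i)]
  · rw [if_pos (Equiv.apply_symm_apply _ _), star_sg]
    by_cases h : i = j
    · subst h
      rw [if_pos (Equiv.apply_symm_apply _ _), if_pos rfl, sg_mul_self]
    · rw [if_neg h, if_neg, mul_zero]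
      rw [Equiv.apply_symm_apply]
      exact h
  · intro b _ hb
    rw [if_neg, star_zero, zero_mul]
    intro h
    exact hb (by rw [← h, Equiv.symm_apply_apply])
  · intro h; exact absurd (mem_univ _) h

theorem vv_conj_mul (ω : Om O) : (vv O ω)ᴴ * vv O ω = pO O := by
  rw [vv, Am_conjTranspose, Am_mul (BD_av ω).conjTranspose, av_conj_mul, pO, Am]
  have h : Bm O 1 = 1 := by
    ext x y
    rw [Bm, Matrix.one_apply, Matrix.one_apply]
    by_cases h1 : x = y
    · subst h1; simp
    · rw [if_neg h1]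
      by_cases h2 : (x.2 : ℕ) = (y.2 : ℕ)
      · rw [if_pos h2, if_neg]
        intro h3
        apply h1
        obtain ⟨i, q⟩ := x
        obtain ⟨j, r⟩ := y
        simp only at h3 h2
        subst h3
        congr 1
        exact Fin.ext h2
      · rw [if_neg h2]
  rw [h, Matrix.mul_one]

theorem vv_contr (ω : Om O) : Le ((vv O ω)ᴴ * vv O ω) 1 := by
  rw [vv_conj_mul]
  exact pr_le_one pO_pr

/-! ### Second moments -/

theorem sum_sign (i i' : O.I) (h : i ≠ i') : ∑ ε : O.I → Bool, sg (ε i) * sg (ε i') = 0 := by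
  classical
  let e : (O.I → Bool) ≃ (O.I → Bool) :=
    { toFun := fun ε => Function.update ε i (!ε i)
      invFun := fun ε => Function.update ε i (!ε i)
      left_inv := fun ε => by simp
      right_inv := fun ε => by simp }
  have h1 : ∑ ε : O.I → Bool, sg (ε i) * sg (ε i') =
      ∑ ε : O.I → Bool, sg ((e ε) i) * sg ((e ε) i') :=
    (Equiv.sum_comp e fun ε => sg (ε i) * sg (ε i')).symm
  have h2 : ∀ ε : O.I → Bool, sg ((e ε) i) * sg ((e ε) i') = -(sg (ε i) * sg (ε i')) := by
    intro ε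
    show sg (Function.update ε i (!ε i) i) * sg (Function.update ε i (!ε i) i') = _
    rw [Function.update_self, Function.update_of_ne h.symm, sg_not]
    ring
  simp only [h2, sum_neg_distrib] at h1
  have h3 : (2 : ℂ) * ∑ ε : O.I → Bool, sg (ε i) * sg (ε i') = 0 := by
    linear_combination h1
  simpa using h3

/-- number of class-preserving permutations mapping `i` to `j` -/
def np (i j : O.I) : ℕ := (univ.filter fun π : Pc O => π.1 i = j).card

theorem np_eq (i j j' : O.I) (hj : O.c j = O.c i) (hj' : O.c j' = O.c i) :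
    np i j ≤ np (O := O) i j' := by
  classical
  rw [np, np]
  have hs : ∀ k, O.c (Equiv.swap j j' k) = O.c k := by
    intro k
    by_cases h1 : k = j
    · subst h1; rw [Equiv.swap_apply_left, hj, hj']
    · by_cases h2 : k = j'
      · subst h2; rw [Equiv.swap_apply_right, hj, hj']
      · rw [Equiv.swap_apply_of_ne_of_ne h1 h2]
  refine card_le_card_of_injOn
    (fun π : Pc O => (⟨Equiv.swap j j' * π.1, fun k => by
      rw [Equiv.Perm.mul_apply, hs, π.2]⟩ : Pc O)) ?_ ?_
  · intro π hπ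
    rw [mem_coe, mem_filter] at hπ ⊢
    refine ⟨mem_univ _, ?_⟩
    show (Equiv.swap j j' * π.1) i = j'
    rw [Equiv.Perm.mul_apply, hπ.2, Equiv.swap_apply_left]
  · intro π _ π' _ h
    have h1 := congrArg Subtype.val h
    exact Subtype.ext (mul_left_cancel h1)

theorem np_mul (i j : O.I) (hj : O.c j = O.c i) :
    np (O := O) i j * mc O i = Fintype.card (Pc O) := by
  classical
  have h1 : Fintype.card (Pc O) = ∑ k ∈ univ.filter (fun k : O.I => O.c k = O.c i), np (O := O) i k := by
    rw [← card_univ]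
    rw [card_eq_sum_card_fiberwise (f := fun π : Pc O => π.1 i)
      (t := univ.filter (fun k : O.I => O.c k = O.c i))]
    · rfl
    · intro π _
      rw [mem_coe, mem_filter]
      exact ⟨mem_univ _, π.2 i⟩
  rw [h1, sum_congr rfl (g := fun _ => np (O := O) i j), sum_const, smul_eq_mul, mul_comm]
  · rfl
  · intro k hk
    rw [mem_filter] at hk
    exact le_antisymm (np_eq i k j hk.2 hj) (np_eq i j k hj hk.2)

theorem fw_sq (y : Yx O) : fw O y ^ 2 = (O.l (O.c y.1.1) : ℝ) / mc O y.1.1 := by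
  rw [fw, Real.sq_sqrt]
  positivity

theorem sum_prod_helper {α β : Type} [Fintype α] [Fintype β] (A : ℂ) (P : β → ℂ) (S : α → ℂ) :
    ∑ ω : α × β, A * P ω.2 * S ω.1 = A * (∑ b, P b) * ∑ a, S a := by
  rw [Fintype.sum_prod_type_right]
  have h1 : ∀ b : β, ∑ a : α, A * P b * S a = A * P b * ∑ a, S a := fun b => (mul_sum _ _ _).symm
  show ∑ b : β, ∑ a : α, A * P b * S a = _
  rw [sum_congr rfl fun b _ => h1 b, ← sum_mul, ← mul_sum]

theorem second_moment (y y' : Yx O) :
    ∑ ω : Om O, xv O ω y * star (xv O ω y') =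
      (Fintype.card (Om O) : ℂ) * (if y = y' then ((fw O y ^ 2 : ℝ) : ℂ) else 0) := by
  classical
  have h0 : ∀ ω : Om O, xv O ω y * star (xv O ω y') =
      ((√(O.l (O.c y.1.1) : ℝ) : ℝ) : ℂ) * ((√(O.l (O.c y'.1.1) : ℝ) : ℝ) : ℂ) *
        ((if ω.2.1 y.1.1 = y.1.2 then 1 else 0) * (if ω.2.1 y'.1.1 = y'.1.2 then 1 else 0)) *
          (sg (ω.1 y.1.1) * sg (ω.1 y'.1.1)) := by
    intro ω
    have hr : ∀ r : ℝ, star ((r : ℝ) : ℂ) = (r : ℂ) := fun r => Complex.conj_ofReal r
    simp only [xv, cf, av, star_mul', hr]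
    split_ifs <;> simp [star_sg]
    ring
  rw [sum_congr rfl fun ω _ => h0 ω]
  rw [sum_prod_helper (((√(O.l (O.c y.1.1) : ℝ) : ℝ) : ℂ) * ((√(O.l (O.c y'.1.1) : ℝ) : ℝ) : ℂ))
    (fun π : Pc O => (if π.1 y.1.1 = y.1.2 then (1 : ℂ) else 0) *
      (if π.1 y'.1.1 = y'.1.2 then 1 else 0)) (fun ε : O.I → Bool => sg (ε y.1.1) * sg (ε y'.1.1))]
  by_cases hi : y.1.1 = y'.1.1
  · have h1 : ∑ ε : O.I → Bool, sg (ε y.1.1) * sg (ε y'.1.1) = (Fintype.card (O.I → Bool) : ℂ) := by
      rw [← hi]
      simp only [sg_mul_self, sum_const, card_univ, nsmul_eq_mul, mul_one]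
    rw [h1]
    by_cases hy : y = y'
    · subst hy
      rw [if_pos rfl]
      have h2 : ∑ π : Pc O, ((if π.1 y.1.1 = y.1.2 then (1 : ℂ) else 0) *
          (if π.1 y.1.1 = y.1.2 then 1 else 0)) = (np (O := O) y.1.1 y.1.2 : ℂ) := by
        rw [np, card_filter]
        push_cast
        refine sum_congr rfl fun π _ => ?_
        split_ifs <;> simp
      rw [h2, fw_sq, sqrt_sq']
      have h3 := np_mul (O := O) y.1.1 y.1.2 y.2.1.symm
      have h4 : ((np (O := O) y.1.1 y.1.2 : ℕ) : ℂ) * (mc O y.1.1 : ℂ) = (Fintype.card (Pc O) : ℂ) := by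
        exact_mod_cast h3
      have h5 : (mc O y.1.1 : ℂ) ≠ 0 := by exact_mod_cast (mc_pos y.1.1).ne'
      rw [Fintype.card_prod]
      push_cast
      rw [← h4]
      field_simp
    · rw [if_neg hy, mul_zero]
      have h2 : ∑ π : Pc O, ((if π.1 y.1.1 = y.1.2 then (1 : ℂ) else 0) *
          (if π.1 y'.1.1 = y'.1.2 then 1 else 0)) = 0 := by
        refine sum_eq_zero fun π _ => ?_
        by_cases h3 : π.1 y.1.1 = y.1.2
        · have h4 : ¬ π.1 y'.1.1 = y'.1.2 := by
            intro h4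
            apply hy
            refine Subtype.ext (Prod.ext hi ?_)
            rw [← h3, ← h4, hi]
          rw [if_neg h4, mul_zero]
        · rw [if_neg h3, zero_mul]
      rw [h2]
      ring
  · rw [sum_sign _ _ hi, if_neg (fun h => hi (by rw [h]))]
    simp

/-- averages over the design -/
theorem sum_nsq {Z : Type} [Fintype Z] (K : Matrix Z (Yx O) ℂ) :
    ∑ ω : Om O, nsq (K *ᵥ xv O ω) =
      Fintype.card (Om O) * ∑ z, ∑ y, ‖K z y‖ ^ 2 * fw O y ^ 2 := by
  classical
  have h1 : ((∑ ω : Om O, nsq (K *ᵥ xv O ω) : ℝ) : ℂ) =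
      ((Fintype.card (Om O) * ∑ z, ∑ y, ‖K z y‖ ^ 2 * fw O y ^ 2 : ℝ) : ℂ) := by
    push_cast
    have h2 : ∀ ω : Om O, ((nsq (K *ᵥ xv O ω) : ℝ) : ℂ) =
        ∑ z, ∑ y, ∑ y', K z y * star (K z y') * (xv O ω y * star (xv O ω y')) := by
      intro ω
      rw [nsq]
      push_cast
      refine sum_congr rfl fun z _ => ?_
      rw [← Complex.mul_conj', mulVec, dotProduct, map_sum, Finset.sum_mul_sum]
      refine sum_congr rfl fun y _ => sum_congr rfl fun y' _ => ?_
      rw [map_mul]
      show _ = K z y * (starRingEnd ℂ) (K z y') * (xv O ω y * (starRingEnd ℂ) (xv O ω y'))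
      ring
    simp only [h2]
    rw [sum_comm, mul_sum]
    refine sum_congr rfl fun z _ => ?_
    rw [sum_comm, mul_sum]
    refine sum_congr rfl fun y _ => ?_
    rw [sum_comm]
    simp only [← mul_sum, second_moment]
    rw [sum_eq_single y]
    · rw [if_pos rfl, Complex.star_def, Complex.mul_conj']
      push_cast
      ring
    · intro b _ hb
      rw [if_neg (fun h => hb h.symm)]
      simp
    · intro h; exact absurd (mem_univ _) h
  exact_mod_cast h1

theorem card_Om_pos : (0 : ℝ) < Fintype.card (Om O) := by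
  have : 0 < Fintype.card (Om O) := Fintype.card_pos_iff.2
    ⟨(fun _ => true, ⟨1, fun _ => rfl⟩)⟩
  exact_mod_cast this

theorem sum_fw_sq : ∑ y : Yx O, fw O y ^ 2 = D0 O := by
  classical
  have h1 := sum_nsq (O := O) (1 : Matrix (Yx O) (Yx O) ℂ)
  have h2 : ∀ ω : Om O, nsq ((1 : Matrix (Yx O) (Yx O) ℂ) *ᵥ xv O ω) = D0 O := by
    intro ω
    rw [one_mulVec, ← hs_JJ onf_Jb, JJ_xv, hs_eq_tr, vv_conj_mul, tr_pO]
  simp only [h2, sum_const, card_univ, nsmul_eq_mul] at h1
  have h3 := mul_left_cancel₀ card_Om_pos.ne' h1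
  rw [h3]
  refine sum_congr rfl fun y _ => ?_
  rw [sum_eq_single y]
  · simp
  · intro b _ hb
    simp [Ne.symm hb]
  · intro h; exact absurd (mem_univ _) h

end

end Pool.Agent.N303.KQ
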