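import Pool.Agent.N303.KQ.App

/-!
# Eventual properties of the block algebras
-/

set_option autoImplicit false

namespace Pool.Agent.N303.KQ

open Matrix Finset Filter
open scoped ComplexOrder
open Pool.Agent.W661.RC Pool.Agent.W683.RC
open Pool.Agent.H21R2 (IsHyperlinear hsNorm)

noncomputable section

variable {P : Type} [Group P]

theorem comm_word {k : ℕ} (w : FreeGroup (Fin k)) :
    ∃ L : ℝ, 0 ≤ L ∧ ∀ (d : ℕ) (U : Fin k → unitaryGroup (Fin d) ℂ) (v : Mt d),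
      hs ((FreeGroup.lift U w).1 * v - v * (FreeGroup.lift U w).1) ≤
        L * Pool.Agent.W661.RC.en (fun s => (U s).1) v := by
  induction w using FreeGroup.induction_on with
  | C1 =>
    refine ⟨0, le_rfl, fun d U v => ?_⟩
    rw [map_one, zero_mul]
    show hs ((1 : Mt d) * v - v * 1) ≤ 0
    rw [Matrix.one_mul, Matrix.mul_one, sub_self, hs_zero]
  | of s =>
    refine ⟨1, zero_le_one, fun d U v => ?_⟩
    rw [FreeGroup.lift_apply_of, one_mul, Pool.Agent.W661.RC.en]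
    exact single_le_sum (f := fun s => hs ((U s).1 * v - v * (U s).1))
      (fun i _ => Pool.Agent.W683.RC.hs_nonneg _) (mem_univ s)
  | inv_of s _ =>
    refine ⟨1, zero_le_one, fun d U v => ?_⟩
    rw [map_inv, FreeGroup.lift_apply_of, one_mul]
    have h := hs_comm_adj (un_conj (U s)) v
    have e : ((U s)⁻¹ : unitaryGroup (Fin d) ℂ).1 = ((U s).1)ᴴ := rfl
    rw [e, h, Pool.Agent.W661.RC.en]
    exact single_le_sum (f := fun s => hs ((U s).1 * v - v * (U s).1))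
      (fun i _ => Pool.Agent.W683.RC.hs_nonneg _) (mem_univ s)
  | mul x y hx hy =>
    obtain ⟨L, hL, hx⟩ := hx
    obtain ⟨M, hM, hy⟩ := hy
    refine ⟨2 * L + 2 * M, by positivity, fun d U v => ?_⟩
    rw [map_mul, UnitaryGroup.mul_val]
    set a := FreeGroup.lift U x
    set b := FreeGroup.lift U y
    have e : a.1 * b.1 * v - v * (a.1 * b.1) = a.1 * (b.1 * v - v * b.1) +
        (a.1 * v - v * a.1) * b.1 := by
      simp only [Matrix.mul_sub, Matrix.sub_mul, Matrix.mul_assoc]; abel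
    rw [e]
    refine (Pool.Agent.W683.RC.hs_add_le _ _).trans ?_
    rw [hs_unit_mul (un_conj a), hs_mul_unit (un_conj b)]
    have h1 := hx d U v
    have h2 := hy d U v
    linarith

theorem contr_conj_unit {d : ℕ} {V v : Mt d} (hV : Vᴴ * V = 1) (hv : Le (vᴴ * v) 1) :
    Le ((V * v * Vᴴ)ᴴ * (V * v * Vᴴ)) 1 := by
  have e3 : (V * v * Vᴴ)ᴴ * (V * v * Vᴴ) = V * (vᴴ * v) * Vᴴ := by
    rw [Matrix.conjTranspose_mul, Matrix.conjTranspose_mul, Matrix.conjTranspose_conjTranspose]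
    calc V * (vᴴ * Vᴴ) * (V * v * Vᴴ) = V * vᴴ * (Vᴴ * V) * v * Vᴴ := by
          simp only [Matrix.mul_assoc]
      _ = _ := by rw [hV, Matrix.mul_one]; simp only [Matrix.mul_assoc]
  rw [e3]
  have h6 := Le_conj' hv V
  rw [Matrix.mul_one, unit_symm hV] at h6
  exact h6

theorem nearInv_of {k d : ℕ} {U : Fin k → unitaryGroup (Fin d) ℂ} {K0 ε : ℝ} {O : Out d}
    (hK0 : 0 ≤ K0) (hO : BlkA (fun s => (U s).1) K0 ε O) {V : Mt d} (hV : Vᴴ * V = 1)
    (w : Fin k → FreeGroup (Fin k)) (L : Fin k → ℝ) (hL0 : ∀ s, 0 ≤ L s)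
    (hL : ∀ (s : Fin k) (v : Mt d), hs ((FreeGroup.lift U (w s)).1 * v -
      v * (FreeGroup.lift U (w s)).1) ≤ L s * Pool.Agent.W661.RC.en (fun s => (U s).1) v)
    {η : ℝ} (hη : ∀ s, hs ((U s).1 * V - V * (FreeGroup.lift U (w s)).1) ≤ η * d) :
    NearInv O V (K0 * ∑ s, (2 * L s * ε + 8 * η) + ε) := by
  intro v hv hv1
  obtain ⟨a, ha, _, ha2⟩ := hO.near (V * v * Vᴴ) (contr_conj_unit hV hv1)
  refine ⟨a, ha, ha2.trans ?_⟩
  have h1 : Pool.Agent.W661.RC.en (fun s => (U s).1) (V * v * Vᴴ) ≤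
      (∑ s, (2 * L s * ε + 8 * η)) * d := by
    rw [Pool.Agent.W661.RC.en, sum_mul]
    refine sum_le_sum fun s _ => ?_
    set W := (FreeGroup.lift U (w s)).1 with hW
    set X := Vᴴ * (U s).1 * V with hX
    have e1 : hs ((U s).1 * (V * v * Vᴴ) - V * v * Vᴴ * (U s).1) = hs (X * v - v * X) := by
      have e2 : Vᴴ * ((U s).1 * (V * v * Vᴴ) - V * v * Vᴴ * (U s).1) * V = X * v - v * X := by
        rw [Matrix.mul_sub, Matrix.sub_mul, hX]
        congr 1
        · calc Vᴴ * ((U s).1 * (V * v * Vᴴ)) * V = Vᴴ * (U s).1 * V * v * (Vᴴ * V) := by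
                simp only [Matrix.mul_assoc]
            _ = _ := by rw [hV, Matrix.mul_one]
        · calc Vᴴ * (V * v * Vᴴ * (U s).1) * V = (Vᴴ * V) * v * (Vᴴ * (U s).1 * V) := by
                simp only [Matrix.mul_assoc]
            _ = _ := by rw [hV, Matrix.one_mul]
      rw [← e2, hs_mul_unit hV, hs_unit_mul (unit_conj hV)]
    have e3 : hs (X - W) ≤ η * d := by
      have e4 : X - W = Vᴴ * ((U s).1 * V - V * W) := by
        rw [Matrix.mul_sub, ← Matrix.mul_assoc, ← Matrix.mul_assoc, hV, Matrix.one_mul]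
      rw [e4, hs_unit_mul (unit_conj hV)]
      exact hη s
    have e5 : X * v - v * X = (W * v - v * W) + ((X - W) * v - v * (X - W)) := by
      simp only [Matrix.mul_sub, Matrix.sub_mul]; abel
    have h2 := hL s v
    have h3 := hO.en v hv hv1
    have h4 := Pool.Agent.W683.RC.hs_add_le (W * v - v * W) ((X - W) * v - v * (X - W))
    have h5 := Pool.Agent.W683.RC.hs_sub_le ((X - W) * v) (v * (X - W))
    have h6 := hs_mul_le_right hv1 (X - W)
    have h7 := Pool.Agent.W683.RC.hs_mul_le hv1 (X - W)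
    have h8 := mul_le_mul_of_nonneg_left h3 (hL0 s)
    show hs ((U s).1 * (V * v * Vᴴ) - V * v * Vᴴ * (U s).1) ≤ _
    rw [e1, e5]
    linarith
  have h2 := mul_le_mul_of_nonneg_left h1 hK0
  linarith

section

variable {k : ℕ} {N : Subgroup P} {γ : FreeGroup (Fin k) →* N} {K0 : ℝ}

/-- elements of the normaliser nearly preserve the block algebras -/
theorem ev_nearInv (hγ : Function.Surjective γ) (hK0 : 0 < K0) {h : P} (hh : h ∈ Subgroup.normalizer (N : Set P))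
    {ε : ℝ} (hε : 0 < ε) :
    ∀ᶠ y in outF (N.subtype.comp γ) K0,
      NearInv y.2 (y.1.φ h).1 ε ∧ NearInv y.2 ((y.1.φ h).1)ᴴ ε := by
  have hw : ∀ s : Fin k, ∃ w : FreeGroup (Fin k),
      h * (N.subtype.comp γ) w = (N.subtype.comp γ) (FreeGroup.of s) * h := by
    intro s
    have h1 : h⁻¹ * (γ (FreeGroup.of s) : P) * h ∈ N := by
      rw [Subgroup.mem_normalizer_iff''] at hh
      exact (hh _).1 (γ (FreeGroup.of s)).2
    obtain ⟨w, hw⟩ := hγ ⟨_, h1⟩
    refine ⟨w, ?_⟩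
    show h * ((γ w : N) : P) = (γ (FreeGroup.of s) : P) * h
    rw [hw]
    group
  have hw' : ∀ s : Fin k, ∃ w : FreeGroup (Fin k),
      (N.subtype.comp γ) w * h = h * (N.subtype.comp γ) (FreeGroup.of s) := by
    intro s
    have h1 : h * (γ (FreeGroup.of s) : P) * h⁻¹ ∈ N := by
      rw [Subgroup.mem_normalizer_iff] at hh
      exact (hh _).1 (γ (FreeGroup.of s)).2
    obtain ⟨w, hw⟩ := hγ ⟨_, h1⟩
    refine ⟨w, ?_⟩
    show ((γ w : N) : P) * h = h * (γ (FreeGroup.of s) : P)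
    rw [hw]
    group
  choose w hw using hw
  choose w' hw' using hw'
  choose L hL0 hL using fun s => comm_word (w s)
  choose L' hL0' hL' using fun s => comm_word (w' s)
  set Λ : ℝ := ∑ s, L s with hΛ
  set Λ' : ℝ := ∑ s, L' s with hΛ'
  have hΛ0 : 0 ≤ Λ := sum_nonneg fun s _ => hL0 s
  have hΛ0' : 0 ≤ Λ' := sum_nonneg fun s _ => hL0' s
  set ε1 : ℝ := ε / (2 * (2 * K0 * (Λ + Λ') + 1)) with hε1
  have hε1p : 0 < ε1 := by rw [hε1]; positivity
  set η : ℝ := ε / (2 * (8 * K0 * k + 1)) with hη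
  have hηp : 0 < η := by rw [hη]; positivity
  have hfin : ∀ M : Fin k → ℝ, (∑ s, M s ≤ Λ + Λ') →
      K0 * ∑ s, (2 * M s * ε1 + 8 * η) + ε1 ≤ ε := by
    intro M hM
    have e1 : ∑ s, (2 * M s * ε1 + 8 * η) = 2 * ε1 * ∑ s, M s + 8 * η * k := by
      rw [sum_add_distrib, mul_sum, sum_const, card_univ, Fintype.card_fin, nsmul_eq_mul]
      congr 1
      · exact sum_congr rfl fun s _ => by ring
      · ring
    rw [e1]
    have h1 : K0 * (2 * ε1 * ∑ s, M s) ≤ K0 * (2 * ε1 * (Λ + Λ')) :=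
      mul_le_mul_of_nonneg_left (mul_le_mul_of_nonneg_left hM (by positivity)) hK0.le
    have h2 : (2 * K0 * (Λ + Λ') + 1) * ε1 = ε / 2 := by
      rw [hε1]; field_simp
    have h3 : (8 * K0 * k + 1) * η = ε / 2 := by
      rw [hη]; field_simp
    nlinarith
  have hΛk : ∑ s, L s ≤ Λ + Λ' := by rw [← hΛ]; linarith
  have hΛk' : ∑ s, L' s ≤ Λ + Λ' := by rw [← hΛ']; linarith
  -- approximations
  have hη9 : 0 < η / 9 := by positivity
  have a1 : ∀ᶠ x in appF P, ∀ s ∈ (univ : Finset (Fin k)),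
      hs ((x.φ ((N.subtype.comp γ) (FreeGroup.of s) * h)).1 -
        (x.φ ((N.subtype.comp γ) (FreeGroup.of s))).1 * (x.φ h).1) ≤ η / 9 * x.d := by
    rw [eventually_all_finset]
    exact fun s _ => ev_mul _ _ hη9
  have a2 : ∀ᶠ x in appF P, ∀ s ∈ (univ : Finset (Fin k)),
      hs ((x.φ (h * (N.subtype.comp γ) (w s))).1 -
        (x.φ h).1 * (x.φ ((N.subtype.comp γ) (w s))).1) ≤ η / 9 * x.d := by
    rw [eventually_all_finset]
    exact fun s _ => ev_mul _ _ hη9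
  have a3 : ∀ᶠ x in appF P, ∀ s ∈ (univ : Finset (Fin k)),
      hs ((FreeGroup.lift (Ux (N.subtype.comp γ) x) (w s)).1 -
        (x.φ ((N.subtype.comp γ) (w s))).1) ≤ η / 9 * x.d := by
    rw [eventually_all_finset]
    exact fun s _ => ev_word _ _ _ hη9
  have b1 : ∀ᶠ x in appF P, ∀ s ∈ (univ : Finset (Fin k)),
      hs ((x.φ (h * (N.subtype.comp γ) (FreeGroup.of s))).1 -
        (x.φ h).1 * (x.φ ((N.subtype.comp γ) (FreeGroup.of s))).1) ≤ η / 9 * x.d := by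
    rw [eventually_all_finset]
    exact fun s _ => ev_mul _ _ hη9
  have b2 : ∀ᶠ x in appF P, ∀ s ∈ (univ : Finset (Fin k)),
      hs ((x.φ ((N.subtype.comp γ) (w' s) * h)).1 -
        (x.φ ((N.subtype.comp γ) (w' s))).1 * (x.φ h).1) ≤ η / 9 * x.d := by
    rw [eventually_all_finset]
    exact fun s _ => ev_mul _ _ hη9
  have b3 : ∀ᶠ x in appF P, ∀ s ∈ (univ : Finset (Fin k)),
      hs ((FreeGroup.lift (Ux (N.subtype.comp γ) x) (w' s)).1 -
        (x.φ ((N.subtype.comp γ) (w' s))).1) ≤ η / 9 * x.d := by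
    rw [eventually_all_finset]
    exact fun s _ => ev_word _ _ _ hη9
  filter_upwards [ev_of_app a1, ev_of_app a2, ev_of_app a3, ev_of_app b1, ev_of_app b2,
    ev_of_app b3, ev_blk hε1p] with y a1 a2 a3 b1 b2 b3 hO
  obtain ⟨x, O⟩ := y
  simp only at a1 a2 a3 b1 b2 b3 hO ⊢
  have hd : (0 : ℝ) ≤ x.d := Nat.cast_nonneg _
  have hmono : ∀ {V : Mt x.d} {δ : ℝ}, NearInv O V δ → δ ≤ ε → NearInv O V ε := by
    intro V δ hN hδ a ha ha1
    obtain ⟨b, hb, hb1⟩ := hN a ha ha1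
    exact ⟨b, hb, hb1.trans (mul_le_mul_of_nonneg_right hδ hd)⟩
  refine ⟨?_, ?_⟩
  · have hη' : ∀ s, hs ((Ux (N.subtype.comp γ) x s).1 * (x.φ h).1 -
        (x.φ h).1 * (FreeGroup.lift (Ux (N.subtype.comp γ) x) (w s)).1) ≤ η * x.d := by
      intro s
      have c1 := a1 s (mem_univ s)
      have c2 := a2 s (mem_univ s)
      have c3 := a3 s (mem_univ s)
      rw [hw s] at c2
      have e : (Ux (N.subtype.comp γ) x s).1 * (x.φ h).1 -
          (x.φ h).1 * (FreeGroup.lift (Ux (N.subtype.comp γ) x) (w s)).1 =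
          -((x.φ ((N.subtype.comp γ) (FreeGroup.of s) * h)).1 -
            (x.φ ((N.subtype.comp γ) (FreeGroup.of s))).1 * (x.φ h).1) +
          ((x.φ ((N.subtype.comp γ) (FreeGroup.of s) * h)).1 -
            (x.φ h).1 * (x.φ ((N.subtype.comp γ) (w s))).1) +
          -((x.φ h).1 * ((FreeGroup.lift (Ux (N.subtype.comp γ) x) (w s)).1 -
            (x.φ ((N.subtype.comp γ) (w s))).1)) := by
        rw [Matrix.mul_sub, Ux]; abel
      rw [e]
      refine (hs_add3_le _ _ _).trans ?_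
      rw [hs_neg, hs_neg, hs_unit_mul (un_conj (x.φ h))]
      linarith
    exact hmono (nearInv_of hK0.le hO (un_conj _) w L hL0 (fun s v => hL s x.d _ v) hη')
      (hfin L hΛk)
  · have hη' : ∀ s, hs ((Ux (N.subtype.comp γ) x s).1 * ((x.φ h).1)ᴴ -
        ((x.φ h).1)ᴴ * (FreeGroup.lift (Ux (N.subtype.comp γ) x) (w' s)).1) ≤ η * x.d := by
      intro s
      have c1 := b1 s (mem_univ s)
      have c2 := b2 s (mem_univ s)
      have c3 := b3 s (mem_univ s)
      rw [hw' s] at c2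
      have hVV : ((x.φ h).1)ᴴ * (x.φ h).1 = 1 := un_conj _
      have hVV' : (x.φ h).1 * ((x.φ h).1)ᴴ = 1 := unit_symm hVV
      have e0 : (Ux (N.subtype.comp γ) x s).1 * ((x.φ h).1)ᴴ -
        ((x.φ h).1)ᴴ * (FreeGroup.lift (Ux (N.subtype.comp γ) x) (w' s)).1 =
          ((x.φ h).1)ᴴ * ((x.φ h).1 * (Ux (N.subtype.comp γ) x s).1 -
            (FreeGroup.lift (Ux (N.subtype.comp γ) x) (w' s)).1 * (x.φ h).1) * ((x.φ h).1)ᴴ := by
        rw [Matrix.mul_sub, Matrix.sub_mul]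
        congr 1
        · rw [← Matrix.mul_assoc, hVV, Matrix.one_mul]
        · rw [Matrix.mul_assoc, Matrix.mul_assoc, hVV', Matrix.mul_one]
      rw [e0, hs_mul_unit (unit_conj hVV), hs_unit_mul (unit_conj hVV)]
      have e : (x.φ h).1 * (Ux (N.subtype.comp γ) x s).1 -
          (FreeGroup.lift (Ux (N.subtype.comp γ) x) (w' s)).1 * (x.φ h).1 =
          -((x.φ (h * (N.subtype.comp γ) (FreeGroup.of s))).1 -
            (x.φ h).1 * (x.φ ((N.subtype.comp γ) (FreeGroup.of s))).1) +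
          ((x.φ (h * (N.subtype.comp γ) (FreeGroup.of s))).1 -
            (x.φ ((N.subtype.comp γ) (w' s))).1 * (x.φ h).1) +
          -(((FreeGroup.lift (Ux (N.subtype.comp γ) x) (w' s)).1 -
            (x.φ ((N.subtype.comp γ) (w' s))).1) * (x.φ h).1) := by
        rw [Matrix.sub_mul, Ux]; abel
      rw [e]
      refine (hs_add3_le _ _ _).trans ?_
      rw [hs_neg, hs_neg, hs_mul_unit hVV]
      linarith
    exact hmono (nearInv_of hK0.le hO (unit_conj (un_conj _)) w' L' hL0'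
      (fun s v => hL' s x.d _ v) hη') (hfin L' hΛk')

/-- products -/
theorem ev_prod (hγ : Function.Surjective γ) {a b c : P} {n : N} (hn : a * b = c * n)
    {ε : ℝ} (hε : 0 < ε) :
    ∀ᶠ y in outF (N.subtype.comp γ) K0, ∀ v ∈ y.2.alg, Le (vᴴ * v) 1 →
      hs ((y.1.φ c).1 * v * ((y.1.φ c).1)ᴴ -
        (y.1.φ a).1 * ((y.1.φ b).1 * v * ((y.1.φ b).1)ᴴ) * ((y.1.φ a).1)ᴴ) ≤ ε * y.1.d := by
  obtain ⟨w, hw⟩ := hγ n
  obtain ⟨L, hL0, hL⟩ := comm_word w
  have hη : 0 < ε / 1000 := by positivity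
  have hε1 : 0 < ε / (4 * (L + 1)) := by positivity
  filter_upwards [ev_of_app (ev_mul a b hη), ev_of_app (ev_mul c (n : P) hη),
    ev_of_app (ev_word (N.subtype.comp γ) w _ hη), ev_blk hε1] with y h1 h2 h3 hO
  obtain ⟨x, O⟩ := y
  simp only at h1 h2 h3 hO ⊢
  intro v hv hv1
  have hγw : (N.subtype.comp γ) w = (n : P) := by
    show ((γ w : N) : P) = n
    rw [hw]
  rw [hγw] at h3
  rw [hn] at h1
  set W := FreeGroup.lift (Ux (N.subtype.comp γ) x) w with hW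
  set A := x.φ a
  set B := x.φ b
  set C := x.φ c
  have hd : (0 : ℝ) ≤ x.d := Nat.cast_nonneg _
  -- `A B` is close to `C W`
  have hD : hs (A.1 * B.1 - C.1 * W.1) ≤ 9 * (ε / 1000) * x.d := by
    have e : A.1 * B.1 - C.1 * W.1 = -((x.φ (c * n)).1 - A.1 * B.1) +
        ((x.φ (c * n)).1 - C.1 * (x.φ (n : P)).1) + -(C.1 * (W.1 - (x.φ (n : P)).1)) := by
      rw [Matrix.mul_sub]; abel
    rw [e]
    refine (hs_add3_le _ _ _).trans ?_
    rw [hs_neg, hs_neg, hs_unit_mul (un_conj C)]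
    linarith
  have h4 := hL x.d (Ux (N.subtype.comp γ) x) v
  have h5 := hO.en v hv hv1
  have h6 : hs (W.1 * v * (W.1)ᴴ - v) ≤ L * (ε / (4 * (L + 1)) * x.d) := by
    have e := hs_comm_eq' (un_conj W) v
    rw [hs_sub_comm v] at e
    rw [← e]
    exact h4.trans (mul_le_mul_of_nonneg_left h5 hL0)
  have e1 : C.1 * v * (C.1)ᴴ - A.1 * (B.1 * v * (B.1)ᴴ) * (A.1)ᴴ =
      -(C.1 * (W.1 * v * (W.1)ᴴ - v) * (C.1)ᴴ) +
      -((A.1 * B.1 - C.1 * W.1) * v * (A.1 * B.1)ᴴ) +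
      -(C.1 * W.1 * v * (A.1 * B.1 - C.1 * W.1)ᴴ) := by
    simp only [Matrix.mul_sub, Matrix.sub_mul, Matrix.conjTranspose_mul, Matrix.conjTranspose_sub,
      Matrix.mul_assoc]
    abel
  rw [e1]
  refine (hs_add3_le _ _ _).trans ?_
  rw [hs_neg, hs_neg, hs_neg]
  have f1 : hs (C.1 * (W.1 * v * (W.1)ᴴ - v) * (C.1)ᴴ) = hs (W.1 * v * (W.1)ᴴ - v) := by
    rw [hs_mul_unit (unit_conj (un_conj C)), hs_unit_mul (un_conj C)]
  have hAB : (A.1 * B.1)ᴴ * (A.1 * B.1) = 1 := un_conj (A * B)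
  have f2 : hs ((A.1 * B.1 - C.1 * W.1) * v * (A.1 * B.1)ᴴ) ≤ hs (A.1 * B.1 - C.1 * W.1) := by
    rw [hs_mul_unit (unit_conj hAB)]
    exact hs_mul_le_right hv1 _
  have f3 : hs (C.1 * W.1 * v * (A.1 * B.1 - C.1 * W.1)ᴴ) ≤ hs (A.1 * B.1 - C.1 * W.1) := by
    rw [Matrix.mul_assoc, Matrix.mul_assoc, hs_unit_mul (un_conj C), hs_unit_mul (un_conj W)]
    refine (Pool.Agent.W683.RC.hs_mul_le hv1 _).trans ?_
    rw [Pool.Agent.W683.RC.hs_conjTranspose]
  rw [f1]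
  have h7 : L * (ε / (4 * (L + 1)) * x.d) ≤ ε / 4 * x.d := by
    have h8 : L * (ε / (4 * (L + 1))) ≤ ε / 4 := by
      rw [← mul_div_assoc, div_le_div_iff₀ (by positivity) (by norm_num)]
      nlinarith
    calc L * (ε / (4 * (L + 1)) * x.d) = L * (ε / (4 * (L + 1))) * x.d := by ring
      _ ≤ _ := mul_le_mul_of_nonneg_right h8 hd
  nlinarith [mul_nonneg hε.le hd]

/-- an element of the centraliser which does not commute with `g` -/
theorem ev_displ (hK0 : 0 < K0) {g z : P} (hz : z ∈ Subgroup.centralizer (N : Set P))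
    (hgz : g * z ≠ z * g) :
    ∀ᶠ y in outF (N.subtype.comp γ) K0, ∃ z' ∈ y.2.alg, Le (z'ᴴ * z') 1 ∧
      1 / 24 * (y.1.d : ℝ) ≤ hs ((y.1.φ g).1 * z' * ((y.1.φ g).1)ᴴ - z') := by
  -- small constants
  set η : ℝ := 1 / (1000 * (K0 * (k + 1) + 1)) with hη
  have hηp : 0 < η := by rw [hη]; positivity
  have hη1 : η ≤ 1 / 1000 := by
    rw [hη]
    apply one_div_le_one_div_of_le (by norm_num)
    nlinarith [mul_pos hK0 (show (0 : ℝ) < k + 1 by positivity)]
  have a1 : ∀ᶠ x in appF P, ∀ s ∈ (univ : Finset (Fin k)),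
      hs ((x.φ ((N.subtype.comp γ) (FreeGroup.of s) * z)).1 -
        (x.φ ((N.subtype.comp γ) (FreeGroup.of s))).1 * (x.φ z).1) ≤ η / 4 * x.d := by
    rw [eventually_all_finset]
    exact fun s _ => ev_mul _ _ (by positivity)
  have a2 : ∀ᶠ x in appF P, ∀ s ∈ (univ : Finset (Fin k)),
      hs ((x.φ (z * (N.subtype.comp γ) (FreeGroup.of s))).1 -
        (x.φ z).1 * (x.φ ((N.subtype.comp γ) (FreeGroup.of s))).1) ≤ η / 4 * x.d := by
    rw [eventually_all_finset]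
    exact fun s _ => ev_mul _ _ (by positivity)
  have hu : (z * g)⁻¹ * (g * z) ≠ 1 := by
    intro h
    rw [inv_mul_eq_one] at h
    exact hgz h.symm
  filter_upwards [ev_of_app a1, ev_of_app a2, ev_of_app (ev_mul g z hηp),
    ev_of_app (ev_mul z g hηp), ev_of_app (ev_mul (z * g) ((z * g)⁻¹ * (g * z)) hηp),
    ev_of_app (ev_ne _ hu), ev_blk (γ := N.subtype.comp γ) (K0 := K0) hηp]
    with y a1 a2 h1 h2 h3 h4 hO
  obtain ⟨x, O⟩ := y
  simp only at a1 a2 h1 h2 h3 h4 hO ⊢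
  rw [mul_inv_cancel_left] at h3
  have hd : (0 : ℝ) ≤ x.d := Nat.cast_nonneg _
  -- `φ z` nearly commutes with the generators
  have hen : Pool.Agent.W661.RC.en (Um (N.subtype.comp γ) x) (x.φ z).1 ≤ k * (η * x.d) := by
    rw [Pool.Agent.W661.RC.en]
    have h5 : ∀ s ∈ (univ : Finset (Fin k)), hs (Um (N.subtype.comp γ) x s * (x.φ z).1 -
        (x.φ z).1 * Um (N.subtype.comp γ) x s) ≤ η * x.d := by
      intro s hs'
      have c1 := a1 s hs'
      have c2 := a2 s hs'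
      have hc : z * (N.subtype.comp γ) (FreeGroup.of s) = (N.subtype.comp γ) (FreeGroup.of s) * z := by
        rw [Subgroup.mem_centralizer_iff] at hz
        exact (hz _ (γ (FreeGroup.of s)).2).symm
      rw [hc] at c2
      have e : Um (N.subtype.comp γ) x s * (x.φ z).1 - (x.φ z).1 * Um (N.subtype.comp γ) x s =
          ((x.φ ((N.subtype.comp γ) (FreeGroup.of s) * z)).1 -
            (x.φ z).1 * (x.φ ((N.subtype.comp γ) (FreeGroup.of s))).1) -
          ((x.φ ((N.subtype.comp γ) (FreeGroup.of s) * z)).1 -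
            (x.φ ((N.subtype.comp γ) (FreeGroup.of s))).1 * (x.φ z).1) := by
        rw [Um, Ux]; abel
      rw [e]
      refine (Pool.Agent.W683.RC.hs_sub_le _ _).trans ?_
      linarith
    refine (sum_le_sum h5).trans ?_
    rw [sum_const, card_univ, Fintype.card_fin, nsmul_eq_mul]
  have hzc : Le (((x.φ z).1)ᴴ * (x.φ z).1) 1 := by
    rw [un_conj]; exact Le_refl _
  obtain ⟨z', hz', hz'1, hz'2⟩ := hO.near (x.φ z).1 hzc
  refine ⟨z', hz', hz'1, ?_⟩
  have hz'3 : hs ((x.φ z).1 - z') ≤ 1 / 500 * x.d := by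
    refine hz'2.trans ?_
    have h5 : K0 * Pool.Agent.W661.RC.en (Um (N.subtype.comp γ) x) (x.φ z).1 ≤
        K0 * (k * (η * x.d)) := mul_le_mul_of_nonneg_left hen hK0.le
    have h6 : K0 * (k + 1) * η ≤ 1 / 1000 := by
      rw [hη]
      rw [mul_one_div, div_le_div_iff₀ (by positivity) (by norm_num)]
      nlinarith [mul_pos hK0 (show (0 : ℝ) < k + 1 by positivity)]
    have h7 : K0 * (k * (η * x.d)) ≤ 1 / 1000 * x.d := by
      have h8 : K0 * k * η ≤ K0 * (k + 1) * η :=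
        mul_le_mul_of_nonneg_right (mul_le_mul_of_nonneg_left (by linarith) hK0.le) hηp.le
      calc K0 * (k * (η * x.d)) = K0 * k * η * x.d := by ring
        _ ≤ 1 / 1000 * x.d := mul_le_mul_of_nonneg_right (h8.trans h6) hd
    have h9 : η * x.d ≤ 1 / 1000 * x.d := mul_le_mul_of_nonneg_right hη1 hd
    linarith
  set G := x.φ g
  set Z := x.φ z
  set Uu := x.φ ((z * g)⁻¹ * (g * z))
  -- lower bound for the commutator
  have hcomm : 1 / 4 * (x.d : ℝ) - 3 * (1 / 1000 * x.d) ≤ hs (G.1 * Z.1 - Z.1 * G.1) := by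
    have e : (x.φ (z * g)).1 * (Uu.1 - 1) = (G.1 * Z.1 - Z.1 * G.1) +
        ((x.φ (g * z)).1 - G.1 * Z.1) + -((x.φ (z * g)).1 - Z.1 * G.1) +
        -((x.φ (g * z)).1 - (x.φ (z * g)).1 * Uu.1) := by
      rw [Matrix.mul_sub, Matrix.mul_one]; abel
    have h5 := hs_unit_mul (un_conj (x.φ (z * g))) (Uu.1 - 1)
    rw [e] at h5
    have h6 := hs_add4_le (G.1 * Z.1 - Z.1 * G.1) ((x.φ (g * z)).1 - G.1 * Z.1)
      (-((x.φ (z * g)).1 - Z.1 * G.1)) (-((x.φ (g * z)).1 - (x.φ (z * g)).1 * Uu.1))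
    rw [hs_neg, hs_neg] at h6
    have h9 : η * x.d ≤ 1 / 1000 * x.d := mul_le_mul_of_nonneg_right hη1 hd
    rw [h5] at h6
    linarith
  have e2 : G.1 * Z.1 - Z.1 * G.1 = (G.1 * (Z.1 - z') * (G.1)ᴴ + (G.1 * z' * (G.1)ᴴ - z') +
      -(Z.1 - z')) * G.1 := by
    have e3 : (G.1)ᴴ * G.1 = 1 := un_conj G
    rw [Matrix.add_mul, Matrix.add_mul, Matrix.sub_mul, Matrix.neg_mul, Matrix.sub_mul,
      Matrix.mul_assoc (G.1 * (Z.1 - z')), e3, Matrix.mul_one, Matrix.mul_assoc (G.1 * z'), e3,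
      Matrix.mul_one, Matrix.mul_sub]
    abel
  rw [e2, hs_mul_unit (un_conj G)] at hcomm
  have h5 := hs_add3_le (G.1 * (Z.1 - z') * (G.1)ᴴ) (G.1 * z' * (G.1)ᴴ - z') (-(Z.1 - z'))
  rw [hs_neg, hs_mul_unit (unit_conj (un_conj G)), hs_unit_mul (un_conj G)] at h5
  linarith

end

end

end Pool.Agent.N303.KQ
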