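import Pool.Agent.N303.KQ.Evs
import Pool.Agent.N303.KQ.FG

/-!
# Quotients of hyperlinear groups by Kazhdan subgroups
-/

set_option autoImplicit false

namespace Pool.Agent.N303.KQ

open Matrix Finset Filter
open scoped ComplexOrder
open Pool.Agent.W661.RC Pool.Agent.W683.RC
open Pool.Agent.H21R2 (IsHyperlinear hsNorm N2 E2 wN hyperlinear_of_data)

noncomputable section

theorem N2_eq' {d : ℕ} {O : Out d} (K : Matrix (Yx O) (Yx O) ℂ) :
    N2 K (fw O) = hs (K * Fd O) := by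
  rw [← W2_eq]; rfl

theorem E2_eq' {d : ℕ} {O : Out d} (K : Matrix (Yx O) (Yx O) ℂ) :
    E2 K (fw O) = hs (K * Fd O - Fd O * K) := by
  rw [E2, hs]
  refine sum_congr rfl fun x _ => sum_congr rfl fun y _ => ?_
  rw [Matrix.sub_apply, Fd, mul_diagonal, diagonal_mul]
  have : K x y * (fw O y : ℂ) - (fw O x : ℂ) * K x y =
      K x y * ((fw O y - fw O x : ℝ) : ℂ) := by
    push_cast; ring
  rw [this, norm_mul, mul_pow, Complex.norm_real, Real.norm_eq_abs, sq_abs]
  ring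

variable {P : Type} [Group P]

/-- **Kazhdan quotients of hyperlinear groups.** -/
theorem hyperlinear_quotient (hP : IsHyperlinear P) (N H : Subgroup P) (hT : HasT N)
    (hH : H ≤ Subgroup.normalizer (N : Set P))
    (hC : H ⊓ Subgroup.centralizer (Subgroup.centralizer (N : Set P) : Set P) ≤ N)
    {Q : Type*} [Group Q] (f : H →* Q) (hf : Function.Surjective f)
    (hker : ∀ h : H, f h = 1 ↔ (h : P) ∈ N) : IsHyperlinear Q := by
  classical
  obtain ⟨k, γ, hγ⟩ := exists_free hT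
  obtain ⟨K0, hK0, hne⟩ := exists_outF hP N γ hγ hT
  apply hyperlinear_of_data
  intro A h1A g hgA hg ε hε
  -- a section
  obtain ⟨ℓ0, hℓ0⟩ := hf.hasRightInverse
  set ℓ : Q → H := fun q => if q = 1 then 1 else ℓ0 q with hℓ
  have hℓf : ∀ q, f (ℓ q) = q := by
    intro q
    rw [hℓ]
    simp only
    split_ifs with h
    · rw [map_one, h]
    · exact hℓ0 q
  have hℓ1 : ℓ 1 = 1 := by rw [hℓ]; simp
  -- the element of the centraliser
  have hgN : ((ℓ g : H) : P) ∉ N := by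
    intro h
    rw [← hker, hℓf] at h
    exact hg h
  obtain ⟨z, hz, hgz⟩ : ∃ z ∈ Subgroup.centralizer (N : Set P), (ℓ g : P) * z ≠ z * (ℓ g : P) := by
    by_contra hcon
    push Not at hcon
    apply hgN
    exact hC (Subgroup.mem_inf.2 ⟨(ℓ g).2,
      Subgroup.mem_centralizer_iff.2 fun z hz => (hcon z hz).symm⟩)
  -- products of the section
  have hn : ∀ a b : Q, ∃ n : N, ((ℓ a : H) : P) * (ℓ b : H) = (ℓ (a * b) : H) * n := by
    intro a b
    have h1 : ((ℓ (a * b))⁻¹ * (ℓ a * ℓ b) : H).1 ∈ N := by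
      rw [← hker, map_mul, map_mul, map_inv, hℓf, hℓf, hℓf, inv_mul_cancel]
    refine ⟨⟨_, h1⟩, ?_⟩
    simp
  choose n hn using hn
  -- the small constant
  set τ : ℝ := min ε 1 / 20000 with hτ
  have hτ0 : 0 < τ := by rw [hτ]; positivity
  have hτ1 : τ ≤ 1 / 20000 := by
    rw [hτ]
    have := min_le_right ε 1
    linarith
  have hτ2 : τ ≤ ε / 20000 := by
    rw [hτ]
    have := min_le_left ε 1
    linarith
  have e1 : ∀ᶠ y in outF (N.subtype.comp γ) K0, ∀ a ∈ A,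
      NearInv y.2 (y.1.φ (ℓ a)).1 τ ∧ NearInv y.2 ((y.1.φ (ℓ a)).1)ᴴ τ := by
    rw [eventually_all_finset]
    exact fun a _ => ev_nearInv hγ hK0 (hH (ℓ a).2) hτ0
  have e2 : ∀ᶠ y in outF (N.subtype.comp γ) K0, ∀ a ∈ A, ∀ b ∈ A,
      ∀ v ∈ y.2.alg, Le (vᴴ * v) 1 →
      hs ((y.1.φ (ℓ (a * b))).1 * v * ((y.1.φ (ℓ (a * b))).1)ᴴ -
        (y.1.φ (ℓ a)).1 * ((y.1.φ (ℓ b)).1 * v * ((y.1.φ (ℓ b)).1)ᴴ) * ((y.1.φ (ℓ a)).1)ᴴ) ≤
          τ * y.1.d := by
    rw [eventually_all_finset]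
    intro a _
    rw [eventually_all_finset]
    intro b _
    exact ev_prod hγ (hn a b) hτ0
  obtain ⟨⟨x, O⟩, h1, h2, h3, h4, h5⟩ := (e1.and (e2.and ((ev_displ (γ := γ) hK0 hz hgz).and
    ((ev_blk (γ := N.subtype.comp γ) (K0 := K0) hτ0).and
      (ev_of_app (γ := N.subtype.comp γ) (K0 := K0) (ev_one (P := P))))))).exists
  simp only at h1 h2 h3 h4 h5
  obtain ⟨z', hz', hz'1, hz'2⟩ := h3
  obtain ⟨φ, p1, p2, p3, p4⟩ := core (O := O) (ε := τ) (c := 1 / 24) A
    (fun q => (x.φ (ℓ q)).1) (fun q => un_conj _) (by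
      show (x.φ ((ℓ 1 : H) : P)).1 = 1
      rw [hℓ1]
      show (x.φ 1).1 = 1
      rw [h5]; rfl) (fun a ha => h1 a ha) (fun a ha b hb _ v hv hv1 => h2 a ha b hb v hv hv1) hgA
    hz' hz'1 hz'2 h4.size
  have hd : (0 : ℝ) < x.d := by exact_mod_cast x.pos
  have hlow : 1 / 200 * (x.d : ℝ) ≤ hs (((φ g).1 - 1) * Fd O) := by
    refine le_trans ?_ p4
    refine mul_le_mul_of_nonneg_right ?_ hd.le
    linarith
  have hεd : ε * (1 / 200 * (x.d : ℝ)) ≤ ε * hs (((φ g).1 - 1) * Fd O) :=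
    mul_le_mul_of_nonneg_left hlow hε.le
  have hτd : τ * x.d ≤ ε / 20000 * x.d := mul_le_mul_of_nonneg_right hτ2 hd.le
  have hεd0 : 0 ≤ ε * x.d := by positivity
  have hlin : ε / 20000 * x.d = ε * x.d / 20000 := by ring
  have hlin2 : ε * (1 / 200 * (x.d : ℝ)) = ε * x.d / 200 := by ring
  rw [hlin] at hτd
  rw [hlin2] at hεd
  refine ⟨Yx O, inferInstance, inferInstance, φ, fw O, p1, ?_, ?_, ?_⟩
  · rw [N2_eq']
    refine lt_of_lt_of_le ?_ hlow
    positivity
  · intro a ha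
    rw [E2_eq', N2_eq']
    have := p2 a ha
    linarith
  · intro a ha b hb hab
    rw [N2_eq', N2_eq']
    have := p3 a ha b hb hab
    linarith

/-- the quotient of the normaliser of a Kazhdan centraliser -/
theorem hyperlinear_normalizer_quotient (hP : IsHyperlinear P) (N : Subgroup P) (hT : HasT N)
    (hC : Subgroup.centralizer (Subgroup.centralizer (N : Set P) : Set P) ≤ N) :
    IsHyperlinear (Subgroup.normalizer (N : Set P) ⧸ N.subgroupOf (Subgroup.normalizer (N : Set P))) :=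
  hyperlinear_quotient hP N (Subgroup.normalizer (N : Set P)) hT le_rfl
    (inf_le_right.trans hC) (QuotientGroup.mk' _) (QuotientGroup.mk'_surjective _) fun h => by
      rw [QuotientGroup.mk'_apply, QuotientGroup.eq_one_iff, Subgroup.mem_subgroupOf]

end

end Pool.Agent.N303.KQ
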