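import Pool.Agent.N303.KQ.Blk

/-!
# Unitary part of a contraction, weighted estimates
-/

set_option autoImplicit false

namespace Pool.Agent.N303.KQ

open Matrix Finset
open scoped ComplexOrder
open Pool.Agent.W661.RC Pool.Agent.W683.RC

noncomputable section

open Pool.Agent.H80R2.HG in
open Pool.Agent.H80R2.HG.PSAux in
theorem le_one_of_sq {κ : Type} [Fintype κ] [DecidableEq κ] {P : Matrix κ κ ℂ}
    (hP : P.PosSemidef) (h : Le (P * P) 1) : Le P 1 := by
  have h1 := herm_eq P hP.1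
  set V := hP.1.eigenvectorUnitary
  set lam := hP.1.eigenvalues with hlam
  have h0 : ∀ i, 0 ≤ lam i := fun i => hP.eigenvalues_nonneg i
  have h2 : (1 - P * P).PosSemidef := h
  have h3 : (V : Matrix κ κ ℂ)ᴴ * (1 - P * P) * (V : Matrix κ κ ℂ) =
      1 - diagonal (fun i => ((lam i * lam i : ℝ) : ℂ)) := by
    rw [Matrix.mul_sub, Matrix.sub_mul, Matrix.mul_one, uh V, h1, conjD_mul]
    unfold conjD
    congr 1
    calc (V : Matrix κ κ ℂ)ᴴ * ((V : Matrix κ κ ℂ) * diagonal (fun i => ((lam i * lam i : ℝ) : ℂ)) *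
          (V : Matrix κ κ ℂ)ᴴ) * (V : Matrix κ κ ℂ)
        = ((V : Matrix κ κ ℂ)ᴴ * (V : Matrix κ κ ℂ)) * diagonal (fun i => ((lam i * lam i : ℝ) : ℂ)) *
          ((V : Matrix κ κ ℂ)ᴴ * (V : Matrix κ κ ℂ)) := by simp only [Matrix.mul_assoc]
      _ = _ := by rw [uh V, Matrix.one_mul, Matrix.mul_one]
  have h4 : ∀ i, lam i ≤ 1 := by
    intro i
    have h5 := diag_nonneg V _ h2 i
    rw [h3, Matrix.sub_apply, Matrix.one_apply_eq, diagonal_apply_eq] at h5
    have h6 : (0 : ℂ) ≤ ((1 - lam i * lam i : ℝ) : ℂ) := by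
      push_cast
      push_cast at h5
      exact h5
    have h7 : 0 ≤ 1 - lam i * lam i := by exact_mod_cast h6
    nlinarith [h0 i]
  show (1 - P).PosSemidef
  have h8 : 1 - P = conjD V (fun i => 1 - lam i) := by
    rw [h1]
    unfold conjD
    have h9 : (1 : Matrix κ κ ℂ) = (V : Matrix κ κ ℂ) * diagonal (fun _ => (1 : ℂ)) *
        (V : Matrix κ κ ℂ)ᴴ := by
      rw [show (diagonal fun _ : κ => (1 : ℂ)) = 1 from diagonal_one, Matrix.mul_one, hu V]
    conv_lhs => rw [h9]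
    rw [← Matrix.sub_mul, ← Matrix.mul_sub, diagonal_sub]
    congr 3
    funext i
    push_cast
    ring
  rw [h8]
  exact conjD_psd V _ fun i => by linarith [h4 i]

theorem hs_one_sub_mul {κ μ : Type} [Fintype κ] [DecidableEq κ] [Fintype μ] {P : Matrix κ κ ℂ}
    (hP : P.PosSemidef) (h : Le (P * P) 1) (X : Matrix κ μ ℂ) :
    hs ((P - 1) * X) ≤ hs X - hs (P * X) := by
  have h1 := sq_le_self hP (le_one_of_sq hP h)
  have h2 := Le_tr (Le_conj h1 X)
  have e1 : hs ((P - 1) * X) = hs X + hs (P * X) - 2 * tr (Xᴴ * P * X) := by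
    rw [hs_eq_tr, hs_eq_tr, hs_eq_tr, Matrix.sub_mul, Matrix.one_mul, Matrix.conjTranspose_sub,
      Matrix.mul_sub, Matrix.sub_mul, Matrix.sub_mul, tr_sub, tr_sub, tr_sub]
    have e2 : tr ((P * X)ᴴ * X) = tr (Xᴴ * P * X) := by
      rw [Matrix.conjTranspose_mul, hP.1.eq]
    have e3 : tr (Xᴴ * (P * X)) = tr (Xᴴ * P * X) := by
      rw [Matrix.mul_assoc]
    rw [e2, e3]
    ring
  have e4 : hs (P * X) = tr (Xᴴ * (P * P) * X) := by
    rw [hs_eq_tr, Matrix.conjTranspose_mul, hP.1.eq]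
    congr 1
    simp only [Matrix.mul_assoc]
  rw [e1]
  rw [← e4] at h2
  linarith

/-- a contraction has a unitary part which is close to it for all weights -/
theorem exists_unitary_weights {κ : Type} [Fintype κ] [DecidableEq κ] (T : Matrix κ κ ℂ)
    (hT : Le (Tᴴ * T) 1) :
    ∃ u : unitaryGroup κ ℂ, ∀ X : Matrix κ κ ℂ,
      hs ((T - u.1) * X) ≤ hs X - hs (T * X) ∧ hs ((T - u.1)ᴴ * X) ≤ hs X - hs (Tᴴ * X) := by
  obtain ⟨u, P, hP, hW, hPP⟩ := Pool.Agent.H80R2.HG.PSAux.polar T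
  have hP1 : Le (P * P) 1 := by rw [hPP]; exact hT
  have hu : (u.1)ᴴ * u.1 = 1 := Pool.Agent.H80R2.HG.PSAux.uh u
  have huu : ((u.1)ᴴ)ᴴ * (u.1)ᴴ = 1 := unit_conj hu
  refine ⟨u, fun X => ⟨?_, ?_⟩⟩
  · have e1 : (T - u.1) * X = u.1 * ((P - 1) * X) := by
      rw [hW, ← Matrix.mul_assoc, Matrix.mul_sub, Matrix.mul_one]
    have e2 : T * X = u.1 * (P * X) := by rw [hW, Matrix.mul_assoc]
    rw [e1, e2, hs_unit_mul hu, hs_unit_mul hu]
    exact hs_one_sub_mul hP hP1 X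
  · have e1 : (T - u.1)ᴴ * X = (P - 1) * ((u.1)ᴴ * X) := by
      rw [hW, Matrix.conjTranspose_sub, Matrix.conjTranspose_mul, hP.1.eq, Matrix.sub_mul,
        Matrix.sub_mul, Matrix.one_mul, Matrix.mul_assoc]
    have e2 : Tᴴ * X = P * ((u.1)ᴴ * X) := by
      rw [hW, Matrix.conjTranspose_mul, hP.1.eq, Matrix.mul_assoc]
    have e3 : hs X = hs ((u.1)ᴴ * X) := (hs_unit_mul huu X).symm
    rw [e1, e2]
    conv_rhs => rw [e3]
    exact hs_one_sub_mul hP hP1 _

end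

end Pool.Agent.N303.KQ
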