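import Pool.Agent.N303.KQ.Des
import Pool.Agent.N303.KQ.Pol

/-!
# Weighted estimates for compressions of conjugations to the block algebra
-/

set_option autoImplicit false

namespace Pool.Agent.N303.KQ

open Matrix Finset
open scoped ComplexOrder
open Pool.Agent.W661.RC Pool.Agent.W683.RC

noncomputable section

variable {d : ℕ} (O : Out d)

/-- conjugation by `V` maps the unit ball of the block algebra into a neighbourhood of it -/
def NearInv (V : Mt d) (ε : ℝ) : Prop :=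
  ∀ a ∈ O.alg, Le (aᴴ * a) 1 → ∃ b ∈ O.alg, hs (V * a * Vᴴ - b) ≤ ε * d

/-- weighted size of a matrix -/
def W2 {Z : Type} [Fintype Z] (K : Matrix Z (Yx O) ℂ) : ℝ := ∑ z, ∑ y, ‖K z y‖ ^ 2 * fw O y ^ 2

/-- the compression -/
abbrev TT (V : Mt d) : Matrix (Yx O) (Yx O) ℂ := TV (Jb O) V

variable {O}

theorem W2_nonneg {Z : Type} [Fintype Z] (K : Matrix Z (Yx O) ℂ) : 0 ≤ W2 O K :=
  sum_nonneg fun _ _ => sum_nonneg fun _ _ => by positivity

theorem sum_nsq' {Z : Type} [Fintype Z] (K : Matrix Z (Yx O) ℂ) :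
    ∑ ω : Om O, nsq (K *ᵥ xv O ω) = Fintype.card (Om O) * W2 O K := sum_nsq K

/-- an upper bound for all test vectors bounds the weighted size -/
theorem W2_le {Z : Type} [Fintype Z] (K : Matrix Z (Yx O) ℂ) (c : ℝ)
    (h : ∀ ω, nsq (K *ᵥ xv O ω) ≤ c) : W2 O K ≤ c := by
  have h1 := sum_nsq' K
  have h2 : ∑ ω : Om O, nsq (K *ᵥ xv O ω) ≤ Fintype.card (Om O) * c := by
    refine (sum_le_sum fun ω _ => h ω).trans ?_
    rw [sum_const, card_univ, nsmul_eq_mul]
  rw [h1] at h2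
  exact le_of_mul_le_mul_left h2 card_Om_pos

theorem le_W2 {Z : Type} [Fintype Z] (K : Matrix Z (Yx O) ℂ) (c : ℝ)
    (h : ∀ ω, c ≤ nsq (K *ᵥ xv O ω)) : c ≤ W2 O K := by
  have h1 := sum_nsq' K
  have h2 : Fintype.card (Om O) * c ≤ ∑ ω : Om O, nsq (K *ᵥ xv O ω) := by
    refine le_trans ?_ (sum_le_sum fun ω _ => h ω)
    rw [sum_const, card_univ, nsmul_eq_mul]
  rw [h1] at h2
  exact le_of_mul_le_mul_left h2 card_Om_pos

/-- the diagonal matrix of the weight -/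
def Fd (O : Out d) : Matrix (Yx O) (Yx O) ℂ := diagonal fun y => (fw O y : ℂ)

theorem W2_eq {Z : Type} [Fintype Z] (K : Matrix Z (Yx O) ℂ) : W2 O K = hs (K * Fd O) := by
  rw [W2, hs]
  refine sum_congr rfl fun z _ => sum_congr rfl fun y _ => ?_
  rw [Fd, mul_diagonal, norm_mul, mul_pow, Complex.norm_real, Real.norm_eq_abs, sq_abs]

theorem hs_Fd : hs (Fd O) = D0 O := by
  rw [← sum_fw_sq, hs]
  refine sum_congr rfl fun x _ => ?_
  rw [sum_eq_single x]
  · rw [Fd, diagonal_apply_eq, Complex.norm_real, Real.norm_eq_abs, sq_abs]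
  · intro b _ hb
    rw [Fd, diagonal_apply_ne _ (Ne.symm hb)]
    simp
  · intro h; exact absurd (mem_univ _) h

theorem hs_vv (ω : Om O) : hs (vv O ω) = D0 O := by
  rw [hs_eq_tr, vv_conj_mul, tr_pO]

theorem TT_xv (V : Mt d) (ω : Om O) : TT O V *ᵥ xv O ω = kp (Jb O) (V * vv O ω * Vᴴ) := by
  rw [TV_mulVec, JJ_xv]

theorem nsq_TT_le {V : Mt d} (hV : Vᴴ * V = 1) (ξ : Yx O → ℂ) : nsq (TT O V *ᵥ ξ) ≤ nsq ξ := by
  rw [TV_mulVec]
  refine (nsq_kp_le onf_Jb _).trans ?_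
  rw [hs_mul_unit (unit_conj hV), hs_unit_mul hV, hs_JJ onf_Jb]

/-- a matrix which does not increase norms of vectors -/
theorem contr_of_nsq {Y : Type} [Fintype Y] [DecidableEq Y] (T : Matrix Y Y ℂ)
    (h : ∀ ξ : Y → ℂ, nsq (T *ᵥ ξ) ≤ nsq ξ) : Le (Tᴴ * T) 1 := by
  show (1 - Tᴴ * T).PosSemidef
  refine Matrix.PosSemidef.of_dotProduct_mulVec_nonneg ?_ ?_
  · rw [Matrix.IsHermitian, conjTranspose_sub, conjTranspose_one, conjTranspose_mul,
      conjTranspose_conjTranspose]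
  · intro ξ
    have h0 : ∀ η : Y → ℂ, star η ⬝ᵥ η = ((nsq η : ℝ) : ℂ) := by
      intro η
      rw [dotProduct, nsq]
      push_cast
      refine sum_congr rfl fun y _ => ?_
      rw [Pi.star_apply, Complex.star_def, Complex.conj_mul']
    have h1 : star ξ ⬝ᵥ ((1 - Tᴴ * T) *ᵥ ξ) = ((nsq ξ - nsq (T *ᵥ ξ) : ℝ) : ℂ) := by
      rw [sub_mulVec, one_mulVec, dotProduct_sub, h0, ← mulVec_mulVec, dotProduct_mulVec,
        ← star_mulVec, h0]
      push_cast
      ring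
    rw [h1]
    have h2 := h ξ
    exact_mod_cast sub_nonneg.2 h2

theorem TT_contr {V : Mt d} (hV : Vᴴ * V = 1) : Le ((TT O V)ᴴ * TT O V) 1 :=
  contr_of_nsq _ fun ξ => nsq_TT_le hV ξ

theorem W2_TT_ge {V : Mt d} (hV : Vᴴ * V = 1) {ε : ℝ} (h : NearInv O V ε) :
    D0 O - ε * d ≤ W2 O (TT O V) := by
  refine le_W2 _ _ fun ω => ?_
  rw [TT_xv]
  obtain ⟨b, hb, hb2⟩ := h (vv O ω) (vv_mem ω) (vv_contr ω)
  have h1 := hs_eq_kp (onf_Jb (O := O)) (V * vv O ω * Vᴴ)
  have h2 := hs_sub_kp_le (x := V * vv O ω * Vᴴ) hb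
  rw [hs_mul_unit (unit_conj hV), hs_unit_mul hV, hs_vv] at h1
  linarith

/-! ### Row projections -/

/-- the projection of the row `i` -/
def pr (O : Out d) (i : O.I) : Mt d := Am O (eu O i i)

theorem eu_mul (i j : O.I) : eu O i i * eu O i j = eu O i j := by
  ext a b
  rw [Matrix.mul_apply]
  simp only [eu]
  rw [sum_eq_single i]
  · by_cases h : a = i ∧ b = j
    · rw [if_pos h, if_pos ⟨h.1, rfl⟩, if_pos ⟨rfl, h.2⟩, one_mul]
    · rw [if_neg h]
      by_cases h2 : a = i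
      · rw [if_pos ⟨h2, rfl⟩, one_mul, if_neg]
        rintro ⟨_, h3⟩
        exact h ⟨h2, h3⟩
      · rw [if_neg (fun h3 => h2 h3.1), zero_mul]
  · intro c _ hc
    rw [if_neg (fun h3 => hc h3.2), zero_mul]
  · intro h; exact absurd (mem_univ _) h

theorem eu_conj (i : O.I) : (eu O i i)ᴴ = eu O i i := by
  ext a b
  simp only [conjTranspose_apply, eu]
  by_cases h : a = i ∧ b = i
  · rw [if_pos h, if_pos ⟨h.2, h.1⟩, star_one]
  · rw [if_neg h, if_neg (fun h2 => h ⟨h2.2, h2.1⟩), star_zero]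

theorem pr_isPr (i : O.I) : IsPr (pr O i) := by
  refine ⟨?_, ?_⟩
  · rw [pr, Am_conjTranspose, eu_conj]
  · rw [pr, Am_mul (BD_eu rfl), eu_mul]

theorem pr_mul_Jb (y : Yx O) : pr O y.1.1 * Jb O y = Jb O y := by
  rw [Jb, Matrix.mul_smul, pr, Am_mul (BD_eu rfl), eu_mul]

theorem pr_mul_Jb_ne (i : O.I) (y : Yx O) (h : y.1.1 ≠ i) : pr O i * Jb O y = 0 := by
  rw [Jb, Matrix.mul_smul, pr, Am_mul (BD_eu rfl)]
  have h1 : eu O i i * eu O y.1.1 y.1.2 = 0 := by
    ext a b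
    rw [Matrix.mul_apply]
    simp only [eu]
    refine sum_eq_zero fun c _ => ?_
    by_cases h2 : a = i ∧ c = i
    · rw [if_neg (c := c = y.1.1 ∧ b = y.1.2), mul_zero]
      rintro ⟨h3, _⟩
      exact h (by rw [← h3, h2.2])
    · rw [if_neg h2, zero_mul]
  rw [h1]
  have h2 : Am O (0 : Matrix O.I O.I ℂ) = 0 := by rw [Am, Bm_zero]; simp
  rw [h2, smul_zero]

theorem Bm_one : Bm O 1 = 1 := by
  ext x y
  rw [Bm, Matrix.one_apply, Matrix.one_apply]
  by_cases h1 : x = y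
  · subst h1; simp
  · rw [if_neg h1]
    by_cases h2 : (x.2 : ℕ) = (y.2 : ℕ)
    · rw [if_pos h2, if_neg]
      intro h3
      apply h1
      obtain ⟨i, q⟩ := x
      obtain ⟨j, r⟩ := y
      simp only at h3 h2
      subst h3
      congr 1
      exact Fin.ext h2
    · rw [if_neg h2]

theorem sum_pr : ∑ i, pr O i = pO O := by
  have h : (∑ i : O.I, eu O i i) = 1 := by
    ext a b
    rw [Matrix.sum_apply, Matrix.one_apply]
    simp only [eu]
    rw [sum_eq_single a]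
    · by_cases h : a = b
      · subst h; simp
      · rw [if_neg h, if_neg (fun h2 => h h2.2.symm)]
    · intro c _ hc
      rw [if_neg (fun h2 => hc h2.1.symm)]
    · intro h; exact absurd (mem_univ _) h
  have h2 : ∑ i, pr O i = Am O (∑ i : O.I, eu O i i) := by rw [Am_sum]; rfl
  rw [h2, h, Am, Bm_one, Matrix.mul_one, pO]

theorem sum_hs_pr_mul {n : Type} [Fintype n] (x : Matrix (Fin d) n ℂ) :
    ∑ i, hs (pr O i * x) ≤ hs x := by
  have h1 : ∀ i, hs (pr O i * x) = tr (xᴴ * pr O i * x) := by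
    intro i
    rw [hs_eq_tr, Matrix.conjTranspose_mul, (pr_isPr i).1]
    congr 1
    calc xᴴ * pr O i * (pr O i * x) = xᴴ * (pr O i * pr O i) * x := by
          simp only [Matrix.mul_assoc]
      _ = _ := by rw [(pr_isPr i).2]
  simp only [h1]
  rw [← tr_sum, ← Matrix.sum_mul, ← Matrix.mul_sum, sum_pr]
  have h2 : tr (xᴴ * pO O * x) = hs (pO O * x) := by
    rw [hs_eq_tr, Matrix.conjTranspose_mul, pO_pr.1]
    congr 1
    calc xᴴ * pO O * x = xᴴ * (pO O * pO O) * x := by rw [pO_pr.2]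
      _ = _ := by simp only [Matrix.mul_assoc]
  rw [h2]
  exact hs_pr_mul_le_self pO_pr x

theorem sum_hs_pr : ∑ i, hs (pr O i) = D0 O := by
  have h1 : ∀ i, hs (pr O i) = tr (pr O i) := fun i => (pr_tr_eq_hs (pr_isPr i)).symm
  simp only [h1]
  rw [← tr_sum, sum_pr, tr_pO]

/-- matrix element block between two rows -/
def kk (O : Out d) (V : Mt d) (i' i : O.I) : ℝ := hs (pr O i' * V * pr O i)

theorem sum_kk_le {V : Mt d} (hV : Vᴴ * V = 1) : ∑ i', ∑ i, kk O V i' i ≤ D0 O := by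
  rw [sum_comm]
  have h1 : ∀ i, ∑ i', kk O V i' i ≤ hs (pr O i) := by
    intro i
    have h2 := sum_hs_pr_mul (O := O) (V * pr O i)
    rw [hs_unit_mul hV] at h2
    refine le_trans (le_of_eq ?_) h2
    refine sum_congr rfl fun i' _ => ?_
    rw [kk, Matrix.mul_assoc]
  exact (sum_le_sum fun i _ => h1 i).trans (le_of_eq sum_hs_pr)

theorem claimA {V : Mt d} (hV : Vᴴ * V = 1) (i' i : O.I) :
    ∑ y' : Yx O, ∑ y : Yx O, (if y'.1.1 = i' ∧ y.1.1 = i then ‖TT O V y' y‖ ^ 2 else 0) * fw O y ^ 2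
      ≤ kk O V i' i := by
  set K : Matrix (Yx O) (Yx O) ℂ := fun y' y => if y'.1.1 = i' ∧ y.1.1 = i then TT O V y' y else 0
    with hK
  have h1 : ∑ y' : Yx O, ∑ y : Yx O,
      (if y'.1.1 = i' ∧ y.1.1 = i then ‖TT O V y' y‖ ^ 2 else 0) * fw O y ^ 2 = W2 O K := by
    rw [W2]
    refine sum_congr rfl fun y' _ => sum_congr rfl fun y _ => ?_
    rw [hK]
    simp only
    split_ifs <;> simp
  rw [h1]
  refine W2_le _ _ fun ω => ?_
  -- the vector `K ξ`
  have h2 : ∀ y', (K *ᵥ xv O ω) y' = if y'.1.1 = i' then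
      kp (Jb O) (pr O i' * (V * (pr O i * vv O ω) * Vᴴ)) y' else 0 := by
    intro y'
    have h3 : pr O i * vv O ω = ∑ y : Yx O, (if y.1.1 = i then xv O ω y else 0) • Jb O y := by
      rw [← JJ_xv, JJ, Matrix.mul_sum]
      refine sum_congr rfl fun y _ => ?_
      by_cases h : y.1.1 = i
      · rw [if_pos h, Matrix.mul_smul]
        congr 1
        rw [← h]
        exact pr_mul_Jb y
      · rw [if_neg h, zero_smul, Matrix.mul_smul, pr_mul_Jb_ne i y h, smul_zero]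
    by_cases h : y'.1.1 = i'
    · rw [if_pos h]
      have h4 : kp (Jb O) (pr O i' * (V * (pr O i * vv O ω) * Vᴴ)) y' =
          ip (Jb O y') (V * (pr O i * vv O ω) * Vᴴ) := by
        rw [kp, ip, ip, ← Matrix.mul_assoc]
        congr 2
        have h5 := pr_mul_Jb y'
        rw [h] at h5
        have h6 := congrArg Matrix.conjTranspose h5
        rw [Matrix.conjTranspose_mul, (pr_isPr i').1] at h6
        exact h6
      rw [h4, h3, Matrix.mul_sum, Matrix.sum_mul, ip_sum_right, mulVec, dotProduct]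
      refine sum_congr rfl fun y _ => ?_
      rw [hK]
      simp only [TT, TV]
      by_cases h7 : y.1.1 = i
      · rw [if_pos ⟨h, h7⟩, if_pos h7, Matrix.mul_smul, Matrix.smul_mul, ip_smul_right, mul_comm]
      · rw [if_neg (fun h8 => h7 h8.2), if_neg h7, zero_smul, Matrix.mul_zero, Matrix.zero_mul,
          zero_mul]
        simp [ip]
    · rw [if_neg h, mulVec, dotProduct]
      refine sum_eq_zero fun y _ => ?_
      rw [hK]
      simp only
      rw [if_neg (fun h8 => h h8.1), zero_mul]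
  have h3 : nsq (K *ᵥ xv O ω) ≤ nsq (kp (Jb O) (pr O i' * (V * (pr O i * vv O ω) * Vᴴ))) := by
    rw [nsq, nsq]
    refine sum_le_sum fun y' _ => ?_
    rw [h2 y']
    split_ifs
    · exact le_rfl
    · rw [norm_zero, zero_pow two_ne_zero]; positivity
  refine h3.trans ((nsq_kp_le onf_Jb _).trans ?_)
  have e1 : pr O i' * (V * (pr O i * vv O ω) * Vᴴ) = pr O i' * V * pr O i * vv O ω * Vᴴ := by
    simp only [Matrix.mul_assoc]
  rw [e1, hs_mul_unit (unit_conj hV), kk]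
  exact hs_mul_le_right (vv_contr ω) _

theorem kk_symm (V : Mt d) (i' i : O.I) : kk O Vᴴ i i' = kk O V i' i := by
  rw [kk, kk, ← Pool.Agent.W683.RC.hs_conjTranspose]
  congr 1
  rw [Matrix.conjTranspose_mul, Matrix.conjTranspose_mul, Matrix.conjTranspose_conjTranspose,
    (pr_isPr i).1, (pr_isPr i').1, Matrix.mul_assoc]

theorem claimB {V : Mt d} (hV : Vᴴ * V = 1) (i' i : O.I) :
    ∑ y' : Yx O, ∑ y : Yx O, (if y'.1.1 = i' ∧ y.1.1 = i then ‖TT O V y' y‖ ^ 2 else 0) * fw O y' ^ 2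
      ≤ kk O V i' i := by
  have h := claimA (O := O) (unit_conj hV) i i'
  rw [kk_symm] at h
  refine le_trans (le_of_eq ?_) h
  rw [sum_comm]
  refine sum_congr rfl fun y _ => sum_congr rfl fun y' _ => ?_
  have h1 : TT O Vᴴ y y' = star (TT O V y' y) := by
    rw [TT, ← TV_conjTranspose, conjTranspose_apply]
  rw [h1, norm_star]
  by_cases h2 : y'.1.1 = i' ∧ y.1.1 = i
  · rw [if_pos h2, if_pos ⟨h2.2, h2.1⟩]
  · rw [if_neg h2, if_neg (fun h3 => h2 ⟨h3.2, h3.1⟩)]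

/-- squared weight as a function of the row -/
def ph (O : Out d) (i : O.I) : ℝ := (O.l (O.c i) : ℝ) / mc O i

theorem fw_sq' (y : Yx O) : fw O y ^ 2 = ph O y.1.1 := fw_sq y

theorem split_rows (g : Yx O → Yx O → ℝ) :
    ∑ y', ∑ y, g y' y = ∑ i' : O.I, ∑ i : O.I, ∑ y' : Yx O, ∑ y : Yx O,
      (if y'.1.1 = i' ∧ y.1.1 = i then g y' y else 0) := by
  have h1 : ∀ y' y : Yx O, g y' y = ∑ i' : O.I, ∑ i : O.I,
      (if y'.1.1 = i' ∧ y.1.1 = i then g y' y else 0) := by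
    intro y' y
    rw [sum_eq_single y'.1.1, sum_eq_single y.1.1]
    · rw [if_pos ⟨rfl, rfl⟩]
    · intro b _ hb
      rw [if_neg (fun h => hb h.2.symm)]
    · intro h; exact absurd (mem_univ _) h
    · intro b _ hb
      refine sum_eq_zero fun c _ => ?_
      rw [if_neg (fun h => hb h.1.symm)]
    · intro h; exact absurd (mem_univ _) h
  conv_lhs => enter [2, y', 2, y]; rw [h1 y' y]
  have h2 : ∀ y' : Yx O, ∑ y : Yx O, ∑ i' : O.I, ∑ i : O.I,
      (if y'.1.1 = i' ∧ y.1.1 = i then g y' y else 0) = ∑ i' : O.I, ∑ i : O.I, ∑ y : Yx O,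
      (if y'.1.1 = i' ∧ y.1.1 = i then g y' y else 0) := by
    intro y'
    rw [sum_comm]
    exact sum_congr rfl fun i' _ => sum_comm
  rw [sum_congr rfl fun y' _ => h2 y', sum_comm]
  exact sum_congr rfl fun i' _ => sum_comm

/-- the commutator with the weight is small -/
theorem comm_le {V : Mt d} (hV : Vᴴ * V = 1) :
    hs (TT O V * Fd O - Fd O * TT O V) ≤
      2 * D0 O - hs (TT O V * Fd O) - hs ((TT O V)ᴴ * Fd O) := by
  have e1 : hs (TT O V * Fd O - Fd O * TT O V) =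
      ∑ y', ∑ y, ‖TT O V y' y‖ ^ 2 * (fw O y - fw O y') ^ 2 := by
    rw [hs]
    refine sum_congr rfl fun x _ => sum_congr rfl fun y _ => ?_
    rw [Matrix.sub_apply, Fd, mul_diagonal, diagonal_mul]
    have : TT O V x y * (fw O y : ℂ) - (fw O x : ℂ) * TT O V x y =
        TT O V x y * ((fw O y - fw O x : ℝ) : ℂ) := by
      push_cast; ring
    rw [this, norm_mul, mul_pow, Complex.norm_real, Real.norm_eq_abs, sq_abs]
  have e2 : hs (TT O V * Fd O) = ∑ y', ∑ y, ‖TT O V y' y‖ ^ 2 * fw O y ^ 2 := by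
    rw [← W2_eq, W2]
  have e3 : hs ((TT O V)ᴴ * Fd O) = ∑ y', ∑ y, ‖TT O V y' y‖ ^ 2 * fw O y' ^ 2 := by
    rw [← W2_eq, W2, sum_comm]
    refine sum_congr rfl fun y _ => sum_congr rfl fun y' _ => ?_
    rw [conjTranspose_apply, norm_star]
  rw [e1, e2, e3, split_rows, split_rows (fun y' y => ‖TT O V y' y‖ ^ 2 * fw O y ^ 2),
    split_rows (fun y' y => ‖TT O V y' y‖ ^ 2 * fw O y' ^ 2)]
  have h0 := sum_kk_le (O := O) hV
  have key : ∀ i' i : O.I,
      ∑ y' : Yx O, ∑ y : Yx O, (if y'.1.1 = i' ∧ y.1.1 = i then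
        ‖TT O V y' y‖ ^ 2 * (fw O y - fw O y') ^ 2 else 0) ≤
      2 * kk O V i' i - (∑ y' : Yx O, ∑ y : Yx O, (if y'.1.1 = i' ∧ y.1.1 = i then
        ‖TT O V y' y‖ ^ 2 * fw O y ^ 2 else 0)) - (∑ y' : Yx O, ∑ y : Yx O,
        (if y'.1.1 = i' ∧ y.1.1 = i then ‖TT O V y' y‖ ^ 2 * fw O y' ^ 2 else 0)) := by
    intro i' i
    set κ : ℝ := ∑ y' : Yx O, ∑ y : Yx O, (if y'.1.1 = i' ∧ y.1.1 = i then
        ‖TT O V y' y‖ ^ 2 else 0) with hκ
    have hκ0 : 0 ≤ κ := sum_nonneg fun _ _ => sum_nonneg fun _ _ => by split_ifs <;> positivity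
    have f1 : ∑ y' : Yx O, ∑ y : Yx O, (if y'.1.1 = i' ∧ y.1.1 = i then
        ‖TT O V y' y‖ ^ 2 * fw O y ^ 2 else 0) = ph O i * κ := by
      rw [hκ, mul_sum]
      refine sum_congr rfl fun y' _ => ?_
      rw [mul_sum]
      refine sum_congr rfl fun y _ => ?_
      by_cases h : y'.1.1 = i' ∧ y.1.1 = i
      · rw [if_pos h, if_pos h, fw_sq', h.2, mul_comm]
      · rw [if_neg h, if_neg h, mul_zero]
    have f2 : ∑ y' : Yx O, ∑ y : Yx O, (if y'.1.1 = i' ∧ y.1.1 = i then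
        ‖TT O V y' y‖ ^ 2 * fw O y' ^ 2 else 0) = ph O i' * κ := by
      rw [hκ, mul_sum]
      refine sum_congr rfl fun y' _ => ?_
      rw [mul_sum]
      refine sum_congr rfl fun y _ => ?_
      by_cases h : y'.1.1 = i' ∧ y.1.1 = i
      · rw [if_pos h, if_pos h, fw_sq', h.1, mul_comm]
      · rw [if_neg h, if_neg h, mul_zero]
    have f3 : ∑ y' : Yx O, ∑ y : Yx O, (if y'.1.1 = i' ∧ y.1.1 = i then
        ‖TT O V y' y‖ ^ 2 * (fw O y - fw O y') ^ 2 else 0) ≤ |ph O i - ph O i'| * κ := by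
      rw [hκ, mul_sum]
      refine sum_le_sum fun y' _ => ?_
      rw [mul_sum]
      refine sum_le_sum fun y _ => ?_
      by_cases h : y'.1.1 = i' ∧ y.1.1 = i
      · rw [if_pos h, if_pos h, mul_comm]
        refine mul_le_mul_of_nonneg_right ?_ (by positivity)
        rw [← h.1, ← h.2, ← fw_sq', ← fw_sq']
        have a0 : 0 ≤ fw O y := Real.sqrt_nonneg _
        have b0 : 0 ≤ fw O y' := Real.sqrt_nonneg _
        have e : fw O y ^ 2 - fw O y' ^ 2 = (fw O y - fw O y') * (fw O y + fw O y') := by ring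
        rw [e, abs_mul, abs_of_nonneg (add_nonneg a0 b0)]
        have h5 : |fw O y - fw O y'| ≤ fw O y + fw O y' := by
          rw [abs_le]; constructor <;> linarith
        calc (fw O y - fw O y') ^ 2 = |fw O y - fw O y'| * |fw O y - fw O y'| := by
              rw [← sq, sq_abs]
          _ ≤ |fw O y - fw O y'| * (fw O y + fw O y') :=
              mul_le_mul_of_nonneg_left h5 (abs_nonneg _)
      · rw [if_neg h, if_neg h, mul_zero]
    have g1 : ph O i * κ ≤ kk O V i' i := by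
      refine le_trans (le_of_eq ?_) (claimA hV i' i)
      rw [← f1]
      refine sum_congr rfl fun y' _ => sum_congr rfl fun y _ => ?_
      split_ifs <;> simp
    have g2 : ph O i' * κ ≤ kk O V i' i := by
      refine le_trans (le_of_eq ?_) (claimB hV i' i)
      rw [← f2]
      refine sum_congr rfl fun y' _ => sum_congr rfl fun y _ => ?_
      split_ifs <;> simp
    rw [f1, f2]
    refine f3.trans ?_
    rcases abs_cases (ph O i - ph O i') with ⟨h, _⟩ | ⟨h, _⟩ <;> rw [h] <;> nlinarith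
  have hsum : ∑ i' : O.I, ∑ i : O.I, ∑ y' : Yx O, ∑ y : Yx O,
      (if y'.1.1 = i' ∧ y.1.1 = i then ‖TT O V y' y‖ ^ 2 * (fw O y - fw O y') ^ 2 else 0) ≤
      ∑ i' : O.I, ∑ i : O.I, (2 * kk O V i' i - (∑ y' : Yx O, ∑ y : Yx O,
        (if y'.1.1 = i' ∧ y.1.1 = i then ‖TT O V y' y‖ ^ 2 * fw O y ^ 2 else 0)) -
        (∑ y' : Yx O, ∑ y : Yx O,
        (if y'.1.1 = i' ∧ y.1.1 = i then ‖TT O V y' y‖ ^ 2 * fw O y' ^ 2 else 0))) :=
    sum_le_sum fun i' _ => sum_le_sum fun i _ => key i' i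
  refine hsum.trans ?_
  simp only [sum_sub_distrib, ← mul_sum]
  linarith

end

end Pool.Agent.N303.KQ
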